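import Pool.Agent.PWE.StB

/-!
# Campaign PWE: module Clo
-/

set_option autoImplicit false

open scoped BigOperators

namespace Pool.Agent.PWE

open Pool.Agent.PW Pool.Agent.PWM Pool.Agent.PWB Pool.Agent.PWX Pool.Agent.PWF Pool.Agent.PWL
  Pool.Agent.PWY
open scoped Classical

/-- (Clo) Generators of the form `θ (gb i)`. -/
theorem thm_Clo : St_Clo := by
  intro g n z hz
  set E : Subgroup (F g n) := Subgroup.closure {y : F g n | ∃ (i : Fin g) (θ : MulAut (F g n)),
    θ ∈ MCG g n ∧ (∀ j, j ≠ i → θ (gb j) = gb j) ∧ y = θ (gb i)} with hE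
  have hsub : ∀ (i : Fin g) (θ : MulAut (F g n)), θ ∈ MCG g n →
      (∀ j, j ≠ i → θ (gb j) = gb j) → θ (gb i) ∈ E := fun i θ h1 h2 =>
    Subgroup.subset_closure ⟨i, θ, h1, h2, rfl⟩
  have hb : ∀ i : Fin g, gb i ∈ E := by
    intro i
    have h := hsub i 1 (MCG g n).one_mem (fun j _ => rfl)
    exact h
  have ha : ∀ i : Fin g, ga i ∈ E := by
    intro i
    have h := hsub i (e1 i 1) (e1_mem i 1) (fun j hj => by rw [e1_apply, e1h_b' hj])
    rw [e1_apply, e1h_b, zpow_one] at h
    exact (Subgroup.mul_mem_cancel_left E (hb i)).1 h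
  have hs : ∀ j : Fin n, sc z j ∈ E := by
    intro j
    have h := hsub z (qsh z j 1) (qsh_mem 1) (fun l hl => by rw [qsh_apply, qh_b' hl])
    rw [qsh_apply, qh_bi, zpow_one] at h
    have h1 : qw z j ∈ E := (Subgroup.mul_mem_cancel_right E (hb z)).1 h
    have h2 : (gb z * (ga z)⁻¹ * (gb z)⁻¹ : F g n) ∈ E :=
      E.mul_mem (E.mul_mem (hb z) (E.inv_mem (ha z))) (E.inv_mem (hb z))
    exact (Subgroup.mul_mem_cancel_left E h2).1 h1
  have hc : ∀ k : ℕ, ∀ j : Fin n, (j : ℕ) = k → gc j ∈ E := by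
    intro k
    induction k using Nat.strong_induction_on with
    | _ k ih =>
      intro j hj
      have hm : midc g n z j ∈ E := by
        unfold midc
        refine E.mul_mem (seg_mem fun i _ _ => ⟨ha i, hb i⟩) (cseg_mem fun i _ hi => ?_)
        exact ih i (by omega) i rfl
      have h1 := hs j
      unfold sc at h1
      have e : (midc g n z j)⁻¹ * (midc g n z j * gc j * (midc g n z j)⁻¹) * midc g n z j = gc j := by
        group
      rw [← e]
      exact E.mul_mem (E.mul_mem (E.inv_mem hm) h1) hm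
  exact eq_top_of_gens ha hb fun j => hc j j rfl

end Pool.Agent.PWE
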