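import Pool.Agent.PWE.St

/-!
# PWE.Ctr : exponential decay of the norms (helper42)
-/

set_option autoImplicit false

open scoped BigOperators

namespace Pool.Agent.PWE

open Pool.Agent.PW Pool.Agent.PWM Pool.Agent.PWB Pool.Agent.PWX Pool.Agent.PWF Pool.Agent.PWL
  Pool.Agent.PWY
open scoped Classical

private theorem ctr_dl_nonneg {G : Type} [Group G] [Fintype G] {Ω : Type} [Fintype Ω]
    [MulAction G Ω] (M : List (G × G)) (s : ℕ) (v : Ω → ℝ) (i : ℕ) : 0 ≤ dl M s v i := by
  unfold dl
  refine Finset.sum_nonneg fun L _ => ?_
  unfold dp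
  exact Finset.sum_nonneg fun w _ => sq_nonneg _

private theorem ctr_em_zero {G : Type} [Group G] [Fintype G] {Ω : Type} [Fintype Ω]
    [MulAction G Ω] (M : List (G × G)) (s : ℕ) (v : Ω → ℝ) :
    em M s v 0 = (cls M).card * nn v := by
  unfold em
  have h : ∀ L ∈ cls M, nn (vv s v 0 L) = nn v := by
    intro L _
    unfold vv
    rw [List.take_zero]
    rfl
  rw [Finset.sum_congr rfl h, Finset.sum_const, nsmul_eq_mul]

theorem thm_Ctr : St_Ctr := by
  intro G _ _ Ω _ _ M s v k β hβ hv h1 h2
  have hc : (0 : ℝ) ≤ ((cls M).card : ℝ) := Nat.cast_nonneg _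
  have key : ∀ j, j ≤ k → em M s v j ≤ 4 * (β * (cls M).card) ∨
      em M s v j ≤ (15 / 16) ^ j * (cls M).card := by
    intro j
    induction j with
    | zero =>
      intro _
      right
      rw [ctr_em_zero, pow_zero, one_mul]
      exact mul_le_of_le_one_right hc hv
    | succ j ih =>
      intro hj
      have hjk : j < k := hj
      have hdl := ctr_dl_nonneg M s v j
      rw [h1 j hjk]
      rcases ih (le_of_lt hjk) with h | h
      · left
        linarith
      · rcases lt_or_ge (em M s v j) (4 * (β * (cls M).card)) with h' | h'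
        · left
          linarith
        · right
          have h3 := h2 j hjk h'
          have h4 : ((15 : ℝ) / 16) ^ (j + 1) * (cls M).card =
              15 / 16 * ((15 / 16) ^ j * (cls M).card) := by
            rw [pow_succ]; ring
          rw [h4]
          linarith
  exact key k le_rfl

end Pool.Agent.PWE
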