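import Pool.Agent.PWE.St

/-!
# Campaign PWE, module Dch: a letter lies in a subgroup which does not contain the whole list with probability at most 3/4
-/

set_option autoImplicit false

open scoped BigOperators

namespace Pool.Agent.PWE

open Pool.Agent.PW Pool.Agent.PWM Pool.Agent.PWB Pool.Agent.PWX Pool.Agent.PWF Pool.Agent.PWL
  Pool.Agent.PWY
open scoped Classical

/-- The first `j` letters are in `A`. -/
private def dchQ {G : Type} [Group G] [Fintype G] (A : Subgroup G) (j : ℕ) (L : List (G × G)) : Prop :=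
  ∀ i < j, lt i L ∈ A

/-- The indicator. -/
private noncomputable def dchI (p : Prop) : ℝ := if p then 1 else 0

private theorem dch_lt_take {G : Type} [Group G] [Fintype G] (L : List (G × G)) (j i : ℕ) (h : i < j) :
    lt i (L.take j) = lt i L := by
  unfold lt
  rw [List.getElem?_take, if_pos h]

private theorem dch_lt_drop {G : Type} [Group G] [Fintype G] (L : List (G × G)) (j i : ℕ) :
    lt i (L.drop j) = lt (j + i) L := by
  unfold lt
  rw [List.getElem?_drop]

private theorem dch_three (p q r : Prop) (h1 : p → r → q) (h2 : q → r → p) :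
    dchI p + dchI q + dchI r ≤ 1 + 2 * dchI (p ∧ q) := by
  unfold dchI
  by_cases hp : p
  · by_cases hq : q
    · rw [if_pos hp, if_pos hq, if_pos (And.intro hp hq)]
      split_ifs <;> norm_num
    · rw [if_pos hp, if_neg hq, if_neg (fun h => hq (h1 hp h)), if_neg (fun h => hq h.2)]
      norm_num
  · rw [if_neg hp, if_neg (fun h : p ∧ q => hp h.1)]
    by_cases hq : q
    · rw [if_pos hq, if_neg (fun h => hp (h2 hq h))]
      norm_num
    · rw [if_neg hq]
      split_ifs <;> norm_num

private theorem dch_and (p q : Prop) : dchI (p ∧ q) = dchI p * dchI q := by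
  unfold dchI
  by_cases hp : p
  · by_cases hq : q
    · rw [if_pos hp, if_pos hq, if_pos (And.intro hp hq), one_mul]
    · rw [if_pos hp, if_neg hq, if_neg (fun h => hq h.2), mul_zero]
  · rw [if_neg hp, if_neg (fun h : p ∧ q => hp h.1), zero_mul]

private theorem dch_two {G : Type} [Group G] [Fintype G] (A : Subgroup G) (U0 : List (G × G))
    (h : 2 ≤ U0.length) :
    0 ≤ ∑ U ∈ cls U0, (1 + 2 * dchI (lt 0 U ∈ A ∧ lt 1 U ∈ A) - 3 * dchI (hd2 U ∈ A)) := by
  have h1 := (eLet eFrt U0 (fun g => dchI (g ∈ A)) 1).1 (by omega)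
  have h2 := (eLet eFrt U0 (fun g => dchI (g ∈ A)) 0).2 (by omega)
  have key : ∀ U ∈ cls U0, dchI (hd2 U ∈ A) + dchI (lt 1 U ∈ A) + dchI (lt (0 + 1) U * hd2 U ∈ A) ≤
      1 + 2 * dchI (lt 0 U ∈ A ∧ lt 1 U ∈ A) := by
    intro U _
    rw [Nat.zero_add, hd2_eq]
    apply dch_three
    · intro hx hyx
      have := A.mul_mem hyx (A.inv_mem hx)
      rwa [mul_inv_cancel_right] at this
    · intro hy hyx
      have := A.mul_mem (A.inv_mem hy) hyx
      rwa [inv_mul_cancel_left] at this
  have h3 := Finset.sum_le_sum key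
  rw [Finset.sum_add_distrib, Finset.sum_add_distrib] at h3
  rw [Finset.sum_sub_distrib, ← Finset.mul_sum]
  linarith

private theorem dch_card {G : Type} [Group G] [Fintype G] (S : Finset (List (G × G)))
    (p : List (G × G) → Prop) : ∑ L ∈ S, dchI (p L) = ((S.filter p).card : ℝ) := by
  unfold dchI
  rw [Finset.sum_boole]

private theorem dch_a {G : Type} [Group G] [Fintype G] (N : List (G × G)) (A : Subgroup G) (j : ℕ)
    (hj : j + 2 ≤ N.length) :
    3 * (((cls N).filter (dchQ A (j + 1))).card : ℝ) ≤
      ((cls N).filter (dchQ A j)).card + 2 * ((cls N).filter (dchQ A (j + 2))).card := by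
  have hD := eDis N j (N.length - j) (fun P U _ => dchI (dchQ A j P) *
    (1 + 2 * dchI (lt 0 U ∈ A ∧ lt 1 U ∈ A) - 3 * dchI (hd2 U ∈ A)))
  have hR : 0 ≤ ∑ L ∈ cls N, (∑ U ∈ cls ((L.drop j).take (N.length - j)), dchI (dchQ A j (L.take j)) *
      (1 + 2 * dchI (lt 0 U ∈ A ∧ lt 1 U ∈ A) - 3 * dchI (hd2 U ∈ A))) /
        ((cls ((L.drop j).take (N.length - j))).card : ℝ) := by
    refine Finset.sum_nonneg fun L hL => ?_
    rw [← Finset.mul_sum]
    have h1 : 0 ≤ dchI (dchQ A j (L.take j)) := by
      unfold dchI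
      split_ifs <;> norm_num
    have h2 : 2 ≤ ((L.drop j).take (N.length - j)).length := by
      rw [List.length_take, List.length_drop, len_cls hL]
      omega
    exact div_nonneg (mul_nonneg h1 (dch_two A _ h2)) (Nat.cast_nonneg _)
  have hL : ∑ L ∈ cls N, dchI (dchQ A j (L.take j)) *
      (1 + 2 * dchI (lt 0 ((L.drop j).take (N.length - j)) ∈ A ∧ lt 1 ((L.drop j).take (N.length - j)) ∈ A) -
        3 * dchI (hd2 ((L.drop j).take (N.length - j)) ∈ A)) =
      ∑ L ∈ cls N, (dchI (dchQ A j L) + 2 * dchI (dchQ A (j + 2) L) - 3 * dchI (dchQ A (j + 1) L)) := by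
    refine Finset.sum_congr rfl fun L _ => ?_
    rw [hd2_eq, dch_lt_take _ _ _ (by omega), dch_lt_take _ _ _ (by omega), dch_lt_drop, dch_lt_drop,
      Nat.add_zero]
    have e0 : dchQ A j (L.take j) ↔ dchQ A j L := by
      unfold dchQ
      refine forall_congr' fun i => ?_
      constructor
      · intro h hi
        have := h hi
        rwa [dch_lt_take L j i hi] at this
      · intro h hi
        rw [dch_lt_take L j i hi]
        exact h hi
    have e1 : dchQ A (j + 1) L ↔ dchQ A j L ∧ lt j L ∈ A := by
      unfold dchQ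
      constructor
      · intro h
        exact ⟨fun i hi => h i (by omega), h j (by omega)⟩
      · rintro ⟨h1, h2⟩ i hi
        rcases Nat.lt_succ_iff_lt_or_eq.1 hi with h | h
        · exact h1 i h
        · rw [h]
          exact h2
    have e2 : dchQ A (j + 2) L ↔ dchQ A j L ∧ lt j L ∈ A ∧ lt (j + 1) L ∈ A := by
      unfold dchQ
      constructor
      · intro h
        exact ⟨fun i hi => h i (by omega), h j (by omega), h (j + 1) (by omega)⟩
      · rintro ⟨h1, h2, h3⟩ i hi
        rcases Nat.lt_succ_iff_lt_or_eq.1 hi with h | h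
        · rcases Nat.lt_succ_iff_lt_or_eq.1 h with h' | h'
          · exact h1 i h'
          · rw [h']
            exact h2
        · rw [h]
          exact h3
    rw [propext e0, propext e1, propext e2, dch_and, dch_and, dch_and, dch_and]
    ring
  have hD' : ∑ L ∈ cls N, dchI (dchQ A j (L.take j)) *
      (1 + 2 * dchI (lt 0 ((L.drop j).take (N.length - j)) ∈ A ∧ lt 1 ((L.drop j).take (N.length - j)) ∈ A) -
        3 * dchI (hd2 ((L.drop j).take (N.length - j)) ∈ A)) = _ := hD
  rw [hL] at hD'
  rw [← hD', Finset.sum_sub_distrib, Finset.sum_add_distrib, ← Finset.mul_sum, ← Finset.mul_sum, dch_card,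
    dch_card, dch_card] at hR
  linarith

private theorem dch_b {G : Type} [Group G] [Fintype G] (N : List (G × G)) (A : Subgroup G) (j : ℕ)
    (hj : j + 1 ≤ N.length) :
    (((cls N).filter (dchQ A 1)).card : ℝ) - ((cls N).filter (dchQ A (j + 1))).card +
      (((cls N).filter (dchQ A j)).card - ((cls N).filter (dchQ A (j + 1))).card) ≤
      ((cls N).filter (dchQ A 0)).card - ((cls N).filter (dchQ A 1)).card := by
  induction j with
  | zero => linarith
  | succ j ih =>
    have h1 := ih (by omega)
    have h2 := dch_a N A j (by omega)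
    linarith

private theorem dch_rt {G : Type} [Group G] (L : List (G × G)) : LG L (L.map rt) := by
  induction L with
  | nil => exact PWH.bBas.1 _
  | cons p L ih =>
    have h1 := PWH.bBas.2.2.2.1 [] [p] [rt p] L (PWH.bBas.2.2.2.2.2.1 p)
    have h2 := PWH.bBas.2.2.2.1 [rt p] L (L.map rt) [] ih
    rw [List.append_nil, List.append_nil] at h2
    exact PWH.bBas.2.1 _ _ _ h1 h2

private theorem dch_rt_inj {G : Type} [Group G] : Function.Injective (rt : G × G → G × G) := by
  rintro ⟨a, b⟩ ⟨a', b'⟩ h
  unfold rt at h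
  have h1 : b⁻¹ = b'⁻¹ := congrArg Prod.fst h
  have h2 : b * a * b⁻¹ = b' * a' * b'⁻¹ := congrArg Prod.snd h
  have hb : b = b' := inv_injective h1
  subst hb
  have ha : a = a' := mul_left_cancel (mul_right_cancel h2)
  rw [ha]

private theorem dch_c {G : Type} [Group G] [Fintype G] (N : List (G × G)) (P : List (G × G) → Prop) :
    ((cls N).filter P).card ≤ ((cls N).filter fun L => P (L.map rt)).card := by
  have hinj : Function.Injective (List.map (rt : G × G → G × G)) := List.map_injective_iff.2 dch_rt_inj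
  have himg : (cls N).image (List.map rt) = cls N := by
    apply Finset.eq_of_subset_of_card_le
    · intro L hL
      obtain ⟨L', hL', rfl⟩ := Finset.mem_image.1 hL
      exact mem_cls.2 (lg_trans (mem_cls.1 hL') (dch_rt L'))
    · rw [Finset.card_image_of_injective _ hinj]
  calc ((cls N).filter P).card = (((cls N).image (List.map rt)).filter P).card := by rw [himg]
    _ = (((cls N).filter fun L => P (L.map rt)).image (List.map rt)).card := by
        rw [Finset.filter_image]
    _ ≤ _ := Finset.card_image_le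

/-- A letter lies in a subgroup which does not contain the whole list with probability at most 3/4. -/
theorem thm_Dch : St_Dch := by
  intro hGnv G _ _ N A hN
  by_contra hcon
  push Not at hcon
  have hlen : 1 ≤ N.length := by
    rcases N with _ | ⟨p, N⟩
    · exfalso
      apply hN
      unfold Gn
      rw [Subgroup.closure_le]
      rintro x ⟨p, hp, _⟩
      simp at hp
    · simp
  obtain ⟨m, hm⟩ : ∃ m, N.length = m + 1 := ⟨N.length - 1, by omega⟩
  have h0 : (cls N).filter (dchQ A 0) = cls N := by
    apply Finset.filter_true_of_mem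
    intro L _ i hi
    omega
  have h1 : (cls N).filter (dchQ A 1) = (cls N).filter fun L => hd2 L ∈ A := by
    apply Finset.filter_congr
    intro L _
    unfold dchQ
    rw [hd2_eq]
    constructor
    · intro h
      exact h 0 (by omega)
    · intro h i hi
      have : i = 0 := by omega
      rw [this]
      exact h
  have h2 := dch_b N A m (by omega)
  have h3 : ((cls N).filter (dchQ A (m + 1))).card ≤ ((cls N).filter (dchQ A m)).card := by
    apply Finset.card_le_card
    intro L hL
    obtain ⟨h4, h5⟩ := Finset.mem_filter.1 hL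
    exact Finset.mem_filter.2 ⟨h4, fun i hi => h5 i (by omega)⟩
  have h3' : (((cls N).filter (dchQ A (m + 1))).card : ℝ) ≤ ((cls N).filter (dchQ A m)).card := by
    exact_mod_cast h3
  rw [h0, h1] at h2
  have hcon' : (3 : ℝ) * (cls N).card < 4 * ((cls N).filter fun L => hd2 L ∈ A).card := by
    exact_mod_cast hcon
  have hv : ((cls N).card : ℝ) < 2 * ((cls N).filter (dchQ A (m + 1))).card := by linarith
  have hv' : (cls N).card < 2 * ((cls N).filter (dchQ A (m + 1))).card := by exact_mod_cast hv
  have hw := dch_c N (dchQ A (m + 1))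
  obtain ⟨L, hL, hL1, hL2⟩ : ∃ L ∈ cls N, dchQ A (m + 1) L ∧ dchQ A (m + 1) (L.map rt) := by
    by_contra hno
    push Not at hno
    have hd : Disjoint ((cls N).filter (dchQ A (m + 1)))
        ((cls N).filter fun L => dchQ A (m + 1) (L.map rt)) := by
      rw [Finset.disjoint_left]
      intro L hL hL'
      obtain ⟨h4, h5⟩ := Finset.mem_filter.1 hL
      exact hno L h4 h5 (Finset.mem_filter.1 hL').2
    have h4 : ((cls N).filter (dchQ A (m + 1))) ∪ ((cls N).filter fun L => dchQ A (m + 1) (L.map rt)) ⊆ cls N :=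
      Finset.union_subset (Finset.filter_subset _ _) (Finset.filter_subset _ _)
    have h5 := Finset.card_le_card h4
    rw [Finset.card_union_of_disjoint hd] at h5
    omega
  apply hN
  rw [← hGnv N L (mem_cls.1 hL)]
  unfold Gn
  rw [Subgroup.closure_le]
  have hb : ∀ p ∈ L, p.2 ∈ A ∧ p.1 ∈ A := by
    intro p hp
    obtain ⟨i, hi, rfl⟩ := List.mem_iff_getElem.1 hp
    have hi' : i < m + 1 := by
      rw [len_cls hL, hm] at hi
      exact hi
    have h6 := hL1 i hi'
    have h7 := hL2 i hi'
    unfold lt at h6 h7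
    rw [List.getElem?_eq_getElem hi] at h6
    rw [List.getElem?_map, List.getElem?_eq_getElem hi] at h7
    have h6' : (L[i]).2 ∈ A := h6
    have h7' : (L[i]).2 * (L[i]).1 * (L[i]).2⁻¹ ∈ A := h7
    refine ⟨h6', ?_⟩
    have h8 := A.mul_mem (A.mul_mem (A.inv_mem h6') h7') h6'
    have h9 : (L[i]).2⁻¹ * ((L[i]).2 * (L[i]).1 * (L[i]).2⁻¹) * (L[i]).2 = (L[i]).1 := by group
    rwa [h9] at h8
  rintro x ⟨p, hp, hx | hx⟩
  · rw [hx]
    exact (hb p hp).2
  · rw [hx]
    exact (hb p hp).1

end Pool.Agent.PWE
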