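import Pool.Agent.PWE.St

set_option autoImplicit false

namespace Pool.Agent.PWE

open Finset

private theorem dec_sum (N : ℕ) (e δ : ℕ → ℝ) (h : ∀ i, i + 1 ≤ N → e (i + 1) = e i - δ i / 4) (k : ℕ) :
    ∀ n, k + n ≤ N → e (k + n) = e k - (∑ j ∈ range n, δ (k + j)) / 4 := by
  intro n
  induction n with
  | zero => intro _; simp
  | succ n ih =>
    intro hn
    rw [← add_assoc, h (k + n) (by omega), ih (by omega), sum_range_succ]
    ring

theorem thm_Dec : St_Dec := by
  intro N e δ h0 h1 h2 r
  induction r with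
  | zero =>
    intro i _
    exact ⟨i, le_refl _, by omega, by simp⟩
  | succ r ih =>
    intro i hi
    obtain ⟨k, hk1, hk2, hk3⟩ := ih i (by omega)
    have e1 := dec_sum N e δ h1 k 16 (by omega)
    have e2 := h2 k 16 (by omega)
    have e3 : ∑ j ∈ range 16, δ (k + j) ≤ 4 * δ k := by linarith
    obtain ⟨j, hj, hj2⟩ : ∃ j ∈ range 16, δ (k + j) ≤ δ k / 4 := by
      by_contra hcon
      push Not at hcon
      have e4 : ∑ _j ∈ range 16, δ k / 4 < ∑ j ∈ range 16, δ (k + j) :=
        sum_lt_sum_of_nonempty ⟨0, by simp⟩ hcon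
      rw [sum_const, card_range, nsmul_eq_mul] at e4
      push_cast at e4
      linarith
    refine ⟨k + j, by omega, ?_, ?_⟩
    · have := mem_range.1 hj
      omega
    · rw [pow_succ, ← div_div]
      have : δ k / 4 ≤ δ i / 4 ^ r / 4 := by linarith
      linarith

end Pool.Agent.PWE

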