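import Pool.Agent.PWE.StB

/-!
# Campaign PWE, part Deg: a subgroup of index `d`, `g ≥ 340 (log₂ d + 1)`, is generated by simple
closed curves
-/

set_option autoImplicit false

open scoped BigOperators

namespace Pool.Agent.PWE

open Pool.Agent.PW Pool.Agent.PWM Pool.Agent.PWB Pool.Agent.PWX Pool.Agent.PWF Pool.Agent.PWL
  Pool.Agent.PWY
open scoped Classical

private theorem deg_num (l : ℕ) (hl : 1 ≤ l) (g : ℕ) (hg : 340 * l ≤ g) (d : ℕ) (hd : d < 2 ^ l) :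
    (7 / 8 : ℝ) ^ (g - 1) * (d : ℝ) < 1 := by
  have h1 : (7 / 8 : ℝ) ^ (g - 1) ≤ (7 / 8 : ℝ) ^ (6 * l) := by
    apply pow_le_pow_of_le_one (by norm_num) (by norm_num)
    omega
  have h2 : (7 / 8 : ℝ) ^ (6 * l) ≤ (1 / 2) ^ l := by
    rw [pow_mul]
    apply pow_le_pow_left₀ (by norm_num)
    norm_num
  have h3 : (d : ℝ) < 2 ^ l := by exact_mod_cast hd
  have h4 : (0 : ℝ) < (1 / 2) ^ l := by positivity
  calc (7 / 8 : ℝ) ^ (g - 1) * (d : ℝ) ≤ (1 / 2) ^ l * (d : ℝ) :=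
        mul_le_mul_of_nonneg_right (h1.trans h2) (Nat.cast_nonneg _)
    _ < (1 / 2) ^ l * 2 ^ l := mul_lt_mul_of_pos_left h3 h4
    _ = 1 := by
        rw [← mul_pow]
        norm_num

private theorem deg_len {g n : ℕ} {Q : Type} [Group Q] (ρ : F g n →* Q) (m k : ℕ) :
    (lst ρ m k).length = k := by
  unfold lst
  rw [List.length_map, List.length_range]

/-- (Deg) from the other parts. -/
theorem thm_Deg (hGnv : St_Gnv) (hDch : St_Dch) (hMrg : St_Mrg) (hOrb : St_Orb) (hShf : St_Shf)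
    (hTrb : St_Trb) (hPrl : St_Prl) (hNtw : St_Ntw) (hDec : St_Dec) (hGpl : St_Gpl)
    (hLta : St_Lta) (hLwr : St_Lwr) (hCtr : St_Ctr) (hNum : St_Num) (hPos : St_Pos)
    (hSec : St_Sec) (hDsp : St_Dsp) (hSm0 : St_Sm0) (hSmx : St_Smx) (hClo : St_Clo)
    (hGen : St_Gen) (hRed : St_Red) : St_Deg := by
  intro g n K hK hg
  have hfin : K.FiniteIndex := ⟨hK⟩
  have hfinQ : Finite (F g n ⧸ K) := Subgroup.finite_quotient_of_finiteIndex
  have hft : Fintype (F g n ⧸ K) := Fintype.ofFinite _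
  set l := Nat.log 2 K.index + 1 with hl
  have hl1 : 1 ≤ l := by omega
  have hcard : Fintype.card (F g n ⧸ K) = K.index := by
    rw [← Nat.card_eq_fintype_card]
    rfl
  have hdl : Fintype.card (F g n ⧸ K) < 2 ^ l := by
    rw [hcard]
    exact Nat.lt_pow_succ_log_self (by norm_num) _
  have hftG : Fintype (Equiv.Perm (F g n ⧸ K)) := Fintype.ofFinite _
  have htr : ∀ w w' : F g n ⧸ K, ∃ x, (pK K) x • w = w' := by
    intro w w'
    obtain ⟨x, hx⟩ := MulAction.exists_smul_eq (F g n) w w'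
    exact ⟨x, hx⟩
  obtain ⟨φ, hφ, hφT⟩ := hRed hGnv hDch hMrg hOrb hShf (pK K) htr (by omega)
    (deg_num l hl1 g hg _ hdl)
  obtain ⟨L, hL, hJ⟩ := hPos hGnv hDch hMrg hOrb hShf hTrb hPrl hNtw hDec hGpl hLta hLwr hCtr hNum
    (lst ((pK K).comp (MulEquiv.toMonoidHom φ)) 0 g) l hl1 hdl (by rw [deg_len]; exact hg) hφT
  obtain ⟨ψ, hψ, hψL, -⟩ := Pool.Agent.PWH.bRea ((pK K).comp (MulEquiv.toMonoidHom φ)) L
    (by omega) hL
  refine hGen hSec hDsp hSm0 hSmx hClo (k := 64 * l) K (φ * ψ) ((MCG g n).mul_mem hφ hψ)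
    (by omega) ?_
  intro t ht
  have h1 : (pK K).comp (MulEquiv.toMonoidHom (φ * ψ)) =
      ((pK K).comp (MulEquiv.toMonoidHom φ)).comp (MulEquiv.toMonoidHom ψ) := rfl
  rw [h1, hψL]
  exact hJ t ht

end Pool.Agent.PWE
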