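import Pool.Agent.PWE.StB

/-!
# Campaign PWE: the sets of products
-/

set_option autoImplicit false

open scoped BigOperators

namespace Pool.Agent.PWE

open Pool.Agent.PW Pool.Agent.PWM Pool.Agent.PWB Pool.Agent.PWX Pool.Agent.PWF Pool.Agent.PWL
  Pool.Agent.PWY
open scoped Classical

private theorem Dsp_cons {H : Type} [Group H] (x : H) (l : List H) (d : H) :
    d ∈ Ds ⊤ (x :: l) ↔ d ∈ Ds ⊤ l ∨ ∃ e ∈ Ds ⊤ l, e * x = d := by
  rw [Ds, if_pos (Subgroup.mem_top x), Finset.mem_union, Finset.mem_image]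

private theorem Dsp_nil {H : Type} [Group H] (d : H) : d ∈ Ds ⊤ ([] : List H) ↔ d = 1 := by
  rw [Ds, Finset.mem_singleton]

private theorem Dsp_append {H : Type} [Group H] (l l' : List H) : ∀ d d' : H, d ∈ Ds ⊤ l →
    d' ∈ Ds ⊤ l' → d' * d ∈ Ds ⊤ (l ++ l') := by
  induction l with
  | nil =>
    intro d d' hd hd'
    rw [Dsp_nil] at hd
    rw [hd, mul_one]
    exact hd'
  | cons x l ih =>
    intro d d' hd hd'
    rw [Dsp_cons] at hd
    rw [List.cons_append, Dsp_cons]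
    rcases hd with hd | ⟨e, he, rfl⟩
    · exact Or.inl (ih d d' hd hd')
    · exact Or.inr ⟨d' * e, ih e d' he hd', mul_assoc _ _ _⟩

private theorem Dsp_sub {H : Type} [Group H] {l l' : List H} (h : List.Sublist l' l) :
    Ds ⊤ l' ⊆ Ds ⊤ l := by
  induction h with
  | slnil => exact Finset.Subset.refl _
  | cons a _ ih =>
    intro d hd
    rw [Dsp_cons]
    exact Or.inl (ih hd)
  | cons_cons a _ ih =>
    intro d hd
    rw [Dsp_cons] at hd ⊢
    rcases hd with hd | ⟨e, he, rfl⟩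
    · exact Or.inl (ih hd)
    · exact Or.inr ⟨e, ih he, rfl⟩

private theorem Dsp_map {H H' : Type} [Group H] [Group H'] (f : H →* H') (l : List H) :
    ∀ d : H', d ∈ Ds ⊤ (l.map f) ↔ ∃ x ∈ Ds ⊤ l, f x = d := by
  induction l with
  | nil =>
    intro d
    rw [List.map_nil, Dsp_nil]
    constructor
    · rintro rfl
      exact ⟨1, (Dsp_nil _).mpr rfl, map_one f⟩
    · rintro ⟨x, hx, rfl⟩
      rw [Dsp_nil] at hx
      rw [hx, map_one]
  | cons a l ih =>
    intro d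
    rw [List.map_cons, Dsp_cons]
    constructor
    · rintro (h | ⟨e, he, rfl⟩)
      · obtain ⟨x, hx, rfl⟩ := (ih d).mp h
        exact ⟨x, (Dsp_cons _ _ _).mpr (Or.inl hx), rfl⟩
      · obtain ⟨x, hx, rfl⟩ := (ih e).mp he
        exact ⟨x * a, (Dsp_cons _ _ _).mpr (Or.inr ⟨x, hx, rfl⟩), map_mul f x a⟩
    · rintro ⟨x, hx, rfl⟩
      rw [Dsp_cons] at hx
      rcases hx with hx | ⟨e, he, rfl⟩
      · exact Or.inl ((ih _).mpr ⟨x, hx, rfl⟩)
      · exact Or.inr ⟨f e, (ih _).mpr ⟨e, he, rfl⟩, (map_mul f e a).symm⟩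

theorem thm_Dsp : St_Dsp := by
  intro H _
  exact ⟨fun l l' d d' hd hd' => Dsp_append l l' d d' hd hd', fun l l' h => Dsp_sub h,
    fun f l d => Dsp_map f l d⟩

end Pool.Agent.PWE
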