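import Pool.Agent.PWE.StB

/-!
# Campaign PWE: three consecutive joining blocks and simple closed curves
-/

set_option autoImplicit false

open scoped BigOperators

namespace Pool.Agent.PWE

open Pool.Agent.PW Pool.Agent.PWM Pool.Agent.PWB Pool.Agent.PWX Pool.Agent.PWF Pool.Agent.PWL
  Pool.Agent.PWY
open scoped Classical

private theorem Gen_len (g n : ℕ) : (gbl g n).length = g := by
  simp [gbl]

private theorem Gen_lst {Q : Type} [Group Q] {g n : ℕ} (ρ : F g n →* Q) :
    (lst ρ 0 g).map Prod.snd = (gbl g n).map ρ := by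
  apply List.ext_getElem
  · simp [lst, gbl]
  · intro i h1 h2
    have hi : i < g := by
      simpa [lst] using h1
    simp [lst, gbl, vls, hi]

private theorem Gen_block {Q : Type} [Group Q] {g n : ℕ} (ρ : F g n →* Q) (a k : ℕ) :
    (((lst ρ 0 g).drop a).take k).map Prod.snd = (((gbl g n).drop a).take k).map ρ := by
  rw [List.map_take, List.map_drop, Gen_lst, List.map_take, List.map_drop]

/-- Two blocks one after the other. -/
private theorem Gen_sub2 {α : Type} (l : List α) (a b k : ℕ) (h : a + k ≤ b) :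
    List.Sublist ((l.drop a).take k ++ (l.drop b).take k) (l.drop a) := by
  have h1 : l.drop b = ((l.drop a).drop k).drop (b - a - k) := by
    rw [List.drop_drop, List.drop_drop]
    congr 1
    omega
  conv_rhs => rw [← List.take_append_drop k (l.drop a)]
  refine List.Sublist.append (List.Sublist.refl _) ?_
  refine (List.take_sublist _ _).trans ?_
  rw [h1]
  exact List.drop_sublist _ _

private theorem Gen_sub3 {α : Type} (l : List α) (a b c k : ℕ) (h : a + k ≤ b) (h' : b + k ≤ c) :
    List.Sublist (((l.drop a).take k ++ (l.drop b).take k) ++ (l.drop c).take k) (l.drop a) := by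
  have h1 : l.drop b = ((l.drop a).drop k).drop (b - a - k) := by
    rw [List.drop_drop, List.drop_drop]
    congr 1
    omega
  rw [List.append_assoc]
  conv_rhs => rw [← List.take_append_drop k (l.drop a)]
  refine List.Sublist.append (List.Sublist.refl _) ?_
  refine (Gen_sub2 l b c k h').trans ?_
  rw [h1]
  exact List.drop_sublist _ _

theorem thm_Gen : St_Gen := by
  intro hSec hDsp hSm0 hSmx hClo g n k K φ hφ hg hJ
  obtain ⟨hD1, hD2, hD3⟩ := hDsp (H := F g n)
  obtain ⟨hS1, hS2, hS3⟩ := hSmx hDsp hSm0 (g := g) (n := n)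
  have hKs : Ks K ≤ K := by
    unfold Ks
    rw [Subgroup.closure_le]
    intro x hx
    exact hx.1
  -- the sets
  obtain ⟨B, hB⟩ : ∃ B : ℕ → List (F g n), B = fun t => ((gbl g n).drop (1 + t * k)).take k := ⟨_, rfl⟩
  obtain ⟨S, hS⟩ : ∃ S : Set (F g n), S = {x | x = 1 ∨ Sm x} := ⟨_, rfl⟩
  obtain ⟨X, hX⟩ : ∃ X : ℕ → Set (F g n), X = fun t => {y | ∃ x ∈ Ds ⊤ (B t), y = φ x} := ⟨_, rfl⟩
  obtain ⟨Y0, hY0⟩ : ∃ Y0 : Set (F g n), Y0 = {y : F g n | ∃ (i : Fin g) (θ : MulAut (F g n)),
    θ ∈ MCG g n ∧ (∀ j, j ≠ i → θ (gb j) = gb j) ∧ y = θ (gb i)} := ⟨_, rfl⟩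
  have hSφ : ∀ x : F g n, (x = 1 ∨ Sm x) → φ x ∈ S := by
    intro x hx
    rw [hS]
    rcases hx with hx | hx
    · left
      rw [hx, map_one]
    · right
      exact hS1 x hx φ hφ
  have hDS : ∀ x : F g n, x ∈ Ds ⊤ (gbl g n) → φ x ∈ S := fun x hx => hSφ x (hSm0 x hx)
  have hinj : Function.Injective (Subgroup.quotientMapOfLE hKs) := by
    refine hSec (H := F g n) (Ω := F g n ⧸ K) (Ω' := F g n ⧸ Ks K)
      (Subgroup.quotientMapOfLE hKs) S X (φ '' Y0) ?_ ?_ ?_ ?_ ?_ ?_ ?_ ?_
    · intro x p
      induction p using QuotientGroup.induction_on with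
      | H y => rfl
    · intro x hx p
      induction p using QuotientGroup.induction_on with
      | H y =>
        intro hxp
        rw [hS] at hx
        rcases hx with hx | hx
        · rw [hx, one_smul]
        · have h1 : ((x * y : F g n) : F g n ⧸ K) = (y : F g n ⧸ K) := hxp
          rw [QuotientGroup.eq] at h1
          have h2 : y⁻¹ * x * (y⁻¹)⁻¹ ∈ Ks K := by
            refine Subgroup.subset_closure ⟨?_, hS2 x y⁻¹ hx⟩
            have h3 := K.inv_mem h1
            have h4 : ((x * y)⁻¹ * y)⁻¹ = y⁻¹ * x * (y⁻¹)⁻¹ := by group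
            rwa [h4] at h3
          have h5 : ((x * y : F g n) : F g n ⧸ Ks K) = (y : F g n ⧸ Ks K) := by
            rw [QuotientGroup.eq]
            have h6 := (Ks K).inv_mem h2
            have h7 : (y⁻¹ * x * (y⁻¹)⁻¹)⁻¹ = (x * y)⁻¹ * y := by group
            rwa [h7] at h6
          exact h5
    · intro i j hij hj3 x hx a ha
      rw [hX] at hx ha
      obtain ⟨x', hx', rfl⟩ := hx
      obtain ⟨a', ha', rfl⟩ := ha
      rw [← map_mul]
      apply hDS
      have h1 := hD1 _ _ _ _ hx' ha'
      refine hD2 _ _ ?_ h1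
      rw [hB]
      refine (Gen_sub2 (gbl g n) (1 + i * k) (1 + j * k) k ?_).trans (List.drop_sublist _ _)
      have h2 : (i + 1) * k ≤ j * k := Nat.mul_le_mul_right k hij
      nlinarith
    · intro x hx a ha z hz
      rw [hX] at hx ha hz
      obtain ⟨x', hx', rfl⟩ := hx
      obtain ⟨a', ha', rfl⟩ := ha
      obtain ⟨z', hz', rfl⟩ := hz
      rw [mul_assoc, ← map_mul, ← map_mul]
      apply hDS
      have h1 := hD1 _ _ _ _ (hD1 _ _ _ _ hx' ha') hz'
      refine hD2 _ _ ?_ h1
      rw [hB]
      refine (Gen_sub3 (gbl g n) (1 + 0 * k) (1 + 1 * k) (1 + 2 * k) k ?_ ?_).trans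
        (List.drop_sublist _ _)
      · omega
      · omega
    · intro i hi w w'
      obtain ⟨d, hd, hdw⟩ := hJ i hi w w'
      rw [Gen_block] at hd
      rw [hD3] at hd
      obtain ⟨x, hx, hxd⟩ := hd
      refine ⟨φ x, ?_, ?_⟩
      · rw [hX, hB]
        exact ⟨x, hx, rfl⟩
      · rw [← hdw, ← hxd]
        rfl
    · rintro y ⟨y', hy', rfl⟩
      rw [hY0] at hy'
      obtain ⟨i, θ, hθ, hθj, rfl⟩ := hy'
      obtain ⟨hR, hL⟩ := hS3 i θ hθ hθj
      rcases Nat.lt_or_ge (i : ℕ) (1 + k) with hik | hik
      · refine ⟨1, by norm_num, Or.inl ?_⟩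
        intro a ha
        rw [hX] at ha
        obtain ⟨a', ha', rfl⟩ := ha
        rw [← map_mul]
        apply hSφ
        apply hR
        refine hD2 _ _ ?_ ha'
        rw [hB]
        refine (List.take_sublist _ _).trans ?_
        have h1 : (gbl g n).drop (1 + 1 * k) = ((gbl g n).drop ((i : ℕ) + 1)).drop (k - i) := by
          rw [List.drop_drop]
          congr 1
          omega
        rw [h1]
        exact List.drop_sublist _ _
      · refine ⟨0, by norm_num, Or.inr ?_⟩
        intro a ha
        rw [hX] at ha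
        obtain ⟨a', ha', rfl⟩ := ha
        rw [← map_mul]
        apply hSφ
        apply hL
        refine hD2 _ _ ?_ ha'
        rw [hB]
        have h1 : (((gbl g n).drop (1 + 0 * k)).take k) = ((gbl g n).take (1 + k)).drop 1 := by
          rw [List.drop_take]
          simp
        show List.Sublist (((gbl g n).drop (1 + 0 * k)).take k) ((gbl g n).take i)
        rw [h1]
        refine (List.drop_sublist _ _).trans ?_
        have h2 : (gbl g n).take (1 + k) = ((gbl g n).take (i : ℕ)).take (1 + k) := by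
          rw [List.take_take]
          congr 1
          omega
        rw [h2]
        exact List.take_sublist _ _
    · have h0 : 0 < g := by omega
      have h1 := hClo (g := g) (n := n) ⟨0, h0⟩ rfl
      rw [← hY0] at h1
      have h2 : Subgroup.closure (φ '' Y0) = (Subgroup.closure Y0).map (MulEquiv.toMonoidHom φ) := by
        rw [MonoidHom.map_closure]
        rfl
      rw [h2, h1]
      exact Subgroup.map_top_of_surjective _ (MulEquiv.surjective φ)
    · intro p p'
      exact MulAction.exists_smul_eq (F g n) p p'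
  refine le_antisymm hKs ?_
  intro x hx
  have h1 : Subgroup.quotientMapOfLE hKs ((x : F g n) : F g n ⧸ Ks K) =
      Subgroup.quotientMapOfLE hKs ((1 : F g n) : F g n ⧸ Ks K) := by
    show ((x : F g n) : F g n ⧸ K) = ((1 : F g n) : F g n ⧸ K)
    rw [QuotientGroup.eq]
    simpa using K.inv_mem hx
  have h2 := hinj h1
  rw [QuotientGroup.eq] at h2
  simpa using (Ks K).inv_mem h2

end Pool.Agent.PWE
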