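import Pool.Agent.PWE.St

/-!
# Campaign PWE, module Gpl: a function with sum zero is moved by some entry of a transitive list
-/

set_option autoImplicit false

open scoped BigOperators

namespace Pool.Agent.PWE

open Pool.Agent.PW Pool.Agent.PWM Pool.Agent.PWB Pool.Agent.PWX Pool.Agent.PWF Pool.Agent.PWL
  Pool.Agent.PWY
open scoped Classical

section

variable {G : Type} [Group G] {Ω : Type} [Fintype Ω] [MulAction G Ω]

private theorem gpl_nonneg (g : G) (v : Ω → ℝ) : 0 ≤ dp g v :=
  Finset.sum_nonneg fun _ _ => sq_nonneg _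

private theorem gpl_sum_nonneg (v : Ω → ℝ) (B : List (G × G)) :
    0 ≤ (B.map fun p => dp p.1 v + dp p.2 v).sum := by
  refine List.sum_nonneg ?_
  intro x hx
  obtain ⟨p, -, rfl⟩ := List.mem_map.1 hx
  exact add_nonneg (gpl_nonneg _ _) (gpl_nonneg _ _)

private theorem gpl_mem (v : Ω → ℝ) (B : List (G × G)) (p : G × G) (hp : p ∈ B) :
    dp p.1 v + dp p.2 v ≤ (B.map fun p => dp p.1 v + dp p.2 v).sum := by
  induction B with
  | nil => exact absurd hp (List.not_mem_nil)
  | cons q B ih =>
    rw [List.map_cons, List.sum_cons]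
    rcases List.mem_cons.1 hp with rfl | h
    · have := gpl_sum_nonneg v B
      linarith
    · have h1 := ih h
      have h2 := gpl_nonneg q.1 v
      have h3 := gpl_nonneg q.2 v
      linarith

private theorem gpl_dp (g : G) (v : Ω → ℝ) (w : Ω) : (v w - v (g • w)) ^ 2 ≤ dp g v := by
  have h := Finset.single_le_sum (f := fun w => (act g v w - v w) ^ 2) (fun _ _ => sq_nonneg _)
    (Finset.mem_univ (g • w))
  have h1 : act g v (g • w) = v w := by
    unfold act
    rw [inv_smul_smul]
  have h2 : (act g v (g • w) - v (g • w)) ^ 2 ≤ dp g v := h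
  rwa [h1] at h2

private theorem gpl_diam (B : List (G × G)) (v : Ω → ℝ) (hT : Tr Ω (Gn B)) (δ : ℝ) (hδ : 0 ≤ δ)
    (hstep : ∀ y : G, (∃ p ∈ B, y = p.1 ∨ y = p.2) → ∀ w : Ω, |v w - v (y • w)| ≤ δ) (w₀ : Ω) (k : ℕ) :
    (∀ w, |v w - v w₀| ≤ k * δ) ∨
      k + 1 ≤ (Finset.univ.filter fun w => |v w - v w₀| ≤ k * δ).card := by
  induction k with
  | zero =>
    right
    rw [zero_add]
    refine Finset.card_pos.2 ⟨w₀, ?_⟩
    rw [Finset.mem_filter]
    refine ⟨Finset.mem_univ _, ?_⟩
    rw [sub_self, abs_zero, Nat.cast_zero, zero_mul]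
  | succ k ih =>
    have hkδ : (k : ℝ) * δ ≤ ((k + 1 : ℕ) : ℝ) * δ := by
      push_cast
      nlinarith
    rcases ih with h | h
    · exact Or.inl fun w => (h w).trans hkδ
    · have hsub : (Finset.univ.filter fun w => |v w - v w₀| ≤ k * δ) ⊆
          Finset.univ.filter fun w => |v w - v w₀| ≤ ((k + 1 : ℕ) : ℝ) * δ := by
        intro w hw
        rw [Finset.mem_filter] at hw ⊢
        exact ⟨hw.1, hw.2.trans hkδ⟩
      rcases hsub.eq_or_ssubset with he | hss
      · left
        have hmem : ∀ w, |v w - v w₀| ≤ ((k + 1 : ℕ) : ℝ) * δ → |v w - v w₀| ≤ k * δ := by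
          intro w hw
          have h1 : w ∈ Finset.univ.filter fun w => |v w - v w₀| ≤ ((k + 1 : ℕ) : ℝ) * δ :=
            Finset.mem_filter.2 ⟨Finset.mem_univ _, hw⟩
          rw [← he] at h1
          exact (Finset.mem_filter.1 h1).2
        -- the set is invariant
        have hinv : ∀ g ∈ Gn B, ∀ w, |v w - v w₀| ≤ k * δ ↔ |v (g • w) - v w₀| ≤ k * δ := by
          intro g hg
          refine Subgroup.closure_induction (p := fun g _ => ∀ w, |v w - v w₀| ≤ k * δ ↔
            |v (g • w) - v w₀| ≤ k * δ) ?_ ?_ ?_ ?_ hg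
          · intro y hy w
            have h1 := hstep y hy w
            constructor
            · intro h2
              refine hmem _ ?_
              have h3 : v (y • w) - v w₀ = -(v w - v (y • w)) + (v w - v w₀) := by ring
              rw [h3]
              refine (abs_add_le _ _).trans ?_
              rw [abs_neg]
              push_cast
              linarith
            · intro h2
              refine hmem _ ?_
              have h3 : v w - v w₀ = (v w - v (y • w)) + (v (y • w) - v w₀) := by ring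
              rw [h3]
              refine (abs_add_le _ _).trans ?_
              push_cast
              linarith
          · intro w
            rw [one_smul]
          · intro a b _ _ ha hb w
            rw [mul_smul, ← ha (b • w)]
            exact hb w
          · intro a _ ha w
            have h1 := ha (a⁻¹ • w)
            rw [smul_inv_smul] at h1
            exact h1.symm
        intro w
        obtain ⟨a, ha, rfl⟩ := hT w₀ w
        have h1 := (hinv a ha w₀).1 (by
          rw [sub_self, abs_zero]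
          positivity)
        exact h1.trans hkδ
      · right
        have := Finset.card_lt_card hss
        omega

end

theorem thm_Gpl : St_Gpl := by
  intro G _ Ω _ _ B v hT hs
  have hD0 := gpl_sum_nonneg v B
  obtain ⟨D, hD⟩ : ∃ D : ℝ, D = (B.map fun p => dp p.1 v + dp p.2 v).sum := ⟨_, rfl⟩
  rw [← hD] at hD0 ⊢
  obtain ⟨δ, hδ⟩ : ∃ δ : ℝ, δ = √D := ⟨_, rfl⟩
  have hδ0 : 0 ≤ δ := by
    rw [hδ]
    exact Real.sqrt_nonneg _
  have hδ2 : δ ^ 2 = D := by
    rw [hδ]
    exact Real.sq_sqrt hD0
  have hstep : ∀ y : G, (∃ p ∈ B, y = p.1 ∨ y = p.2) → ∀ w : Ω, |v w - v (y • w)| ≤ δ := by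
    rintro y ⟨p, hp, hy⟩ w
    rw [hδ]
    refine Real.abs_le_sqrt ?_
    have h1 := gpl_mem v B p hp
    rw [← hD] at h1
    have h2 := gpl_dp y v w
    have h3 := gpl_nonneg p.1 v
    have h4 := gpl_nonneg p.2 v
    rcases hy with rfl | rfl
    · linarith
    · linarith
  have hdiam : ∀ w₀ w : Ω, |v w - v w₀| ≤ (Fintype.card Ω : ℝ) * δ := by
    intro w₀ w
    rcases gpl_diam B v hT δ hδ0 hstep w₀ (Fintype.card Ω) with h | h
    · exact h w
    · exfalso
      have h1 := Finset.card_le_univ (Finset.univ.filter fun w : Ω => |v w - v w₀| ≤ (Fintype.card Ω : ℕ) * δ)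
      omega
  have hv : ∀ w : Ω, |v w| ≤ (Fintype.card Ω : ℝ) * δ := by
    intro w
    have hd0 : (0 : ℝ) < Fintype.card Ω := by
      exact_mod_cast Fintype.card_pos_iff.2 ⟨w⟩
    have h1 : (Fintype.card Ω : ℝ) * v w = ∑ w' : Ω, (v w - v w') := by
      rw [Finset.sum_sub_distrib, hs, sub_zero, Finset.sum_const, Finset.card_univ, nsmul_eq_mul]
    have h2 : |(Fintype.card Ω : ℝ) * v w| ≤ (Fintype.card Ω : ℝ) * ((Fintype.card Ω : ℝ) * δ) := by
      rw [h1]
      refine (Finset.abs_sum_le_sum_abs _ _).trans ?_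
      refine (Finset.sum_le_sum fun w' _ => hdiam w' w).trans (le_of_eq ?_)
      rw [Finset.sum_const, Finset.card_univ, nsmul_eq_mul]
    rw [abs_mul, abs_of_pos hd0] at h2
    exact le_of_mul_le_mul_left h2 hd0
  unfold nn
  have h1 : ∀ w ∈ (Finset.univ : Finset Ω), v w ^ 2 ≤ (Fintype.card Ω : ℝ) ^ 2 * D := by
    intro w _
    rw [← hδ2, ← mul_pow, ← sq_abs]
    exact pow_le_pow_left₀ (abs_nonneg _) (hv w) 2
  refine (Finset.sum_le_sum h1).trans (le_of_eq ?_)
  rw [Finset.sum_const, Finset.card_univ, nsmul_eq_mul]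
  ring

end Pool.Agent.PWE
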