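import Pool.Agent.PWE.StB
import Pool.Agent.PW.Orbit
import Pool.Agent.PWM.Swp

/-!
# PWE, Kil: a class with a finite orbit vanishes on the simple closed curves of the subgroup
-/

set_option autoImplicit false

open scoped BigOperators

namespace Pool.Agent.PWE

open Pool.Agent.PW Pool.Agent.PWM Pool.Agent.PWB Pool.Agent.PWX Pool.Agent.PWF Pool.Agent.PWL
  Pool.Agent.PWY
open scoped Classical

private theorem kil_pow {g n : ℕ} {K : Subgroup (F g n)} {f : K → ℚ} (hf : IsClass K f) (x : K)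
    (m : ℕ) : f (x ^ m) = m * f x := by
  have hone : f 1 = 0 := by
    have := hf.add 1 1
    rw [mul_one] at this
    linarith
  induction m with
  | zero => simp [hone]
  | succ m ih =>
    rw [pow_succ, hf.add, ih]
    push_cast
    ring

theorem thm_Kil : St_Kil := by
  intro g n K _ hR f hf hfin x hx hS
  obtain ⟨φ, hφ, i, rfl⟩ := hS
  have hG := good_of_finite hR hf hfin
  have hg : 0 < g := i.pos
  obtain ⟨θ, hθ, w, -, hwb⟩ := st_Move (n := n) (⟨0, hg⟩ : Fin g) i rfl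
  have hφθ : φ * θ ∈ MCG g n := (MCG g n).mul_mem hφ hθ
  obtain ⟨L, hL, hLN⟩ := exists_exp hG.normal hG.fin
  have eb : φ (gb i) = (φ w)⁻¹ * (φ * θ) (gb ⟨0, hg⟩) * (φ w)⁻¹⁻¹ := by
    rw [MulAut.mul_apply, hwb, map_mul, map_mul, map_inv]
    group
  have h1 : ext0 K f (φ (gb i) ^ L) = 0 := by
    rw [eb, conj_pow]
    exact hG.kill_b' rfl hφθ (hLN _) _
  have h2 : φ (gb i) ^ L ∈ K := K.pow_mem hx L
  rw [ext0_mem h2] at h1
  have h4 : (⟨φ (gb i) ^ L, h2⟩ : K) = (⟨φ (gb i), hx⟩ : K) ^ L := rfl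
  rw [h4, kil_pow hf] at h1
  have h5 : (L : ℚ) ≠ 0 := by exact_mod_cast hL.ne'
  rcases mul_eq_zero.mp h1 with h6 | h6
  · exact absurd h6 h5
  · exact h6

end Pool.Agent.PWE
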