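import Pool.Agent.PWE.Defs

/-!
# Campaign PWE: basic facts on functions, means, displacements
-/

set_option autoImplicit false

open scoped BigOperators

namespace Pool.Agent.PWE

open Pool.Agent.PW Pool.Agent.PWM Pool.Agent.PWB Pool.Agent.PWX Pool.Agent.PWF Pool.Agent.PWL
  Pool.Agent.PWY
open scoped Classical

section

variable {G : Type} [Group G] {Ω : Type} [MulAction G Ω]

theorem act_one (v : Ω → ℝ) : act (1 : G) v = v := by
  funext w
  simp [act]

theorem act_mul (g h : G) (v : Ω → ℝ) : act (g * h) v = act g (act h v) := by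
  funext w
  simp [act, mul_smul]

theorem act_add (g : G) (u v : Ω → ℝ) : act g (u + v) = act g u + act g v := rfl

theorem act_smul (g : G) (c : ℝ) (v : Ω → ℝ) : act g (c • v) = c • act g v := rfl

theorem act_const (g : G) (c : ℝ) : act g (fun _ : Ω => c) = fun _ => c := rfl

theorem hf_add (g : G) (u v : Ω → ℝ) : hf g (u + v) = hf g u + hf g v := by
  funext w
  simp only [hf, act_add, Pi.add_apply]
  ring

theorem hf_smul (g : G) (c : ℝ) (v : Ω → ℝ) : hf g (c • v) = c • hf g v := by
  funext w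
  simp only [hf, act_smul, Pi.smul_apply, smul_eq_mul]
  ring

theorem hf_const (g : G) (c : ℝ) : hf g (fun _ : Ω => c) = fun _ => c := by
  funext w
  simp [hf, act]

theorem av_add (L : List (G × G)) : ∀ u v : Ω → ℝ, av L (u + v) = av L u + av L v := by
  induction L with
  | nil => intro u v; rfl
  | cons p L ih =>
    intro u v
    show av L (hf p.2 (u + v)) = av L (hf p.2 u) + av L (hf p.2 v)
    rw [hf_add, ih]

theorem av_smul (L : List (G × G)) (c : ℝ) : ∀ v : Ω → ℝ, av L (c • v) = c • av L v := by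
  induction L with
  | nil => intro v; rfl
  | cons p L ih =>
    intro v
    show av L (hf p.2 (c • v)) = c • av L (hf p.2 v)
    rw [hf_smul, ih]

theorem av_const (L : List (G × G)) (c : ℝ) : av L (fun _ : Ω => c) = fun _ => c := by
  induction L with
  | nil => rfl
  | cons p L ih =>
    show av L (hf p.2 fun _ => c) = fun _ => c
    rw [hf_const, ih]

theorem av_append (L L' : List (G × G)) : ∀ v : Ω → ℝ, av (L ++ L') v = av L' (av L v) := by
  induction L with
  | nil => intro v; rfl
  | cons p L ih =>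
    intro v
    show av (L ++ L') (hf p.2 v) = av L' (av L (hf p.2 v))
    rw [ih]

/-- A value of the mean which is not zero comes from a product of letters. -/
theorem av_supp (L : List (G × G)) : ∀ (v : Ω → ℝ) (w' : Ω), av L v w' ≠ 0 →
    ∃ x ∈ Ds (⊤ : Subgroup G) (L.map Prod.snd), ∃ w, v w ≠ 0 ∧ x • w = w' := by
  induction L with
  | nil =>
    intro v w' h
    refine ⟨1, ?_, w', h, one_smul _ _⟩
    simp [Ds]
  | cons p L ih =>
    intro v w' h
    obtain ⟨x, hx, w, hw, hxw⟩ := ih (hf p.2 v) w' h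
    have h1 : Ds (⊤ : Subgroup G) ((p :: L).map Prod.snd) =
        Ds ⊤ (L.map Prod.snd) ∪ (Ds ⊤ (L.map Prod.snd)).image (fun d => d * p.2) := by
      simp [Ds]
    by_cases h2 : v w = 0
    · have h3 : act p.2 v w ≠ 0 := by
        intro h4
        apply hw
        simp [hf, h2, h4]
      refine ⟨x * p.2, ?_, p.2⁻¹ • w, h3, ?_⟩
      · rw [h1]
        exact Finset.mem_union_right _ (Finset.mem_image_of_mem _ hx)
      · rw [mul_smul, smul_inv_smul, hxw]
    · refine ⟨x, ?_, w, h2, hxw⟩
      rw [h1]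
      exact Finset.mem_union_left _ hx

/-! ### The mean `sa` -/

theorem sa_add (L : List (G × G)) : ∀ φ ψ : G → ℝ,
    sa L (fun x => φ x + ψ x) = sa L φ + sa L ψ := by
  induction L with
  | nil => intro φ ψ; rfl
  | cons p L ih =>
    intro φ ψ
    show (sa L (fun x => φ x + ψ x) + sa L (fun x => φ (x * p.2) + ψ (x * p.2))) / 2 = _
    rw [ih, ih (fun x => φ (x * p.2))]
    show _ = (sa L φ + sa L (fun x => φ (x * p.2))) / 2 + (sa L ψ + sa L (fun x => ψ (x * p.2))) / 2
    ring

theorem sa_mul (L : List (G × G)) (c : ℝ) : ∀ φ : G → ℝ,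
    sa L (fun x => c * φ x) = c * sa L φ := by
  induction L with
  | nil => intro φ; rfl
  | cons p L ih =>
    intro φ
    show (sa L (fun x => c * φ x) + sa L (fun x => c * φ (x * p.2))) / 2 = _
    rw [ih, ih (fun x => φ (x * p.2))]
    show _ = c * ((sa L φ + sa L (fun x => φ (x * p.2))) / 2)
    ring

theorem sa_const (L : List (G × G)) (c : ℝ) : sa L (fun _ => c) = c := by
  induction L with
  | nil => rfl
  | cons p L ih =>
    show (sa L (fun _ => c) + sa L (fun _ => c)) / 2 = c
    rw [ih]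
    ring

theorem sa_mono (L : List (G × G)) : ∀ φ ψ : G → ℝ, (∀ x, φ x ≤ ψ x) → sa L φ ≤ sa L ψ := by
  induction L with
  | nil => intro φ ψ h; exact h 1
  | cons p L ih =>
    intro φ ψ h
    have h1 := ih φ ψ h
    have h2 := ih (fun x => φ (x * p.2)) (fun x => ψ (x * p.2)) fun x => h _
    show (sa L φ + sa L (fun x => φ (x * p.2))) / 2 ≤ (sa L ψ + sa L (fun x => ψ (x * p.2))) / 2
    linarith

end

section

variable {G : Type} [Group G] {Ω : Type} [MulAction G Ω] [Fintype Ω]

theorem sum_act (g : G) (v : Ω → ℝ) : ∑ w, act g v w = ∑ w, v w := by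
  unfold act
  exact Equiv.sum_comp (MulAction.toPerm g⁻¹) v

theorem ip_act (g : G) (u v : Ω → ℝ) : ip (act g u) (act g v) = ip u v := by
  unfold ip act
  exact Equiv.sum_comp (MulAction.toPerm g⁻¹) fun w => u w * v w

theorem nn_act (g : G) (v : Ω → ℝ) : nn (act g v) = nn v := by
  unfold nn act
  exact Equiv.sum_comp (MulAction.toPerm g⁻¹) fun w => v w ^ 2

omit [MulAction G Ω] [Group G] in
theorem nn_nonneg (v : Ω → ℝ) : 0 ≤ nn v := Finset.sum_nonneg fun w _ => sq_nonneg _

theorem dp_nonneg (g : G) (v : Ω → ℝ) : 0 ≤ dp g v := Finset.sum_nonneg fun w _ => sq_nonneg _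

theorem ip_self (v : Ω → ℝ) : ip v v = nn v := by
  unfold ip nn
  exact Finset.sum_congr rfl fun w _ => by ring

theorem ip_comm (u v : Ω → ℝ) : ip u v = ip v u := by
  unfold ip
  exact Finset.sum_congr rfl fun w _ => by ring

theorem dp_one (v : Ω → ℝ) : dp (1 : G) v = 0 := by
  unfold dp
  rw [act_one]
  simp

/-- The displacement and the scalar product. -/
theorem dp_eq (g : G) (v : Ω → ℝ) : dp g v = 2 * nn v - 2 * ip (act g v) v := by
  have h1 : dp g v = nn (act g v) - 2 * ip (act g v) v + nn v := by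
    unfold dp nn ip
    rw [Finset.mul_sum, ← Finset.sum_sub_distrib, ← Finset.sum_add_distrib]
    exact Finset.sum_congr rfl fun w _ => by ring
  rw [h1, nn_act]
  ring

theorem nn_hf (g : G) (v : Ω → ℝ) : nn (hf g v) = nn v - dp g v / 4 := by
  have h1 : nn (hf g v) = (nn v + 2 * ip (act g v) v + nn (act g v)) / 4 := by
    unfold nn ip hf
    rw [Finset.mul_sum, ← Finset.sum_add_distrib, ← Finset.sum_add_distrib, Finset.sum_div]
    exact Finset.sum_congr rfl fun w _ => by ring
  rw [h1, dp_eq, nn_act]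
  ring

theorem dp_inv (g : G) (v : Ω → ℝ) : dp g⁻¹ v = dp g v := by
  rw [dp_eq, dp_eq]
  have h1 : ip (act g⁻¹ v) v = ip (act g v) v := by
    rw [← ip_act g (act g⁻¹ v) v, ← act_mul, mul_inv_cancel, act_one, ip_comm]
  rw [h1]

/-- The displacement by a conjugate. -/
theorem dp_conj (a b : G) (v : Ω → ℝ) : dp a v ≤ 6 * dp b v + 3 * dp (b * a * b⁻¹) v := by
  have h1 : dp a v = ∑ w, (act (b * a * b⁻¹) (act b v) w - act b v w) ^ 2 := by
    have h2 : dp a v = ∑ w, (act b (act a v) w - act b v w) ^ 2 := by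
      unfold dp
      have := Equiv.sum_comp (MulAction.toPerm b⁻¹ : Equiv.Perm Ω)
        fun w => (act a v w - v w) ^ 2
      rw [← this]
      rfl
    rw [h2, ← act_mul b a, ← act_mul (b * a * b⁻¹) b]
    have h3 : b * a * b⁻¹ * b = b * a := by group
    rw [h3]
  have h4 : ∑ w, (act (b * a * b⁻¹) (act b v) w - act (b * a * b⁻¹) v w) ^ 2 = dp b v := by
    have := Equiv.sum_comp (MulAction.toPerm (b * a * b⁻¹)⁻¹ : Equiv.Perm Ω)
      fun w => (act b v w - v w) ^ 2
    unfold dp
    rw [← this]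
    rfl
  have h5 : dp b v = ∑ w, (act b v w - v w) ^ 2 := rfl
  have h6 : dp (b * a * b⁻¹) v = ∑ w, (act (b * a * b⁻¹) v w - v w) ^ 2 := rfl
  have h7 : dp a v ≤ 3 * dp b v + 3 * dp (b * a * b⁻¹) v + 3 * dp b v := by
    rw [h1]
    nth_rewrite 1 [← h4]
    rw [h6, h5, Finset.mul_sum, Finset.mul_sum, Finset.mul_sum, ← Finset.sum_add_distrib,
      ← Finset.sum_add_distrib]
    refine Finset.sum_le_sum fun w _ => ?_
    set X := act (b * a * b⁻¹) (act b v) w
    set Y := act (b * a * b⁻¹) v w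
    set Z := act b v w
    nlinarith [sq_nonneg ((X - Y) - (Y - v w)), sq_nonneg ((X - Y) - (v w - Z)),
      sq_nonneg ((Y - v w) - (v w - Z))]
  linarith

/-- The scalar product with a mean. -/
theorem ip_av (L : List (G × G)) : ∀ v u : Ω → ℝ,
    ip (av L v) u = sa L fun x => ip (act x v) u := by
  induction L with
  | nil =>
    intro v u
    show ip v u = ip (act 1 v) u
    rw [act_one]
  | cons p L ih =>
    intro v u
    show ip (av L (hf p.2 v)) u = (sa L (fun x => ip (act x v) u) +
      sa L fun x => ip (act (x * p.2) v) u) / 2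
    rw [ih]
    have h1 : ∀ x : G, ip (act x (hf p.2 v)) u =
        (1 / 2) * ip (act x v) u + (1 / 2) * ip (act (x * p.2) v) u := by
      intro x
      rw [act_mul]
      unfold ip
      rw [Finset.mul_sum, Finset.mul_sum, ← Finset.sum_add_distrib]
      refine Finset.sum_congr rfl fun w _ => ?_
      show (v (x⁻¹ • w) + act p.2 v (x⁻¹ • w)) / 2 * u w =
        1 / 2 * (v (x⁻¹ • w) * u w) + 1 / 2 * (act p.2 v (x⁻¹ • w) * u w)
      ring
    simp only [h1]
    rw [sa_add, sa_mul, sa_mul]
    ring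

theorem sum_hf (g : G) (v : Ω → ℝ) : ∑ w, hf g v w = ∑ w, v w := by
  unfold hf
  rw [← Finset.sum_div, Finset.sum_add_distrib, sum_act]
  ring

theorem sum_av (L : List (G × G)) : ∀ v : Ω → ℝ, ∑ w, av L v w = ∑ w, v w := by
  induction L with
  | nil => intro v; rfl
  | cons p L ih =>
    intro v
    show ∑ w, av L (hf p.2 v) w = _
    rw [ih, sum_hf]

theorem nn_av_le (L : List (G × G)) : ∀ v : Ω → ℝ, nn (av L v) ≤ nn v := by
  induction L with
  | nil => intro v; exact le_rfl
  | cons p L ih =>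
    intro v
    refine (ih (hf p.2 v)).trans ?_
    rw [nn_hf]
    linarith [dp_nonneg p.2 v]

/-! ### The means along a list -/

theorem vv_zero (s : ℕ) (v : Ω → ℝ) (L : List (G × G)) : vv s v 0 L = v := by
  simp [vv, av]

theorem sum_vv (s : ℕ) (v : Ω → ℝ) (i : ℕ) (L : List (G × G)) : ∑ w, vv s v i L w = ∑ w, v w :=
  sum_av _ _

theorem nn_vv_le (s : ℕ) (v : Ω → ℝ) (i : ℕ) (L : List (G × G)) : nn (vv s v i L) ≤ nn v :=
  nn_av_le _ _

/-- Two steps. -/
theorem vv_add (s : ℕ) (v : Ω → ℝ) (i m : ℕ) (L : List (G × G)) :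
    vv s v (i + m) L = av ((L.drop (s + i)).take m) (vv s v i L) := by
  unfold vv
  rw [← av_append, ← List.drop_drop, List.take_add]

/-- One step. -/
theorem vv_succ (s : ℕ) (v : Ω → ℝ) (i : ℕ) (L : List (G × G)) (h : s + i < L.length) :
    vv s v (i + 1) L = hf (lt (s + i) L) (vv s v i L) := by
  rw [vv_add]
  have h1 : (L.drop (s + i)).take 1 = [L[s + i]] := by
    rw [List.drop_eq_getElem_cons h, List.take_succ_cons, List.take_zero]
  rw [h1]
  have h2 : lt (s + i) L = (L[s + i]).2 := by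
    unfold lt
    rw [List.getElem?_eq_getElem h]
    rfl
  rw [h2]
  rfl

/-- The mean depends only on the first part of the list. -/
theorem vv_take (s : ℕ) (v : Ω → ℝ) (i : ℕ) (L : List (G × G)) :
    vv s v i (L.take (s + i)) = vv s v i L := by
  unfold vv
  rw [List.drop_take, Nat.add_sub_cancel_left, List.take_take, min_self]

theorem vv_congr (s : ℕ) (v : Ω → ℝ) (i : ℕ) {L L' : List (G × G)}
    (h : L.take (s + i) = L'.take (s + i)) : vv s v i L = vv s v i L' := by
  rw [← vv_take, h, vv_take]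

theorem em_nonneg [Fintype G] (M : List (G × G)) (s : ℕ) (v : Ω → ℝ) (i : ℕ) : 0 ≤ em M s v i :=
  Finset.sum_nonneg fun L _ => nn_nonneg _

theorem dl_nonneg [Fintype G] (M : List (G × G)) (s : ℕ) (v : Ω → ℝ) (i : ℕ) : 0 ≤ dl M s v i :=
  Finset.sum_nonneg fun L _ => dp_nonneg _ _

theorem em_zero [Fintype G] (M : List (G × G)) (s : ℕ) (v : Ω → ℝ) :
    em M s v 0 = (cls M).card * nn v := by
  unfold em
  simp only [vv_zero, Finset.sum_const, nsmul_eq_mul]

end

end Pool.Agent.PWE
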