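import Pool.Agent.PWE.St
import Pool.Agent.PWE.Bas

/-!
# Campaign PWE, module Lta: displacements by the letters at the later places
-/

set_option autoImplicit false

open scoped BigOperators

namespace Pool.Agent.PWE

open Pool.Agent.PW Pool.Agent.PWM Pool.Agent.PWB Pool.Agent.PWX Pool.Agent.PWF Pool.Agent.PWL
  Pool.Agent.PWY
open scoped Classical

private theorem lta_blk {G : Type} [Group G] [Fintype G] (M L : List (G × G)) (a : ℕ)
    (hL : L ∈ cls M) : (L.drop a).take (M.length - a) = L.drop a := by
  apply List.take_of_length_le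
  rw [List.length_drop, len_cls hL]

private theorem lta_lt {G : Type} [Group G] [Fintype G] (L : List (G × G)) (a k : ℕ) :
    lt k (L.drop a) = lt (a + k) L := by
  unfold lt
  rw [List.getElem?_drop]

private theorem lta_hd {G : Type} [Group G] [Fintype G] (L : List (G × G)) (a : ℕ) :
    hd2 (L.drop a) = lt a L := by
  rw [hd2_eq]
  unfold lt
  rw [List.getElem?_drop, add_zero]

private theorem lta_one {G : Type} [Group G] [Fintype G] {Ω : Type} [Fintype Ω] [MulAction G Ω]
    (M : List (G × G)) (s : ℕ) (v : Ω → ℝ) (i j : ℕ) (h1 : s + i ≤ j) (h2 : j < M.length) :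
    ∑ L ∈ cls M, dp (lt j L) (vv s v i L) = dl M s v i := by
  have e1 := eDis M (s + i) (M.length - (s + i))
    (fun P U _ => dp (lt (j - (s + i)) U) (vv s v i P))
  have e2 := eDis M (s + i) (M.length - (s + i))
    (fun P U _ => dp (hd2 U) (vv s v i P))
  have e3 : ∑ L ∈ cls M, dp (lt j L) (vv s v i L) = ∑ L ∈ cls M,
      dp (lt (j - (s + i)) ((L.drop (s + i)).take (M.length - (s + i)))) (vv s v i (L.take (s + i))) := by
    refine Finset.sum_congr rfl fun L hL => ?_
    have e : s + i + (j - (s + i)) = j := by omega
    rw [lta_blk M L _ hL, lta_lt, vv_take, e]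
  have e4 : dl M s v i = ∑ L ∈ cls M,
      dp (hd2 ((L.drop (s + i)).take (M.length - (s + i)))) (vv s v i (L.take (s + i))) := by
    unfold dl
    refine Finset.sum_congr rfl fun L hL => ?_
    rw [lta_blk M L _ hL, lta_hd, vv_take]
  rw [e3, e4]
  refine e1.trans (Eq.trans ?_ e2.symm)
  refine Finset.sum_congr rfl fun L hL => ?_
  congr 1
  rw [lta_blk M L _ hL]
  have hlen : j - (s + i) < (L.drop (s + i)).length := by
    rw [List.length_drop, len_cls hL]
    omega
  exact (eLet eFrt (L.drop (s + i)) (fun x => dp x (vv s v i (L.take (s + i)))) (j - (s + i))).1 hlen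

/-- Turn the pair at the place `j`. -/
private def ltaF {G : Type} [Group G] (j : ℕ) (L : List (G × G)) : List (G × G) :=
  L.take j ++ ((L.drop j).take 1).map rt ++ L.drop (j + 1)

private theorem lta_split {G : Type} [Group G] (j : ℕ) (L : List (G × G)) :
    L.take j ++ (L.drop j).take 1 ++ L.drop (j + 1) = L := by
  rw [List.append_assoc]
  have h1 : (L.drop j).take 1 ++ L.drop (j + 1) = L.drop j := by
    have := List.take_append_drop 1 (L.drop j)
    rw [List.drop_drop] at this
    exact this
  rw [h1, List.take_append_drop]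

private theorem lta_rt {G : Type} [Group G] (L : List (G × G)) : LG L (L.map rt) := by
  induction L with
  | nil => exact PWH.bBas.1 _
  | cons p L ih =>
    have h1 := PWH.bBas.2.2.2.1 [] [p] [rt p] L (PWH.bBas.2.2.2.2.2.1 p)
    have h2 := PWH.bBas.2.2.2.1 [rt p] L (L.map rt) [] ih
    rw [List.append_nil, List.append_nil] at h2
    exact PWH.bBas.2.1 _ _ _ h1 h2

private theorem lta_mem {G : Type} [Group G] [Fintype G] (M : List (G × G)) (j : ℕ)
    {L : List (G × G)} (hL : L ∈ cls M) : ltaF j L ∈ cls M := by
  have h1 : ltaF j L ∈ cls (L.take j ++ (L.drop j).take 1 ++ L.drop (j + 1)) :=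
    app_cls _ _ (mem_cls.2 (lta_rt _))
  rw [lta_split] at h1
  rwa [cls_eq hL] at h1

private theorem lta_rt_inj {G : Type} [Group G] : Function.Injective (rt : G × G → G × G) := by
  rintro ⟨a, b⟩ ⟨a', b'⟩ h
  unfold rt at h
  have h1 : b⁻¹ = b'⁻¹ := congrArg Prod.fst h
  have h2 : b * a * b⁻¹ = b' * a' * b'⁻¹ := congrArg Prod.snd h
  have hb : b = b' := inv_injective h1
  subst hb
  have ha : a = a' := mul_left_cancel (mul_right_cancel h2)
  rw [ha]

private theorem lta_get {G : Type} [Group G] (j : ℕ) (L : List (G × G)) (hj : j < L.length) :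
    (L.drop j).take 1 = [L[j]] := by
  rw [List.drop_eq_getElem_cons hj, List.take_succ_cons, List.take_zero]

private theorem lta_take {G : Type} [Group G] (j : ℕ) (L : List (G × G)) (hj : j < L.length) :
    (ltaF j L).take j = L.take j := by
  unfold ltaF
  rw [List.append_assoc, List.take_append_of_le_length (by rw [List.length_take]; omega),
    List.take_take, min_self]

private theorem lta_at {G : Type} [Group G] (j : ℕ) (L : List (G × G)) (hj : j < L.length) :
    (ltaF j L)[j]? = some (rt L[j]) := by
  unfold ltaF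
  rw [lta_get j L hj, List.append_assoc, List.getElem?_append_right (by rw [List.length_take]; omega),
    List.length_take, Nat.min_eq_left hj.le, Nat.sub_self]
  rfl

private theorem lta_inj {G : Type} [Group G] [Fintype G] (M : List (G × G)) (j : ℕ)
    (hj : j < M.length) : Set.InjOn (ltaF j) (cls M : Set (List (G × G))) := by
  intro L hL L' hL' h
  rw [Finset.mem_coe] at hL hL'
  have l1 : j < L.length := by rw [len_cls hL]; exact hj
  have l2 : j < L'.length := by rw [len_cls hL']; exact hj
  have t1 : L.take j = L'.take j := by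
    rw [← lta_take j L l1, h, lta_take j L' l2]
  have t2 : L[j] = L'[j] := by
    apply lta_rt_inj
    have := lta_at j L l1
    rw [h, lta_at j L' l2] at this
    exact (Option.some.inj this).symm
  have t3 : L.drop (j + 1) = L'.drop (j + 1) := by
    have h3 : ltaF j L = ltaF j L' := h
    unfold ltaF at h3
    rw [t1, lta_get j L l1, lta_get j L' l2, t2] at h3
    exact List.append_cancel_left h3
  rw [← lta_split j L, ← lta_split j L', t1, t3, lta_get j L l1, lta_get j L' l2, t2]

private theorem lta_sum {G : Type} [Group G] [Fintype G] (M : List (G × G)) (j : ℕ)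
    (hj : j < M.length) (φ : List (G × G) → ℝ) :
    ∑ L ∈ cls M, φ (ltaF j L) = ∑ L ∈ cls M, φ L := by
  have himg : (cls M).image (ltaF j) = cls M := by
    apply Finset.eq_of_subset_of_card_le
    · intro L hL
      obtain ⟨L', hL', rfl⟩ := Finset.mem_image.1 hL
      exact lta_mem M j hL'
    · rw [Finset.card_image_of_injOn (lta_inj M j hj)]
  rw [← Finset.sum_image (lta_inj M j hj), himg]

theorem thm_Lta : St_Lta := by
  intro G _ _ Ω _ _ M s v i j h1 h2
  refine ⟨lta_one M s v i j h1 h2, ?_⟩
  have e1 := lta_one M s v i j h1 h2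
  have e2 := lta_sum M j h2 (fun L => dp (lt j L) (vv s v i L))
  have e3 : ∀ L ∈ cls M, dp (la j L) (vv s v i L) ≤
      6 * dp (lt j L) (vv s v i L) + 3 * dp (lt j (ltaF j L)) (vv s v i (ltaF j L)) := by
    intro L hL
    have l1 : j < L.length := by rw [len_cls hL]; exact h2
    have hv : vv s v i (ltaF j L) = vv s v i L := by
      apply vv_congr
      have := congrArg (List.take (s + i)) (lta_take j L l1)
      rw [List.take_take, List.take_take, Nat.min_eq_left h1] at this
      exact this
    have ha : la j L = (L[j]).1 := by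
      unfold la
      rw [List.getElem?_eq_getElem l1]
      rfl
    have hb : lt j L = (L[j]).2 := by
      unfold lt
      rw [List.getElem?_eq_getElem l1]
      rfl
    have hc : lt j (ltaF j L) = (L[j]).2 * (L[j]).1 * (L[j]).2⁻¹ := by
      unfold lt
      rw [lta_at j L l1]
      rfl
    rw [hv, ha, hb, hc]
    exact dp_conj _ _ _
  have e4 := Finset.sum_le_sum e3
  rw [Finset.sum_add_distrib, ← Finset.mul_sum, ← Finset.mul_sum, e2, e1] at e4
  linarith

end Pool.Agent.PWE
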