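import Pool.Agent.PWE.St
import Pool.Agent.PWE.Bas

/-!
# Campaign PWE, module Lwr: the displacement by one letter is not small
-/

set_option autoImplicit false

open scoped BigOperators

namespace Pool.Agent.PWE

open Pool.Agent.PW Pool.Agent.PWM Pool.Agent.PWB Pool.Agent.PWX Pool.Agent.PWF Pool.Agent.PWL
  Pool.Agent.PWY
open scoped Classical

private theorem lwr_len {G : Type} [Group G] [Fintype G] {M L : List (G × G)} (h : L ∈ cls M) :
    L.length = M.length := (mem_cls.1 h).1.symm

private theorem lwr_sum {G : Type} [Group G] {Ω : Type} [Fintype Ω] [MulAction G Ω] (u : Ω → ℝ)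
    (L : List (G × G)) (a : ℕ) : ∀ b, a + b ≤ L.length →
    (((L.drop a).take b).map fun p => dp p.1 u + dp p.2 u).sum =
      ∑ l ∈ Finset.range b, (dp (la (a + l) L) u + dp (lt (a + l) L) u) := by
  intro b
  induction b with
  | zero => intro _; simp
  | succ b ih =>
    intro hb
    have hb' : a + b < L.length := by omega
    have h1 : (L.drop a)[b]? = some (L[a + b]'hb') := by
      rw [List.getElem?_drop, List.getElem?_eq_getElem hb']
    rw [List.take_add_one, h1, List.map_append, List.sum_append, ih (by omega),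
      Finset.sum_range_succ]
    have h2 : la (a + b) L = (L[a + b]'hb').1 := by
      unfold la
      rw [List.getElem?_eq_getElem hb']
      rfl
    have h3 : lt (a + b) L = (L[a + b]'hb').2 := by
      unfold lt
      rw [List.getElem?_eq_getElem hb']
      rfl
    rw [h2, h3]
    simp

theorem thm_Lwr : St_Lwr := by
  intro hDec hGpl hLta G _ _ Ω _ _ M s v i b R hv0 hv1 hlen hnum hem hTrb hN1 hN2
  by_contra hcon
  rw [not_le] at hcon
  have hd0 := dl_nonneg M s v i
  have hE : 0 < em M s v i := by linarith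
  obtain ⟨k, hk1, hk2, hk3⟩ := hDec (M.length - s) (em M s v) (dl M s v) (dl_nonneg M s v)
    (fun j hj => hN1 j (by omega)) (fun j m hj => hN2 j m (by omega)) R i (by omega)
  have h1 := hN2 i (k - i) (by omega)
  rw [Nat.add_sub_cancel' hk1] at h1
  -- the bound for one list
  have h2 : ∀ L ∈ cls M, nn (vv s v k L) ≤
      (if ¬ Tr Ω (Gn ((L.drop (s + k)).take b)) then (1 : ℝ) else 0) +
        (Fintype.card Ω : ℝ) ^ 3 * ∑ l ∈ Finset.range b,
          (dp (la (s + k + l) L) (vv s v k L) + dp (lt (s + k + l) L) (vv s v k L)) := by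
    intro L hL
    have hl := lwr_len hL
    have h3 : 0 ≤ ∑ l ∈ Finset.range b,
        (dp (la (s + k + l) L) (vv s v k L) + dp (lt (s + k + l) L) (vv s v k L)) :=
      Finset.sum_nonneg fun l _ => add_nonneg (dp_nonneg _ _) (dp_nonneg _ _)
    have h4 : (0 : ℝ) ≤ (Fintype.card Ω : ℝ) ^ 3 := by positivity
    by_cases hT : Tr Ω (Gn ((L.drop (s + k)).take b))
    · rw [if_neg (not_not.2 hT), zero_add, ← lwr_sum _ _ _ _ (by omega)]
      exact hGpl _ _ hT (by rw [sum_vv]; exact hv0)
    · rw [if_pos hT]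
      have h5 := (nn_vv_le s v k L).trans hv1
      have h6 := mul_nonneg h4 h3
      linarith
  have h3 : em M s v k ≤ (((cls M).filter fun L => ¬ Tr Ω (Gn ((L.drop (s + k)).take b))).card : ℝ) +
      (Fintype.card Ω : ℝ) ^ 3 * ∑ l ∈ Finset.range b, ∑ L ∈ cls M,
        (dp (la (s + k + l) L) (vv s v k L) + dp (lt (s + k + l) L) (vv s v k L)) := by
    refine (Finset.sum_le_sum h2).trans (le_of_eq ?_)
    rw [Finset.sum_add_distrib, ← Finset.mul_sum, Finset.sum_comm, Finset.sum_boole]
  have h4 : ∑ l ∈ Finset.range b, ∑ L ∈ cls M,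
      (dp (la (s + k + l) L) (vv s v k L) + dp (lt (s + k + l) L) (vv s v k L)) ≤
      b * (10 * dl M s v k) := by
    have h5 : ∀ l ∈ Finset.range b, ∑ L ∈ cls M,
        (dp (la (s + k + l) L) (vv s v k L) + dp (lt (s + k + l) L) (vv s v k L)) ≤
        10 * dl M s v k := by
      intro l hl
      rw [Finset.mem_range] at hl
      obtain ⟨h6, h7⟩ := hLta M s v k (s + k + l) (by omega) (by omega)
      rw [Finset.sum_add_distrib, h6]
      linarith
    refine (Finset.sum_le_sum h5).trans (le_of_eq ?_)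
    rw [Finset.sum_const, Finset.card_range, nsmul_eq_mul]
  have h5 := hTrb (s + k) (by omega)
  set d : ℝ := (Fintype.card Ω : ℝ) with hd
  have hd1 : 0 ≤ d := Nat.cast_nonneg _
  have h6 : (5 * b * d ^ 3 : ℝ) < 4 ^ R := by
    have := hnum
    rw [hd]
    exact_mod_cast this
  have h7 : d ^ 3 * (b * (10 * dl M s v k)) * 4 ^ R ≤ 10 * b * d ^ 3 * dl M s v i := by
    rw [le_div_iff₀ (by positivity)] at hk3
    have h8 : (0 : ℝ) ≤ 10 * b * d ^ 3 := by positivity
    have h9 := mul_le_mul_of_nonneg_left hk3 h8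
    calc d ^ 3 * (b * (10 * dl M s v k)) * 4 ^ R = 10 * b * d ^ 3 * (dl M s v k * 4 ^ R) := by ring
      _ ≤ _ := h9
  have h8 : d ^ 3 * ∑ l ∈ Finset.range b, ∑ L ∈ cls M,
      (dp (la (s + k + l) L) (vv s v k L) + dp (lt (s + k + l) L) (vv s v k L)) ≤
      d ^ 3 * (b * (10 * dl M s v k)) := mul_le_mul_of_nonneg_left h4 (by positivity)
  have h9 : 3 / 4 * em M s v i ≤ em M s v i / 4 + d ^ 3 * (b * (10 * dl M s v k)) := by
    linarith
  have hP : (0 : ℝ) < 4 ^ R := by positivity
  have h10 : em M s v i / 2 * 4 ^ R ≤ d ^ 3 * (b * (10 * dl M s v k)) * 4 ^ R :=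
    mul_le_mul_of_nonneg_right (by linarith) hP.le
  have h11 : 10 * b * d ^ 3 * dl M s v i ≤ 10 * b * d ^ 3 * (em M s v i / 4) :=
    mul_le_mul_of_nonneg_left hcon.le (by positivity)
  have h12 : em M s v i / 2 * (5 * b * d ^ 3) < em M s v i / 2 * 4 ^ R :=
    mul_lt_mul_of_pos_left h6 (by linarith)
  have h13 : 10 * b * d ^ 3 * (em M s v i / 4) = em M s v i / 2 * (5 * b * d ^ 3) := by ring
  linarith

end Pool.Agent.PWE
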