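import Pool.Agent.PWE.St

/-!
# Campaign PWE, module Mrg: one more element and the number of orbits
-/

set_option autoImplicit false

open scoped BigOperators

namespace Pool.Agent.PWE

open Pool.Agent.PW Pool.Agent.PWM Pool.Agent.PWB Pool.Agent.PWX Pool.Agent.PWF Pool.Agent.PWL
  Pool.Agent.PWY
open scoped Classical

section

variable {G : Type} [Group G] {Ω : Type} [MulAction G Ω]

private theorem mem_orb (A : Subgroup G) (w w' : Ω) : w' ∈ orb A w ↔ ∃ a ∈ A, a • w = w' := Iff.rfl

private theorem self_orb (A : Subgroup G) (w : Ω) : w ∈ orb A w := ⟨1, A.one_mem, one_smul G w⟩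

private theorem orb_eq (A : Subgroup G) {w w' : Ω} (h : w' ∈ orb A w) : orb A w' = orb A w := by
  obtain ⟨a, ha, rfl⟩ := h
  ext x
  constructor
  · rintro ⟨c, hc, rfl⟩
    exact ⟨c * a, A.mul_mem hc ha, by rw [mul_smul]⟩
  · rintro ⟨c, hc, rfl⟩
    exact ⟨c * a⁻¹, A.mul_mem hc (A.inv_mem ha), by rw [mul_smul, inv_smul_smul]⟩

private theorem orb_mono {A B : Subgroup G} (h : A ≤ B) (w : Ω) : orb A w ⊆ orb B w := by
  rintro x ⟨a, ha, rfl⟩
  exact ⟨a, h ha, rfl⟩

variable [Fintype Ω]

private theorem mem_ob (A : Subgroup G) (C : Set Ω) : C ∈ ob Ω A ↔ ∃ w : Ω, orb A w = C := by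
  simp [ob]

private theorem ob_eq {A : Subgroup G} {C : Set Ω} (hC : C ∈ ob Ω A) {w : Ω} (hw : w ∈ C) :
    orb A w = C := by
  obtain ⟨w0, rfl⟩ := (mem_ob A C).1 hC
  exact orb_eq A hw

/-- The orbit of the larger group which contains an orbit. -/
private noncomputable def up (B : Subgroup G) (C : Set Ω) : Set Ω := {x | ∃ w ∈ C, x ∈ orb B w}

omit [Fintype Ω] in
private theorem up_orb {A B : Subgroup G} (h : A ≤ B) (w : Ω) : up B (orb A w) = orb B w := by
  ext x
  constructor
  · rintro ⟨y, hy, hx⟩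
    rw [← orb_eq B (orb_mono h w hy)]
    exact hx
  · intro hx
    exact ⟨w, self_orb A w, hx⟩

end

theorem thm_Mrg : St_Mrg := by
  intro G _ Ω _ _ A b
  have hAB : A ≤ A ⊔ Subgroup.zpowers b := le_sup_left
  have hb : b ∈ A ⊔ Subgroup.zpowers b :=
    (le_sup_right : Subgroup.zpowers b ≤ A ⊔ Subgroup.zpowers b) (Subgroup.mem_zpowers b)
  generalize hB : A ⊔ Subgroup.zpowers b = B at *
  have hmap : ∀ C ∈ ob Ω A, up B C ∈ ob Ω B := by
    intro C hC
    obtain ⟨w, rfl⟩ := (mem_ob A C).1 hC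
    rw [up_orb hAB]
    exact (mem_ob B _).2 ⟨w, rfl⟩
  have h1 : (ob Ω A).card = ∑ D ∈ ob Ω B, ((ob Ω A).filter fun C => up B C = D).card :=
    Finset.card_eq_sum_card_fiberwise hmap
  have h2 : ((ob Ω A).filter fun C => ∃ w ∈ C, b • w ∉ C).card =
      ∑ D ∈ ob Ω B, (((ob Ω A).filter fun C => ∃ w ∈ C, b • w ∉ C).filter
        fun C => up B C = D).card := by
    apply Finset.card_eq_sum_card_fiberwise
    intro C hC
    exact hmap C (Finset.mem_filter.1 hC).1
  have h3 : 2 * (ob Ω B).card = ∑ D ∈ ob Ω B, 2 := by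
    rw [Finset.sum_const, smul_eq_mul, mul_comm]
  rw [h3, h2, h1, Finset.mul_sum, ← Finset.sum_add_distrib]
  apply Finset.sum_le_sum
  intro D hD
  -- the fibre is not empty
  obtain ⟨w, rfl⟩ := (mem_ob B D).1 hD
  have hne : orb A w ∈ (ob Ω A).filter fun C => up B C = orb B w :=
    Finset.mem_filter.2 ⟨(mem_ob A _).2 ⟨w, rfl⟩, up_orb hAB w⟩
  have hsub : (((ob Ω A).filter fun C => ∃ w ∈ C, b • w ∉ C).filter fun C => up B C = orb B w) ⊆
      (ob Ω A).filter fun C => up B C = orb B w := by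
    intro C hC
    have h := Finset.mem_filter.1 hC
    exact Finset.mem_filter.2 ⟨(Finset.mem_filter.1 h.1).1, h.2⟩
  have hle := Finset.card_le_card hsub
  have hpos : 1 ≤ ((ob Ω A).filter fun C => up B C = orb B w).card := Finset.card_pos.2 ⟨_, hne⟩
  by_cases h2le : 2 ≤ ((ob Ω A).filter fun C => up B C = orb B w).card
  · omega
  · have hone : ((ob Ω A).filter fun C => up B C = orb B w).card = 1 := by omega
    obtain ⟨C0, hC0⟩ := Finset.card_eq_one.1 hone
    have hCw : C0 = orb A w := by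
      have : orb A w ∈ ({C0} : Finset (Set Ω)) := hC0 ▸ hne
      exact (Finset.mem_singleton.1 this).symm
    have hzero : (((ob Ω A).filter fun C => ∃ w ∈ C, b • w ∉ C).filter
        fun C => up B C = orb B w).card = 0 := by
      rw [Finset.card_eq_zero, Finset.eq_empty_iff_forall_notMem]
      intro C hC
      have hC1 := Finset.mem_filter.1 (hsub hC)
      have hC2 := (Finset.mem_filter.1 (Finset.mem_filter.1 hC).1).2
      have hCC : C = orb A w := by
        have : C ∈ ({C0} : Finset (Set Ω)) := hC0 ▸ hsub hC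
        rw [← hCw]
        exact Finset.mem_singleton.1 this
      obtain ⟨x, hx, hbx⟩ := hC2
      apply hbx
      -- the orbit of `b • x` lies in the same fibre
      have hxB : x ∈ orb B w := by
        rw [hCC] at hx
        exact orb_mono hAB w hx
      have hbxB : b • x ∈ orb B w := by
        rw [← orb_eq B hxB]
        exact ⟨b, hb, rfl⟩
      have hfib : orb A (b • x) ∈ (ob Ω A).filter fun C => up B C = orb B w :=
        Finset.mem_filter.2 ⟨(mem_ob A _).2 ⟨_, rfl⟩, by rw [up_orb hAB, orb_eq B hbxB]⟩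
      have : orb A (b • x) = C0 := by
        have h' : orb A (b • x) ∈ ({C0} : Finset (Set Ω)) := hC0 ▸ hfib
        exact Finset.mem_singleton.1 h'
      rw [hCC, ← hCw, ← this]
      exact self_orb A _
    omega

end Pool.Agent.PWE
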