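import Pool.Agent.PWE.St
import Pool.Agent.PWE.Bas

/-!
# Campaign PWE, module Ntw: the two relations of `em` and `dl`
-/

set_option autoImplicit false

open scoped BigOperators

namespace Pool.Agent.PWE

open Pool.Agent.PW Pool.Agent.PWM Pool.Agent.PWB Pool.Agent.PWX Pool.Agent.PWF Pool.Agent.PWL
  Pool.Agent.PWY
open scoped Classical

private theorem ntw_len {G : Type} [Group G] [Fintype G] {M L : List (G × G)} (h : L ∈ cls M) :
    L.length = M.length := (mem_cls.1 h).1.symm

private theorem ntw_sq {Ω : Type} [Fintype Ω] (u u' : Ω → ℝ) : nn u - nn u' ≤ 2 * nn u - 2 * ip u' u := by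
  have h1 : 0 ≤ ∑ w, (u' w - u w) ^ 2 := Finset.sum_nonneg fun w _ => sq_nonneg _
  have h2 : ∑ w, (u' w - u w) ^ 2 = nn u' - 2 * ip u' u + nn u := by
    unfold nn ip
    rw [Finset.mul_sum, ← Finset.sum_sub_distrib, ← Finset.sum_add_distrib]
    exact Finset.sum_congr rfl fun w _ => by ring
  rw [h2] at h1
  linarith

theorem thm_Ntw : St_Ntw := by
  intro hP G _ _ Ω _ _ M s v
  refine ⟨?_, ?_⟩
  · intro i hi
    unfold em dl
    rw [Finset.sum_div, ← Finset.sum_sub_distrib]
    refine Finset.sum_congr rfl fun L hL => ?_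
    have hl := ntw_len hL
    rw [vv_succ s v i L (by omega), nn_hf]
  · intro i m him
    have h1 := hP.2 M (s + i) m him (fun P x => ip (act x (vv s v i P)) (vv s v i P))
    simp only [vv_take] at h1
    have h2 : ∀ L : List (G × G), sa ((L.drop (s + i)).take m) (fun x => ip (act x (vv s v i L)) (vv s v i L)) =
        ip (vv s v (i + m) L) (vv s v i L) := by
      intro L
      rw [vv_add, ip_av]
    have h3 : ∑ L ∈ cls M, ip (act (1 : G) (vv s v i L)) (vv s v i L) = em M s v i := by
      unfold em
      refine Finset.sum_congr rfl fun L _ => ?_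
      rw [act_one, ip_self]
    have h4 : ∑ L ∈ cls M, ip (act (lt (s + i) L) (vv s v i L)) (vv s v i L) = em M s v i - dl M s v i / 2 := by
      unfold em dl
      rw [Finset.sum_div, ← Finset.sum_sub_distrib]
      refine Finset.sum_congr rfl fun L _ => ?_
      rw [dp_eq]
      ring
    have h5 : ∑ L ∈ cls M, ip (vv s v (i + m) L) (vv s v i L) =
        (1 / 2) ^ m * em M s v i + (1 - (1 / 2) ^ m) * (em M s v i - dl M s v i / 2) := by
      rw [← h3, ← h4, ← h3] at *
      rw [← h1]
      exact Finset.sum_congr rfl fun L _ => (h2 L).symm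
    have h6 : em M s v i - em M s v (i + m) ≤ 2 * em M s v i - 2 * ∑ L ∈ cls M, ip (vv s v (i + m) L) (vv s v i L) := by
      unfold em
      rw [Finset.mul_sum, Finset.mul_sum, ← Finset.sum_sub_distrib, ← Finset.sum_sub_distrib]
      exact Finset.sum_le_sum fun L _ => ntw_sq _ _
    rw [h5] at h6
    have h7 := dl_nonneg M s v i
    have h8 : (0 : ℝ) ≤ (1 / 2) ^ m := by positivity
    nlinarith [mul_nonneg h8 h7]

end Pool.Agent.PWE
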