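import Pool.Agent.PWE.St

/-!
# Campaign PWE: three numeric inequalities
-/

set_option autoImplicit false

namespace Pool.Agent.PWE

private theorem num_lin (l : ℕ) (hl : 1 ≤ l) : 240 * l < 512 ^ l := by
  induction l, hl using Nat.le_induction with
  | base => norm_num
  | succ m hm ih =>
    have h : 512 ^ (m + 1) = 512 * 512 ^ m := pow_succ' 512 m
    omega

private theorem num_one (x : ℝ) (l : ℕ) (hl : 1 ≤ l) (h0 : 0 ≤ x) (h1 : x ≤ 1) : x ^ l ≤ x := by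
  calc x ^ l ≤ x ^ 1 := pow_le_pow_of_le_one h0 h1 hl
    _ = x := pow_one x

theorem thm_Num : St_Num := by
  intro d l hl hd
  have hd3 : d ^ 3 ≤ 8 ^ l := by
    calc d ^ 3 ≤ (2 ^ l) ^ 3 := Nat.pow_le_pow_left hd.le 3
      _ = 8 ^ l := by rw [← pow_mul, mul_comm, pow_mul]; norm_num
  have hR : (d : ℝ) ^ 3 ≤ 8 ^ l := by exact_mod_cast hd3
  have hd1 : (d : ℝ) ≤ 2 ^ l := by exact_mod_cast hd.le
  have hd0 : (0 : ℝ) ≤ d := Nat.cast_nonneg d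
  refine ⟨?_, ?_, ?_⟩
  · have h1 := num_lin l hl
    have h2 : 4 ^ (6 * l) = 512 ^ l * 8 ^ l := by
      rw [pow_mul, ← mul_pow]
      norm_num
    have h3 : 0 < 8 ^ l := by positivity
    calc 5 * (48 * l) * d ^ 3 ≤ 5 * (48 * l) * 8 ^ l := Nat.mul_le_mul_left _ hd3
      _ = 240 * l * 8 ^ l := by ring
      _ < 512 ^ l * 8 ^ l := Nat.mul_lt_mul_of_pos_right h1 h3
      _ = 4 ^ (6 * l) := h2.symm
  · have h1 : ((7 : ℝ) / 8) ^ (48 * l) = ((7 / 8) ^ 48) ^ l := pow_mul _ _ _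
    have h2 : (d : ℝ) ^ 3 * d ≤ 8 ^ l * 2 ^ l :=
      mul_le_mul hR hd1 hd0 (by positivity)
    have h3 : (8 : ℝ) ^ l * 2 ^ l * ((7 / 8) ^ 48) ^ l ≤ 8 * 2 * (7 / 8) ^ 48 := by
      rw [← mul_pow, ← mul_pow]
      exact num_one _ l hl (by positivity) (by norm_num)
    have h4 : 0 ≤ (((7 : ℝ) / 8) ^ 48) ^ l := by positivity
    calc 3 * (d : ℝ) ^ 3 * (4 * ((7 / 8) ^ (48 * l) * d)) =
        12 * ((d : ℝ) ^ 3 * d * ((7 / 8) ^ 48) ^ l) := by rw [h1]; ring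
      _ ≤ 12 * (8 ^ l * 2 ^ l * ((7 / 8) ^ 48) ^ l) := by
        have := mul_le_mul_of_nonneg_right h2 h4
        linarith
      _ ≤ 12 * (8 * 2 * (7 / 8) ^ 48) := by linarith
      _ < 1 := by norm_num
  · have h1 : ((15 : ℝ) / 16) ^ (64 * l) = ((15 / 16) ^ 64) ^ l := pow_mul _ _ _
    have h3 : (8 : ℝ) ^ l * ((15 / 16) ^ 64) ^ l ≤ 8 * (15 / 16) ^ 64 := by
      rw [← mul_pow]
      exact num_one _ l hl (by positivity) (by norm_num)
    have h4 : 0 ≤ (((15 : ℝ) / 16) ^ 64) ^ l := by positivity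
    calc 3 * (d : ℝ) ^ 3 * (15 / 16) ^ (64 * l) =
        3 * ((d : ℝ) ^ 3 * ((15 / 16) ^ 64) ^ l) := by rw [h1]; ring
      _ ≤ 3 * (8 ^ l * ((15 / 16) ^ 64) ^ l) := by
        have := mul_le_mul_of_nonneg_right hR h4
        linarith
      _ ≤ 3 * (8 * (15 / 16) ^ 64) := by linarith
      _ < 1 := by norm_num

end Pool.Agent.PWE
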