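import Pool.Agent.PWE.St

/-!
# Campaign PWE: (Orb), helper76
-/

set_option autoImplicit false

open scoped BigOperators

namespace Pool.Agent.PWE

open Pool.Agent.PW Pool.Agent.PWM Pool.Agent.PWB Pool.Agent.PWX Pool.Agent.PWF Pool.Agent.PWL
  Pool.Agent.PWY
open scoped Classical

private theorem Orb_sat {G : Type} [Group G] {Ω : Type} [MulAction G Ω] {A B : Subgroup G}
    (h : A ≤ B) (w : Ω) :
    {w' : Ω | ∃ u ∈ orb A w, ∃ b ∈ B, b • u = w'} = orb B w := by
  ext w'
  constructor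
  · rintro ⟨u, ⟨a, ha, rfl⟩, b, hb, rfl⟩
    exact ⟨b * a, B.mul_mem hb (h ha), mul_smul b a w⟩
  · rintro ⟨b, hb, rfl⟩
    exact ⟨w, ⟨1, A.one_mem, one_smul G w⟩, b, hb, rfl⟩

private theorem Orb_mono {G : Type} [Group G] {Ω : Type} [Fintype Ω] [MulAction G Ω]
    {A B : Subgroup G} (h : A ≤ B) : (ob Ω B).card ≤ (ob Ω A).card := by
  have e : ob Ω B = (ob Ω A).image fun C => {w' : Ω | ∃ u ∈ C, ∃ b ∈ B, b • u = w'} := by
    unfold ob
    rw [Finset.image_image]
    refine Finset.image_congr ?_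
    intro w _
    exact (Orb_sat h w).symm
  rw [e]
  exact Finset.card_image_le

private theorem Orb_stab {G : Type} [Group G] {Ω : Type} [Fintype Ω] [MulAction G Ω]
    (C : Set Ω) : ∃ S : Subgroup G, (∀ g : G, g ∈ S ↔ ∀ w ∈ C, g • w ∈ C) := by
  refine ⟨{ carrier := {g | ∀ w ∈ C, g • w ∈ C}, mul_mem' := ?_, one_mem' := ?_, inv_mem' := ?_ },
    fun g => Iff.rfl⟩
  · intro a b ha hb w hw
    rw [mul_smul]
    exact ha _ (hb w hw)
  · intro w hw
    rw [one_smul]
    exact hw
  · intro g hg w hw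
    have he : (fun u : Ω => g • u) '' C = C := by
      apply Set.eq_of_subset_of_ncard_le
      · rintro v ⟨u, hu, rfl⟩
        exact hg u hu
      · rw [Set.ncard_image_of_injective C (MulAction.injective g)]
      · exact Set.toFinite C
    obtain ⟨u, hu, hgu⟩ : w ∈ (fun u : Ω => g • u) '' C := by
      rw [he]
      exact hw
    have : g⁻¹ • w = u := by
      rw [← hgu]
      exact inv_smul_smul g u
    rw [this]
    exact hu

private theorem Orb_fix {G : Type} [Group G] {Ω : Type} [Fintype Ω] [MulAction G Ω]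
    {A B : Subgroup G} (hA : A ≤ B) {C : Set Ω} (hC : C ∈ ob Ω A)
    (h : ∀ g ∈ B, ∀ w ∈ C, g • w ∈ C) : C ∈ ob Ω B := by
  unfold ob at hC ⊢
  rw [Finset.mem_image] at hC ⊢
  obtain ⟨w, -, rfl⟩ := hC
  refine ⟨w, Finset.mem_univ _, ?_⟩
  ext w'
  constructor
  · rintro ⟨b, hb, rfl⟩
    exact h b hb w ⟨1, A.one_mem, one_smul G w⟩
  · rintro ⟨a, ha, rfl⟩
    exact ⟨a, hA ha, rfl⟩

private theorem Orb_inv {G : Type} [Group G] {Ω : Type} [Fintype Ω] [MulAction G Ω]
    {A : Subgroup G} {C : Set Ω} (hC : C ∈ ob Ω A) : ∀ g ∈ A, ∀ w ∈ C, g • w ∈ C := by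
  unfold ob at hC
  rw [Finset.mem_image] at hC
  obtain ⟨u, -, rfl⟩ := hC
  rintro g hg w ⟨a, ha, rfl⟩
  exact ⟨g * a, A.mul_mem hg ha, mul_smul g a u⟩

private theorem Orb_new (hD : St_Gnv → ∀ {G : Type} [Group G] [Fintype G] (N : List (G × G))
    (A : Subgroup G), ¬ Gn N ≤ A →
    4 * ((cls N).filter fun L => hd2 L ∈ A).card ≤ 3 * (cls N).card) (hG : St_Gnv)
    {G : Type} [Group G] [Fintype G] {Ω : Type} [Fintype Ω] [MulAction G Ω] (A B : Subgroup G)
    (N : List (G × G)) (hA : A ≤ B) (hB : B ≤ A ⊔ Gn N) :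
    ((ob Ω A).card : ℝ) - (ob Ω B).card ≤
      4 * ((∑ U ∈ cls N, (((ob Ω A).filter fun C => ∃ w ∈ C, hd2 U • w ∉ C).card : ℝ)) /
        ((cls N).card : ℝ)) := by
  have c0 : 0 < (cls N).card := card_cls_pos N
  have h1 : ∑ U ∈ cls N, ((ob Ω A).filter fun C => ∃ w ∈ C, hd2 U • w ∉ C).card =
      ∑ C ∈ ob Ω A, ((cls N).filter fun U => ∃ w ∈ C, hd2 U • w ∉ C).card := by
    simp only [Finset.card_filter]
    exact Finset.sum_comm
  have h2 : ∀ C ∈ ob Ω A \ ob Ω B,
      (cls N).card ≤ 4 * ((cls N).filter fun U => ∃ w ∈ C, hd2 U • w ∉ C).card := by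
    intro C hC
    rw [Finset.mem_sdiff] at hC
    obtain ⟨S, hS⟩ := Orb_stab (G := G) C
    have hN : ¬ Gn N ≤ S := by
      intro hle
      apply hC.2
      apply Orb_fix hA hC.1
      have hAS : A ≤ S := fun g hg => (hS g).2 (Orb_inv hC.1 g hg)
      intro g hg
      exact (hS g).1 ((hB.trans (sup_le hAS hle)) hg)
    have h3 := hD hG N S hN
    have h4 : ((cls N).filter fun U => ∃ w ∈ C, hd2 U • w ∉ C) =
        (cls N).filter fun U => ¬ hd2 U ∈ S := by
      refine Finset.filter_congr fun U _ => ?_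
      rw [hS]
      push Not
      rfl
    have h5 := Finset.card_filter_add_card_filter_not (s := cls N) (fun U => hd2 U ∈ S)
    rw [h4]
    omega
  have h3 : (ob Ω A).card ≤ (ob Ω A \ ob Ω B).card + (ob Ω B).card :=
    Finset.card_le_card_sdiff_add_card
  have h4 : (ob Ω A \ ob Ω B).card * (cls N).card ≤
      4 * ∑ C ∈ ob Ω A, ((cls N).filter fun U => ∃ w ∈ C, hd2 U • w ∉ C).card := by
    calc (ob Ω A \ ob Ω B).card * (cls N).card
        = ∑ C ∈ ob Ω A \ ob Ω B, (cls N).card := by rw [Finset.sum_const, smul_eq_mul]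
      _ ≤ ∑ C ∈ ob Ω A \ ob Ω B, 4 * ((cls N).filter fun U => ∃ w ∈ C, hd2 U • w ∉ C).card :=
          Finset.sum_le_sum h2
      _ ≤ ∑ C ∈ ob Ω A, 4 * ((cls N).filter fun U => ∃ w ∈ C, hd2 U • w ∉ C).card :=
          Finset.sum_le_sum_of_subset Finset.sdiff_subset
      _ = _ := by rw [Finset.mul_sum]
  rw [← h1] at h4
  have h4' : ((ob Ω A \ ob Ω B).card : ℝ) * (cls N).card ≤
      4 * ∑ U ∈ cls N, (((ob Ω A).filter fun C => ∃ w ∈ C, hd2 U • w ∉ C).card : ℝ) := by
    exact_mod_cast h4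
  have h3' : ((ob Ω A).card : ℝ) ≤ ((ob Ω A \ ob Ω B).card : ℝ) + (ob Ω B).card := by
    exact_mod_cast h3
  have c0' : (0 : ℝ) < (cls N).card := by exact_mod_cast c0
  rw [← mul_div_assoc, le_div_iff₀ c0']
  have h5 : (((ob Ω A).card : ℝ) - (ob Ω B).card) * (cls N).card ≤
      ((ob Ω A \ ob Ω B).card : ℝ) * (cls N).card :=
    mul_le_mul_of_nonneg_right (by linarith) c0'.le
  linarith

private theorem Orb_take {G : Type} [Group G] (L : List (G × G)) (k : ℕ) :
    Gn (L.take k) ≤ Gn L := by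
  unfold Gn
  apply Subgroup.closure_mono
  rintro q ⟨p, hp, h⟩
  exact ⟨p, List.mem_of_mem_take hp, h⟩

private theorem Orb_split {G : Type} [Group G] (L : List (G × G)) (k : ℕ) :
    Gn L ≤ Gn (L.take k) ⊔ Gn (L.drop k) := by
  unfold Gn
  rw [← Subgroup.closure_union, Subgroup.closure_le]
  rintro q ⟨p, hp, h⟩
  rw [← List.take_append_drop k L, List.mem_append] at hp
  apply Subgroup.subset_closure
  rcases hp with hp | hp
  · exact Or.inl ⟨p, hp, h⟩
  · exact Or.inr ⟨p, hp, h⟩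

private theorem Orb_hd {G : Type} [Group G] (L : List (G × G)) (k : ℕ) :
    hd2 (L.drop k) = lt k L := by
  unfold hd2 lt
  congr 1
  rw [List.headD_eq_head?_getD, List.head?_drop]

private theorem Orb_step {G : Type} [Group G] (L : List (G × G)) (k : ℕ) (hk : k < L.length) :
    Gn (L.take k) ⊔ Subgroup.zpowers (lt k L) ≤ Gn (L.take (k + 1)) := by
  apply sup_le
  · unfold Gn
    apply Subgroup.closure_mono
    rintro q ⟨p, hp, h⟩
    refine ⟨p, ?_, h⟩
    rw [List.take_add_one]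
    exact List.mem_append_left _ hp
  · rw [Subgroup.zpowers_le]
    apply Subgroup.subset_closure
    refine ⟨L[k], ?_, Or.inr ?_⟩
    · rw [List.take_add_one, List.getElem?_eq_getElem hk]
      exact List.mem_append_right _ (by simp)
    · unfold lt
      rw [List.getElem?_eq_getElem hk]
      rfl

theorem thm_Orb : St_Orb := by
  intro hG hD hM G _ _ Ω _ _ M
  -- the class and the numbers
  have hy : ∀ L ∈ cls M, (ob Ω (Gn M)).card = (ob Ω (Gn L)).card := by
    intro L hL
    rw [hG M L (mem_cls.1 hL)]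
  have claim : ∀ k, k ≤ M.length →
      ∑ L ∈ cls M, (((ob Ω (Gn (L.take k))).card : ℝ) - (ob Ω (Gn M)).card) ≤
        (7 / 8) ^ k * Fintype.card Ω * (cls M).card := by
    intro k
    induction k with
    | zero =>
      intro _
      have h1 : ∀ L ∈ cls M, (((ob Ω (Gn (L.take 0))).card : ℝ) - (ob Ω (Gn M)).card) ≤
          (Fintype.card Ω : ℝ) := by
        intro L _
        have h2 : (ob Ω (Gn (L.take 0))).card ≤ Fintype.card Ω := by
          unfold ob
          exact Finset.card_image_le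
        have h3 : ((ob Ω (Gn (L.take 0))).card : ℝ) ≤ (Fintype.card Ω : ℝ) := by
          exact_mod_cast h2
        have h4 : (0 : ℝ) ≤ ((ob Ω (Gn M)).card : ℝ) := Nat.cast_nonneg _
        linarith
      refine (Finset.sum_le_sum h1).trans ?_
      rw [Finset.sum_const, nsmul_eq_mul, pow_zero, one_mul, mul_comm]
    | succ k ih =>
      intro hk
      have ih' := ih (by omega)
      have hk' : k < M.length := by omega
      -- the number of moved orbits
      have e1 := eDis M k (M.length - k) (fun P U _ =>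
        ((((ob Ω (Gn P)).filter fun C => ∃ w ∈ C, hd2 U • w ∉ C).card : ℕ) : ℝ))
      have e2 : ∑ L ∈ cls M, ((((ob Ω (Gn (L.take k))).filter fun C =>
          ∃ w ∈ C, hd2 ((L.drop k).take (M.length - k)) • w ∉ C).card : ℕ) : ℝ) =
          ∑ L ∈ cls M, ((((ob Ω (Gn (L.take k))).filter fun C =>
          ∃ w ∈ C, lt k L • w ∉ C).card : ℕ) : ℝ) := by
        refine Finset.sum_congr rfl fun L hL => ?_
        have e3 : (L.drop k).take (M.length - k) = L.drop k := by
          rw [List.take_of_length_le]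
          rw [List.length_drop, len_cls hL]
        rw [e3, Orb_hd]
      have e4 : ∀ L ∈ cls M, ((ob Ω (Gn (L.take k))).card : ℝ) - (ob Ω (Gn M)).card ≤
          4 * ((∑ U ∈ cls ((L.drop k).take (M.length - k)),
            ((((ob Ω (Gn (L.take k))).filter fun C => ∃ w ∈ C, hd2 U • w ∉ C).card : ℕ) : ℝ)) /
              ((cls ((L.drop k).take (M.length - k))).card : ℝ)) := by
        intro L hL
        have e3 : (L.drop k).take (M.length - k) = L.drop k := by
          rw [List.take_of_length_le]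
          rw [List.length_drop, len_cls hL]
        rw [e3, hy L hL]
        exact Orb_new hD hG (Gn (L.take k)) (Gn L) (L.drop k) (Orb_take L k) (Orb_split L k)
      have e5 := Finset.sum_le_sum e4
      rw [← Finset.mul_sum, ← e1, e2] at e5
      -- one step
      have e6 : ∀ L ∈ cls M, ((ob Ω (Gn (L.take (k + 1)))).card : ℝ) - (ob Ω (Gn M)).card ≤
          (((ob Ω (Gn (L.take k))).card : ℝ) - (ob Ω (Gn M)).card) -
            (1 / 2) * ((((ob Ω (Gn (L.take k))).filter fun C =>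
              ∃ w ∈ C, lt k L • w ∉ C).card : ℕ) : ℝ) := by
        intro L hL
        have h1 := hM (Ω := Ω) (Gn (L.take k)) (lt k L)
        have h2 := Orb_mono (Ω := Ω) (Orb_step L k (by rw [len_cls hL]; exact hk'))
        have h3 : 2 * (ob Ω (Gn (L.take (k + 1)))).card +
            ((ob Ω (Gn (L.take k))).filter fun C => ∃ w ∈ C, lt k L • w ∉ C).card ≤
            2 * (ob Ω (Gn (L.take k))).card := by omega
        have h4 : 2 * ((ob Ω (Gn (L.take (k + 1)))).card : ℝ) +
            ((((ob Ω (Gn (L.take k))).filter fun C => ∃ w ∈ C, lt k L • w ∉ C).card : ℕ) : ℝ) ≤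
            2 * ((ob Ω (Gn (L.take k))).card : ℝ) := by exact_mod_cast h3
        linarith
      have e7 := Finset.sum_le_sum e6
      rw [Finset.sum_sub_distrib _ (fun L => (1 / 2) * ((((ob Ω (Gn (L.take k))).filter fun C =>
              ∃ w ∈ C, lt k L • w ∉ C).card : ℕ) : ℝ)), ← Finset.mul_sum] at e7
      have e8 : (7 / 8 : ℝ) ^ (k + 1) * Fintype.card Ω * (cls M).card =
          (7 / 8) * ((7 / 8) ^ k * Fintype.card Ω * (cls M).card) := by ring
      rw [e8]
      linarith
  intro k hk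
  refine le_trans ?_ (claim k hk)
  have h0 : ∀ L ∈ cls M, (0 : ℝ) ≤ ((ob Ω (Gn (L.take k))).card : ℝ) - (ob Ω (Gn M)).card := by
    intro L hL
    have h1 := Orb_mono (Ω := Ω) (Orb_take L k)
    rw [hy L hL]
    have h2 : ((ob Ω (Gn L)).card : ℝ) ≤ ((ob Ω (Gn (L.take k))).card : ℝ) := by
      exact_mod_cast h1
    linarith
  calc (((cls M).filter fun L =>
        ¬ (ob Ω (Gn (L.take k))).card ≤ (ob Ω (Gn M)).card).card : ℝ)
      = ∑ L ∈ (cls M).filter (fun L =>
          ¬ (ob Ω (Gn (L.take k))).card ≤ (ob Ω (Gn M)).card), (1 : ℝ) := by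
        rw [Finset.sum_const, nsmul_eq_mul, mul_one]
    _ ≤ ∑ L ∈ (cls M).filter (fun L =>
          ¬ (ob Ω (Gn (L.take k))).card ≤ (ob Ω (Gn M)).card),
          (((ob Ω (Gn (L.take k))).card : ℝ) - (ob Ω (Gn M)).card) := by
        refine Finset.sum_le_sum fun L hL => ?_
        have h1 := (Finset.mem_filter.1 hL).2
        have h2 : (ob Ω (Gn M)).card + 1 ≤ (ob Ω (Gn (L.take k))).card := by omega
        have h3 : ((ob Ω (Gn M)).card : ℝ) + 1 ≤ ((ob Ω (Gn (L.take k))).card : ℝ) := by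
          exact_mod_cast h2
        linarith
    _ ≤ ∑ L ∈ cls M, (((ob Ω (Gn (L.take k))).card : ℝ) - (ob Ω (Gn M)).card) :=
        Finset.sum_le_sum_of_subset_of_nonneg (Finset.filter_subset _ _) fun L hL _ => h0 L hL

end Pool.Agent.PWE
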