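import Pool.Agent.PWE.St
import Pool.Agent.PWE.Bas

/-!
# Campaign PWE: a list with three joining blocks
-/

set_option autoImplicit false

open scoped BigOperators

namespace Pool.Agent.PWE

open Pool.Agent.PW Pool.Agent.PWM Pool.Agent.PWB Pool.Agent.PWX Pool.Agent.PWF Pool.Agent.PWL
  Pool.Agent.PWY
open scoped Classical

section

variable {Ω : Type} [Fintype Ω]

/-- The indicator of a point minus its mean. -/
private noncomputable def iv (w : Ω) (w' : Ω) : ℝ :=
  (if w' = w then 1 else 0) + -(1 / (Fintype.card Ω : ℝ))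

private theorem sum_iv (w : Ω) : ∑ w', iv w w' = 0 := by
  have hd : (Fintype.card Ω : ℝ) ≠ 0 := by
    have : 0 < Fintype.card Ω := Fintype.card_pos_iff.2 ⟨w⟩
    positivity
  unfold iv
  rw [Finset.sum_add_distrib, Finset.sum_ite_eq' Finset.univ w, Finset.sum_const,
    Finset.card_univ, nsmul_eq_mul]
  simp only [Finset.mem_univ, if_true]
  field_simp
  ring

private theorem nn_iv (w : Ω) : nn (iv w) ≤ 1 := by
  have hd0 : 0 < Fintype.card Ω := Fintype.card_pos_iff.2 ⟨w⟩
  have hd : (Fintype.card Ω : ℝ) ≠ 0 := by positivity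
  have h1 : ∀ w' : Ω, iv w w' ^ 2 = (if w' = w then 1 - 2 / (Fintype.card Ω : ℝ) else 0) +
      1 / (Fintype.card Ω : ℝ) ^ 2 := by
    intro w'
    unfold iv
    by_cases h : w' = w
    · rw [if_pos h, if_pos h]
      field_simp
      ring
    · rw [if_neg h, if_neg h]
      field_simp
      ring
  unfold nn
  rw [Finset.sum_congr rfl fun w' _ => h1 w', Finset.sum_add_distrib,
    Finset.sum_ite_eq' Finset.univ w, Finset.sum_const, Finset.card_univ, nsmul_eq_mul]
  simp only [Finset.mem_univ, if_true]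
  have h2 : 1 - 2 / (Fintype.card Ω : ℝ) + (Fintype.card Ω : ℝ) * (1 / (Fintype.card Ω : ℝ) ^ 2) =
      1 - 1 / (Fintype.card Ω : ℝ) := by
    field_simp
    ring
  rw [h2]
  have h3 : 0 ≤ 1 / (Fintype.card Ω : ℝ) := by positivity
  linarith

private theorem join_of_small {G : Type} [Group G] [MulAction G Ω] (B : List (G × G))
    (h : ∀ w : Ω, nn (av B (iv w)) < 1 / (Fintype.card Ω : ℝ) ^ 2) : Jn Ω B := by
  intro w w'
  have hd0 : 0 < Fintype.card Ω := Fintype.card_pos_iff.2 ⟨w⟩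
  have hd : 0 < (Fintype.card Ω : ℝ) := by positivity
  have h1 : av B (iv w) = av B (fun x => if x = w then 1 else 0) +
      fun _ => -(1 / (Fintype.card Ω : ℝ)) := by
    have h2 : iv w = (fun x : Ω => if x = w then (1 : ℝ) else 0) +
        fun _ => -(1 / (Fintype.card Ω : ℝ)) := by
      funext x
      rfl
    rw [h2, av_add, av_const]
  have h3 : (av B (iv w) w') ^ 2 ≤ nn (av B (iv w)) :=
    Finset.single_le_sum (f := fun x => (av B (iv w) x) ^ 2) (fun _ _ => sq_nonneg _)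
      (Finset.mem_univ w')
  have h4 : (av B (iv w) w') ^ 2 < (1 / (Fintype.card Ω : ℝ)) ^ 2 := by
    rw [div_pow, one_pow]
    exact lt_of_le_of_lt h3 (h w)
  have h5 : |av B (iv w) w'| < 1 / (Fintype.card Ω : ℝ) := by
    have h50 := sq_lt_sq.1 h4
    rwa [abs_of_pos (show (0 : ℝ) < 1 / (Fintype.card Ω : ℝ) by positivity)] at h50
  have h6 : av B (fun x => if x = w then (1 : ℝ) else 0) w' ≠ 0 := by
    intro h7
    have h8 : av B (iv w) w' = -(1 / (Fintype.card Ω : ℝ)) := by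
      rw [h1, Pi.add_apply, h7, zero_add]
    rw [h8, abs_neg, abs_of_pos (by positivity)] at h5
    exact lt_irrefl _ h5
  obtain ⟨x, hx, w0, hw0, hxw⟩ := av_supp B _ w' h6
  have h9 : w0 = w := by
    by_contra hc
    exact hw0 (if_neg hc)
  exact ⟨x, hx, by rw [← h9]; exact hxw⟩

end

/-- The number of the lists with a large norm. -/
private theorem bad_card {G : Type} [Group G] [Fintype G] {Ω : Type} [Fintype Ω] [MulAction G Ω]
    (M : List (G × G)) (s : ℕ) (v : Ω → ℝ) (k : ℕ) (hd : 0 < (Fintype.card Ω : ℝ))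
    (h : 3 * (Fintype.card Ω : ℝ) ^ 3 * em M s v k < (cls M).card) :
    (((cls M).filter fun L => 1 / (Fintype.card Ω : ℝ) ^ 2 ≤ nn (vv s v k L)).card : ℝ) *
      (3 * Fintype.card Ω) < (cls M).card := by
  have h1 : (((cls M).filter fun L => 1 / (Fintype.card Ω : ℝ) ^ 2 ≤ nn (vv s v k L)).card : ℝ) *
      (1 / (Fintype.card Ω : ℝ) ^ 2) ≤ em M s v k := by
    rw [← nsmul_eq_mul, ← Finset.sum_const]
    unfold em
    refine (Finset.sum_le_sum fun L hL => (Finset.mem_filter.1 hL).2).trans ?_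
    exact Finset.sum_le_sum_of_subset_of_nonneg (Finset.filter_subset _ _)
      fun _ _ _ => nn_nonneg _
  set N := (((cls M).filter fun L => 1 / (Fintype.card Ω : ℝ) ^ 2 ≤ nn (vv s v k L)).card : ℝ)
  have h2 : N ≤ (Fintype.card Ω : ℝ) ^ 2 * em M s v k := by
    rw [mul_one_div, div_le_iff₀ (by positivity)] at h1
    linarith
  calc N * (3 * (Fintype.card Ω : ℝ))
      ≤ ((Fintype.card Ω : ℝ) ^ 2 * em M s v k) * (3 * Fintype.card Ω) := by
        gcongr
    _ = 3 * (Fintype.card Ω : ℝ) ^ 3 * em M s v k := by ring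
    _ < _ := h

theorem thm_Pos : St_Pos := by
  intro hGnv hDch hMrg hOrb hShf hTrb hPrl hNtw hDec hGpl hLta hLwr hCtr hNum G _ _ Ω _ _ M l
    hl hdl hM hTr
  rcases Nat.eq_zero_or_pos (Fintype.card Ω) with hd0 | hd0
  · have he : IsEmpty Ω := Fintype.card_eq_zero_iff.1 hd0
    exact ⟨M, mem_cls.1 (self_mem M), fun t _ w => he.elim w⟩
  have hd : 0 < (Fintype.card Ω : ℝ) := by exact_mod_cast hd0
  have hc : 0 < ((cls M).card : ℝ) := by exact_mod_cast card_cls_pos M
  obtain ⟨hn1, hn2, hn3⟩ := hNum (Fintype.card Ω) l hl hdl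
  have hT := hTrb hGnv hDch hMrg hOrb hShf M hTr
  -- the norms are small
  have key : ∀ t, t < 3 → ∀ w : Ω,
      3 * (Fintype.card Ω : ℝ) ^ 3 * em M (1 + t * (64 * l)) (iv w) (64 * l) < (cls M).card := by
    intro t ht w
    have htl : t * (64 * l) ≤ 2 * (64 * l) := Nat.mul_le_mul_right _ (by omega)
    have hN := hNtw hPrl M (1 + t * (64 * l)) (iv w)
    have h1 := hCtr M (1 + t * (64 * l)) (iv w) (64 * l) ((7 / 8) ^ (48 * l) * Fintype.card Ω)
      (by positivity) (nn_iv w) (fun i hi => hN.1 i (by omega)) (fun i hi he =>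
        hLwr hDec hGpl hLta M (1 + t * (64 * l)) (iv w) i (48 * l) (6 * l) (sum_iv w) (nn_iv w)
          (by omega) hn1 he (fun a ha => hT a _ ha) hN.1 hN.2)
    rcases h1 with h1 | h1
    · calc 3 * (Fintype.card Ω : ℝ) ^ 3 * em M (1 + t * (64 * l)) (iv w) (64 * l)
          ≤ 3 * (Fintype.card Ω : ℝ) ^ 3 *
            (4 * ((7 / 8) ^ (48 * l) * Fintype.card Ω * (cls M).card)) := by gcongr
        _ = (3 * (Fintype.card Ω : ℝ) ^ 3 * (4 * ((7 / 8) ^ (48 * l) * Fintype.card Ω))) *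
            (cls M).card := by ring
        _ < 1 * (cls M).card := by gcongr
        _ = _ := one_mul _
    · calc 3 * (Fintype.card Ω : ℝ) ^ 3 * em M (1 + t * (64 * l)) (iv w) (64 * l)
          ≤ 3 * (Fintype.card Ω : ℝ) ^ 3 * ((15 / 16) ^ (64 * l) * (cls M).card) := by gcongr
        _ = (3 * (Fintype.card Ω : ℝ) ^ 3 * (15 / 16) ^ (64 * l)) * (cls M).card := by ring
        _ < 1 * (cls M).card := by gcongr
        _ = _ := one_mul _
  -- a good list
  have hgood : ∃ L ∈ cls M, ∀ t, t < 3 → ∀ w : Ω,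
      nn (vv (1 + t * (64 * l)) (iv w) (64 * l) L) < 1 / (Fintype.card Ω : ℝ) ^ 2 := by
    by_contra hcon
    push Not at hcon
    have hsub : cls M ⊆ (Finset.range 3 ×ˢ (Finset.univ : Finset Ω)).biUnion fun p =>
        (cls M).filter fun L => 1 / (Fintype.card Ω : ℝ) ^ 2 ≤
          nn (vv (1 + p.1 * (64 * l)) (iv p.2) (64 * l) L) := by
      intro L hL
      obtain ⟨t, ht, w, hw⟩ := hcon L hL
      rw [Finset.mem_biUnion]
      exact ⟨(t, w), Finset.mem_product.2 ⟨Finset.mem_range.2 ht, Finset.mem_univ _⟩,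
        Finset.mem_filter.2 ⟨hL, hw⟩⟩
    have h1 : ((cls M).card : ℝ) ≤ ∑ p ∈ Finset.range 3 ×ˢ (Finset.univ : Finset Ω),
        (((cls M).filter fun L => 1 / (Fintype.card Ω : ℝ) ^ 2 ≤
          nn (vv (1 + p.1 * (64 * l)) (iv p.2) (64 * l) L)).card : ℝ) := by
      exact_mod_cast (Finset.card_le_card hsub).trans Finset.card_biUnion_le
    have h2 : (∑ p ∈ Finset.range 3 ×ˢ (Finset.univ : Finset Ω),
        (((cls M).filter fun L => 1 / (Fintype.card Ω : ℝ) ^ 2 ≤
          nn (vv (1 + p.1 * (64 * l)) (iv p.2) (64 * l) L)).card : ℝ)) * (3 * Fintype.card Ω) <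
        ∑ p ∈ Finset.range 3 ×ˢ (Finset.univ : Finset Ω), ((cls M).card : ℝ) := by
      rw [Finset.sum_mul]
      refine Finset.sum_lt_sum_of_nonempty ?_ fun p hp => ?_
      · obtain ⟨w⟩ : Nonempty Ω := Fintype.card_pos_iff.1 hd0
        exact ⟨(0, w), Finset.mem_product.2 ⟨Finset.mem_range.2 (by norm_num), Finset.mem_univ _⟩⟩
      · exact bad_card M _ _ _ hd (key p.1 (Finset.mem_range.1 (Finset.mem_product.1 hp).1) p.2)
    rw [Finset.sum_const, Finset.card_product, Finset.card_range, Finset.card_univ,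
      nsmul_eq_mul] at h2
    push_cast at h2
    have h3 : ((cls M).card : ℝ) * (3 * Fintype.card Ω) ≤ _ :=
      mul_le_mul_of_nonneg_right h1 (by positivity)
    have h4 := lt_of_le_of_lt h3 h2
    rw [mul_comm] at h4
    exact lt_irrefl _ h4
  obtain ⟨L, hL, hLn⟩ := hgood
  exact ⟨L, mem_cls.1 hL, fun t ht => join_of_small _ fun w => hLn t ht w⟩

end Pool.Agent.PWE
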