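import Pool.Agent.PWE.St

/-!
# Campaign PWE, module Prl: the law of the products of letters
-/

set_option autoImplicit false

open scoped BigOperators

namespace Pool.Agent.PWE

open Pool.Agent.PW Pool.Agent.PWM Pool.Agent.PWB Pool.Agent.PWX Pool.Agent.PWF Pool.Agent.PWL
  Pool.Agent.PWY
open scoped Classical

private theorem Prl_dis {G : Type} [Group G] [Fintype G] (M : List (G × G)) (a b : ℕ)
    (F F' : List (G × G) → List (G × G) → List (G × G) → ℝ)
    (h : ∀ L ∈ cls M, ∑ U ∈ cls ((L.drop a).take b), F (L.take a) U (L.drop (a + b)) =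
      ∑ U ∈ cls ((L.drop a).take b), F' (L.take a) U (L.drop (a + b))) :
    ∑ L ∈ cls M, F (L.take a) ((L.drop a).take b) (L.drop (a + b)) =
      ∑ L ∈ cls M, F' (L.take a) ((L.drop a).take b) (L.drop (a + b)) := by
  rw [eDis M a b F, eDis M a b F']
  exact Finset.sum_congr rfl fun L hL => by rw [h L hL]

private theorem Prl_blk {G : Type} [Group G] [Fintype G] (M L : List (G × G)) (a : ℕ)
    (hL : L ∈ cls M) : (L.drop a).take (M.length - a) = L.drop a := by
  apply List.take_of_length_le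
  rw [List.length_drop, len_cls hL]

private theorem Prl_hd {G : Type} [Group G] [Fintype G] (L : List (G × G)) (a : ℕ) :
    hd2 (L.drop a) = lt a L := by
  rw [hd2_eq]
  unfold lt
  rw [List.getElem?_drop, add_zero]

private theorem Prl_one {G : Type} [Group G] [Fintype G] : ∀ (m : ℕ) (N : List (G × G)),
    m ≤ N.length → ∀ φ : G → ℝ, ∑ U ∈ cls N, sa (U.take m) φ =
      (1 / 2) ^ m * ((cls N).card * φ 1) + (1 - (1 / 2) ^ m) * ∑ U ∈ cls N, φ (hd2 U)
  | 0, N, _, φ => by simp [sa]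
  | m + 1, N, h, φ => by
    have e1 := Prl_dis N 1 (N.length - 1)
      (fun P U _ => (sa (U.take m) φ + sa (U.take m) (fun x => φ (x * hd2 P))) / 2)
      (fun P U _ => ((1 / 2) ^ m * φ 1 + (1 - (1 / 2) ^ m) * φ (hd2 U) +
        ((1 / 2) ^ m * φ (hd2 P) + (1 - (1 / 2) ^ m) * φ (hd2 U * hd2 P))) / 2) (by
      intro L hL
      rw [Prl_blk N L 1 hL]
      have hlen : m ≤ (L.drop 1).length := by
        rw [List.length_drop, len_cls hL]
        omega
      have i1 := Prl_one m (L.drop 1) hlen φ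
      have i2 := Prl_one m (L.drop 1) hlen (fun x => φ (x * hd2 (L.take 1)))
      simp only [one_mul] at i2
      simp only [← Finset.sum_div, Finset.sum_add_distrib, ← Finset.mul_sum, Finset.sum_const,
        nsmul_eq_mul]
      rw [i1, i2])
    have e2 : ∑ U ∈ cls N, sa (U.take (m + 1)) φ = ∑ L ∈ cls N,
        (sa (((L.drop 1).take (N.length - 1)).take m) φ +
          sa (((L.drop 1).take (N.length - 1)).take m) (fun x => φ (x * hd2 (L.take 1)))) / 2 := by
      refine Finset.sum_congr rfl fun L hL => ?_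
      rw [Prl_blk N L 1 hL]
      have hlen := len_cls hL
      cases L with
      | nil =>
        rw [List.length_nil] at hlen
        omega
      | cons p L => rfl
    have e3 : ∑ L ∈ cls N, ((1 / 2 : ℝ) ^ m * φ 1 +
        (1 - (1 / 2) ^ m) * φ (hd2 ((L.drop 1).take (N.length - 1))) +
        ((1 / 2) ^ m * φ (hd2 (L.take 1)) +
          (1 - (1 / 2) ^ m) * φ (hd2 ((L.drop 1).take (N.length - 1)) * hd2 (L.take 1)))) / 2 =
        ∑ L ∈ cls N, ((1 / 2 : ℝ) ^ m * φ 1 + (1 - (1 / 2) ^ m) * φ (lt 1 L) +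
        ((1 / 2) ^ m * φ (hd2 L) + (1 - (1 / 2) ^ m) * φ (lt 1 L * hd2 L))) / 2 := by
      refine Finset.sum_congr rfl fun L hL => ?_
      have h1 : hd2 (L.take 1) = hd2 L := by cases L <;> rfl
      rw [Prl_blk N L 1 hL, Prl_hd, h1]
    have e4 : (1 - (1 / 2 : ℝ) ^ m) * ∑ L ∈ cls N, φ (lt 1 L) =
        (1 - (1 / 2) ^ m) * ∑ L ∈ cls N, φ (hd2 L) := by
      rcases Nat.eq_zero_or_pos m with h0 | h0
      · subst h0; simp
      · rw [(eLet eFrt N φ 1).1 (by omega)]
    have e5 : (1 - (1 / 2 : ℝ) ^ m) * ∑ L ∈ cls N, φ (lt 1 L * hd2 L) =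
        (1 - (1 / 2) ^ m) * ∑ L ∈ cls N, φ (hd2 L) := by
      rcases Nat.eq_zero_or_pos m with h0 | h0
      · subst h0; simp
      · rw [(eLet eFrt N φ 0).2 (by omega)]
    rw [e2]
    refine e1.trans (e3.trans ?_)
    simp only [← Finset.sum_div, Finset.sum_add_distrib, ← Finset.mul_sum, Finset.sum_const,
      nsmul_eq_mul]
    rw [e4, e5, pow_succ]
    ring

theorem thm_Prl : St_Prl := by
  refine ⟨fun N m h φ => Prl_one m N h φ, ?_⟩
  intro G _ _ M a m h φ
  have e1 := Prl_dis M a (M.length - a)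
    (fun P U _ => sa (U.take m) (φ P))
    (fun P U _ => (1 / 2) ^ m * φ P 1 + (1 - (1 / 2) ^ m) * φ P (hd2 U)) (by
    intro L hL
    rw [Prl_blk M L a hL]
    have hlen : m ≤ (L.drop a).length := by
      rw [List.length_drop, len_cls hL]
      omega
    simp only [Finset.sum_add_distrib, ← Finset.mul_sum, Finset.sum_const, nsmul_eq_mul]
    rw [Prl_one m (L.drop a) hlen (φ (L.take a))])
  have e2 : ∑ L ∈ cls M, sa ((L.drop a).take m) (φ (L.take a)) = ∑ L ∈ cls M,
      sa (((L.drop a).take (M.length - a)).take m) (φ (L.take a)) := by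
    refine Finset.sum_congr rfl fun L hL => ?_
    rw [Prl_blk M L a hL]
  have e3 : ∑ L ∈ cls M, ((1 / 2 : ℝ) ^ m * φ (L.take a) 1 +
      (1 - (1 / 2) ^ m) * φ (L.take a) (hd2 ((L.drop a).take (M.length - a)))) =
      ∑ L ∈ cls M, ((1 / 2 : ℝ) ^ m * φ (L.take a) 1 +
      (1 - (1 / 2) ^ m) * φ (L.take a) (lt a L)) := by
    refine Finset.sum_congr rfl fun L hL => ?_
    rw [Prl_blk M L a hL, Prl_hd]
  rw [e2]
  refine e1.trans (e3.trans ?_)
  rw [Finset.sum_add_distrib, ← Finset.mul_sum, ← Finset.mul_sum]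

end Pool.Agent.PWE
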