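import Pool.Agent.PWE.StB

/-!
# Campaign PWE, module Red: after a mapping class the handles alone act transitively
-/

set_option autoImplicit false

open scoped BigOperators

namespace Pool.Agent.PWE

open Pool.Agent.PW Pool.Agent.PWM Pool.Agent.PWB Pool.Agent.PWX Pool.Agent.PWF Pool.Agent.PWL
  Pool.Agent.PWY
open scoped Classical

section

variable {G : Type} [Group G] {Ω : Type} [MulAction G Ω]

private theorem self_orb (A : Subgroup G) (w : Ω) : w ∈ orb A w := ⟨1, A.one_mem, one_smul _ _⟩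

private theorem orb_smul (A : Subgroup G) {h : G} (hh : h ∈ A) (w : Ω) : orb A (h • w) = orb A w := by
  ext w'
  constructor
  · rintro ⟨a, ha, rfl⟩
    exact ⟨a * h, A.mul_mem ha hh, by rw [mul_smul]⟩
  · rintro ⟨a, ha, rfl⟩
    exact ⟨a * h⁻¹, A.mul_mem ha (A.inv_mem hh), by rw [mul_smul, inv_smul_smul]⟩

private theorem orb_eq_of_mem (A : Subgroup G) {w w' : Ω} (h : w' ∈ orb A w) : orb A w' = orb A w := by
  obtain ⟨a, ha, rfl⟩ := h
  exact orb_smul A ha w

/-- the saturation of a set under a subgroup -/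
private def sat (B : Subgroup G) (C : Set Ω) : Set Ω := {w' | ∃ w ∈ C, ∃ b ∈ B, b • w = w'}

private theorem sat_orb {A B : Subgroup G} (h : A ≤ B) (w : Ω) : sat B (orb A w) = orb B w := by
  ext w'
  constructor
  · rintro ⟨u, ⟨a, ha, rfl⟩, b, hb, rfl⟩
    exact ⟨b * a, B.mul_mem hb (h ha), by rw [mul_smul]⟩
  · rintro ⟨b, hb, rfl⟩
    exact ⟨w, self_orb A w, b, hb, rfl⟩

variable [Fintype Ω]

private theorem ob_image {A B : Subgroup G} (h : A ≤ B) : (ob Ω A).image (sat B) = ob Ω B := by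
  unfold ob
  rw [Finset.image_image]
  refine Finset.image_congr fun w _ => ?_
  exact sat_orb h w

private theorem ob_anti {A B : Subgroup G} (h : A ≤ B) : (ob Ω B).card ≤ (ob Ω A).card := by
  rw [← ob_image h]
  exact Finset.card_image_le

private theorem same_orb {A B : Subgroup G} (h : A ≤ B) (hc : (ob Ω A).card ≤ (ob Ω B).card)
    {x : G} (hx : x ∈ B) (w : Ω) : x • w ∈ orb A w := by
  have h1 : Set.InjOn (sat B) (ob Ω A : Set (Set Ω)) := by
    rw [← Finset.card_image_iff, ob_image h]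
    exact le_antisymm (ob_anti h) hc
  have h2 : orb A (x • w) = orb A w := by
    apply h1
    · exact Finset.mem_coe.2 (Finset.mem_image_of_mem _ (Finset.mem_univ _))
    · exact Finset.mem_coe.2 (Finset.mem_image_of_mem _ (Finset.mem_univ _))
    · rw [sat_orb h, sat_orb h]
      exact orb_smul B hx w
  rw [← h2]
  exact self_orb A _

end

theorem thm_Red : St_Red := by
  intro hGnv hDch hMrg hOrb hShf G _ _ Ω _ _ g n ρ hρ hg hnum
  -- a mapping class with the smallest number of orbits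
  let xx : MCG g n → ℕ := fun φ =>
    (ob Ω (Gn (lst (ρ.comp (MulEquiv.toMonoidHom (φ : MulAut (F g n)))) 0 g))).card
  obtain ⟨φ₀, hmin⟩ : ∃ φ₀ : MCG g n, ∀ φ : MCG g n, xx φ₀ ≤ xx φ :=
    ⟨Function.argmin xx, fun φ => Function.argmin_le (f := xx) φ⟩
  refine ⟨φ₀, φ₀.2, ?_⟩
  by_contra hnT
  set ρ' : F g n →* G := ρ.comp (MulEquiv.toMonoidHom (φ₀ : MulAut (F g n))) with hρ'
  set M : List (G × G) := lst ρ' 0 g with hM
  have hlen : M.length = g := by simp [hM, lst]
  -- some list of the class has few orbits without the first handle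
  obtain ⟨L, hL, hLc⟩ : ∃ L ∈ cls M, (ob Ω (Gn (L.drop 1))).card ≤ (ob Ω (Gn M)).card := by
    by_contra hno
    push Not at hno
    have h1 := hOrb hGnv hDch hMrg (Ω := Ω) M (g - 1) (by omega)
    have h2 := hShf M 1 (g - 1) (by omega)
      (fun T => if ¬ (ob Ω (Gn T)).card ≤ (ob Ω (Gn M)).card then (1 : ℝ) else 0)
    have h3 : ∑ L ∈ cls M, (if ¬ (ob Ω (Gn ((L.drop 1).take (g - 1)))).card ≤ (ob Ω (Gn M)).card
        then (1 : ℝ) else 0) = (cls M).card := by
      rw [Finset.sum_congr rfl (g := fun _ => (1 : ℝ))]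
      · simp
      · intro L hL
        have h4 : (L.drop 1).take (g - 1) = L.drop 1 := by
          apply List.take_of_length_le
          rw [List.length_drop, len_cls hL, hlen]
        rw [h4, if_pos (not_le.2 (hno L hL))]
    have h5 : ∑ L ∈ cls M, (if ¬ (ob Ω (Gn (L.take (g - 1)))).card ≤ (ob Ω (Gn M)).card
        then (1 : ℝ) else 0) =
        (((cls M).filter fun L => ¬ (ob Ω (Gn (L.take (g - 1)))).card ≤ (ob Ω (Gn M)).card).card : ℝ) := by
      rw [Finset.sum_ite]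
      simp
    have h6 : (0 : ℝ) < (cls M).card := by exact_mod_cast card_cls_pos M
    have h7 : ((cls M).card : ℝ) ≤ (7 / 8) ^ (g - 1) * Fintype.card Ω * (cls M).card := by
      have h8 := h3.symm.trans (h2.trans h5)
      rw [← h8] at h1
      exact h1
    nlinarith
  -- realise it
  obtain ⟨ψ, hψ, hψL, -⟩ := PWH.bRea ρ' L (by omega) (mem_cls.1 hL)
  set φ₁ : MulAut (F g n) := (φ₀ : MulAut (F g n)) * ψ with hφ₁
  have hφ₁m : φ₁ ∈ MCG g n := (MCG g n).mul_mem φ₀.2 hψ
  set ρ₁ : F g n →* G := ρ.comp (MulEquiv.toMonoidHom φ₁) with hρ₁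
  have hρ₁e : ρ'.comp (MulEquiv.toMonoidHom ψ) = ρ₁ := by
    ext x
    rfl
  rw [hρ₁e] at hψL
  have hGL : Gn L = Gn M := hGnv M L (mem_cls.1 hL)
  set A : Subgroup G := Gn L with hA
  set A₁ : Subgroup G := Gn (L.drop 1) with hA₁
  have hA₁A : A₁ ≤ A := by
    apply Subgroup.closure_mono
    rintro q ⟨p, hp, hq⟩
    exact ⟨p, List.mem_of_mem_drop hp, hq⟩
  have hcA : (ob Ω A₁).card ≤ (ob Ω A).card := by
    rw [hGL]
    exact hLc
  -- the subgroup which keeps the orbits
  let E : Subgroup (F g n) :=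
    { carrier := {x | ∀ w : Ω, ρ₁ x • w ∈ orb A₁ w}
      one_mem' := fun w => by
        rw [map_one, one_smul]
        exact self_orb A₁ w
      mul_mem' := by
        intro x y hx hy w
        have h1 := hx (ρ₁ y • w)
        rw [orb_eq_of_mem A₁ (hy w)] at h1
        rw [map_mul, mul_smul]
        exact h1
      inv_mem' := by
        intro x hx w
        have h1 := hx (ρ₁ x⁻¹ • w)
        rw [map_inv, smul_inv_smul] at h1
        have h2 := orb_eq_of_mem A₁ h1
        rw [map_inv, h2]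
        exact self_orb A₁ _ }
  have hE : ∀ x, x ∈ E ↔ ∀ w : Ω, ρ₁ x • w ∈ orb A₁ w := fun x => Iff.rfl
  have hEA : ∀ x, ρ₁ x ∈ A → x ∈ E := fun x hx w => same_orb hA₁A hcA hx w
  have hvls : ∀ i : Fin g, (ρ₁ (ga i), ρ₁ (gb i)) ∈ L := by
    intro i
    rw [← hψL]
    unfold lst
    rw [List.mem_map]
    refine ⟨i, List.mem_range.2 i.2, ?_⟩
    simp [vls]
  have hga : ∀ i, ga i ∈ E := fun i => hEA _ (Subgroup.subset_closure ⟨_, hvls i, Or.inl rfl⟩)
  have hgb : ∀ i, gb i ∈ E := fun i => hEA _ (Subgroup.subset_closure ⟨_, hvls i, Or.inr rfl⟩)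
  -- it is not everything
  have hEtop : E ≠ ⊤ := by
    intro hE2
    apply hnT
    intro w w'
    obtain ⟨x, hx⟩ := hρ w w'
    have h1 : φ₁.symm x ∈ E := by
      rw [hE2]
      trivial
    have h2 := h1 w
    have h3 : ρ₁ (φ₁.symm x) = ρ x := by
      show ρ (φ₁ (φ₁.symm x)) = ρ x
      rw [MulEquiv.apply_symm_apply]
    rw [h3, hx] at h2
    obtain ⟨a, ha, haw⟩ := h2
    refine ⟨a, ?_, haw⟩
    rw [← hGL]
    exact hA₁A ha
  have hgc : ∃ j : Fin n, gc j ∉ E := by
    by_contra hno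
    push Not at hno
    exact hEtop (eq_top_of_gens hga hgb hno)
  obtain ⟨j, hj, hjmin⟩ : ∃ j : Fin n, gc j ∉ E ∧ ∀ l : Fin n, (l : ℕ) < j → gc l ∈ E := by
    obtain ⟨j, hj, hm⟩ := WellFounded.has_min (wellFounded_lt (α := Fin n)) {j | gc j ∉ E} hgc
    refine ⟨j, hj, fun l hl => ?_⟩
    by_contra h
    exact hm l h hl
  set z : Fin g := ⟨0, hg⟩ with hz
  have hmid : midc g n z j ∈ E := by
    unfold midc
    refine E.mul_mem (seg_mem fun i _ _ => ⟨hga i, hgb i⟩) (cseg_mem fun i _ hi => hjmin i ?_)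
    rw [Nat.zero_add] at hi
    exact hi
  have hsc : sc z j ∉ E := by
    intro h
    apply hj
    have h1 : (gc j : F g n) = (midc g n z j)⁻¹ * sc z j * midc g n z j := by
      unfold sc
      group
    rw [h1]
    exact E.mul_mem (E.mul_mem (E.inv_mem hmid) h) hmid
  set y : F g n := qsh z j 1 (gb z) with hy
  have hyE : y ∉ E := by
    intro h
    apply hsc
    have h1 : y = gb z * (ga z)⁻¹ * (gb z)⁻¹ * sc z j * gb z := by
      rw [hy, qsh_apply, qh_bi, zpow_one]
      rfl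
    have h2 : sc z j = (gb z * (ga z)⁻¹ * (gb z)⁻¹)⁻¹ * y * (gb z)⁻¹ := by
      rw [h1]
      group
    rw [h2]
    exact E.mul_mem (E.mul_mem (E.inv_mem (E.mul_mem (E.mul_mem (hgb z) (E.inv_mem (hga z)))
      (E.inv_mem (hgb z)))) h) (E.inv_mem (hgb z))
  -- some orbit is moved
  obtain ⟨w, hw⟩ : ∃ w : Ω, ρ₁ y • w ∉ orb A₁ w := by
    by_contra hno
    push Not at hno
    exact hyE hno
  have hm := hMrg (Ω := Ω) A₁ (ρ₁ y)
  have hpos : 0 < ((ob Ω A₁).filter fun C => ∃ w ∈ C, ρ₁ y • w ∉ C).card :=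
    Finset.card_pos.2 ⟨orb A₁ w, Finset.mem_filter.2
      ⟨Finset.mem_image_of_mem _ (Finset.mem_univ _), w, self_orb A₁ w, hw⟩⟩
  -- the new mapping class
  set φ₂ : MulAut (F g n) := φ₁ * qsh z j 1 with hφ₂
  have hφ₂m : φ₂ ∈ MCG g n := (MCG g n).mul_mem hφ₁m (qsh_mem 1)
  have hmin2 := hmin ⟨φ₂, hφ₂m⟩
  have hle : A₁ ⊔ Subgroup.zpowers (ρ₁ y) ≤
      Gn (lst (ρ.comp (MulEquiv.toMonoidHom φ₂)) 0 g) := by
    apply sup_le
    · rw [hA₁]
      unfold Gn
      rw [Subgroup.closure_le]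
      rintro q ⟨p, hp, hq⟩
      apply Subgroup.subset_closure
      refine ⟨p, ?_, hq⟩
      rw [← hψL] at hp
      unfold lst at hp ⊢
      rw [← List.map_drop, List.mem_map] at hp
      obtain ⟨i, hi, rfl⟩ := hp
      rw [List.range_eq_range', List.drop_range', List.mem_range'_1] at hi
      rw [List.mem_map]
      have hig : i < g := by omega
      have hi0 : (⟨i, hig⟩ : Fin g) ≠ z := by
        rw [hz]
        intro h
        have := congrArg Fin.val h
        simp only at this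
        omega
      refine ⟨i, List.mem_range.2 hig, ?_⟩
      simp only [vls, Nat.zero_add, hig, dif_pos]
      refine Prod.ext ?_ ?_
      · show ρ (φ₁ (qsh z j 1 (ga ⟨i, hig⟩))) = ρ (φ₁ (ga ⟨i, hig⟩))
        rw [qsh_apply, qh_a]
      · show ρ (φ₁ (qsh z j 1 (gb ⟨i, hig⟩))) = ρ (φ₁ (gb ⟨i, hig⟩))
        rw [qsh_apply, qh_b' hi0]
    · rw [Subgroup.zpowers_le]
      apply Subgroup.subset_closure
      refine ⟨vls (ρ.comp (MulEquiv.toMonoidHom φ₂)) (0 + 0), ?_, Or.inr ?_⟩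
      · unfold lst
        rw [List.mem_map]
        exact ⟨0, List.mem_range.2 hg, rfl⟩
      · simp only [vls, Nat.add_zero, hg, dif_pos]
        rfl
  have hle2 := ob_anti (Ω := Ω) hle
  have hmin3 : (ob Ω (Gn M)).card ≤
      (ob Ω (Gn (lst (ρ.comp (MulEquiv.toMonoidHom φ₂)) 0 g))).card := hmin2
  rw [hGL] at hcA
  omega

end Pool.Agent.PWE
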