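import Pool.Agent.PWE.StB

/-!
# Campaign PWE: module Sec (the section)
-/

set_option autoImplicit false

open scoped BigOperators

namespace Pool.Agent.PWE

open Pool.Agent.PW Pool.Agent.PWM Pool.Agent.PWB Pool.Agent.PWX Pool.Agent.PWF Pool.Agent.PWL
  Pool.Agent.PWY
open scoped Classical

private theorem Sec_inv {H Ω : Type} [Group H] [MulAction H Ω] (a : H) (p q : Ω)
    (h : a • p = q) : p = a⁻¹ • q := by
  rw [← h, inv_smul_smul]

theorem thm_Sec : St_Sec := by
  intro H Ω Ω' _ _ _ π S X Y hπ hS hX2 hX3 hJ hY hcl htr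
  by_cases hne : Nonempty Ω'
  swap
  · intro q q' _
    exact absurd ⟨q⟩ hne
  obtain ⟨p⟩ := hne
  choose xx hxx1 hxx2 using fun w : Ω => hJ 0 (by norm_num) (π p) w
  -- (0)
  have h0 : ∀ x ∈ X 0, x • p = xx (x • π p) • p := by
    intro x hx
    obtain ⟨a, ha, haw⟩ := hJ 1 (by norm_num) (x • π p) (π p)
    have e1 : a • x • p = p := by
      have := hS (a * x) (hX2 0 1 (by norm_num) (by norm_num) x hx a ha) p
        (by rw [mul_smul]; exact haw)
      rwa [mul_smul] at this
    have e2 : a • xx (x • π p) • p = p := by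
      have := hS (a * xx (x • π p)) (hX2 0 1 (by norm_num) (by norm_num) _ (hxx1 _) a ha) p
        (by rw [mul_smul, hxx2]; exact haw)
      rwa [mul_smul] at this
    rw [Sec_inv a _ _ e1]
    exact (Sec_inv a _ _ e2).symm
  obtain ⟨T, hT⟩ : ∃ T : Ω → Ω', ∀ w, T w = xx w • p := ⟨fun w => xx w • p, fun w => rfl⟩
  have hπT : ∀ w, π (T w) = w := by
    intro w
    rw [hT, hπ, hxx2]
  have h0' : ∀ x ∈ X 0, x • p = T (x • π p) := by
    intro x hx
    rw [hT]
    exact h0 x hx
  have hfix : ∀ x ∈ S, ∀ w, x • w = w → x • T w = T w := by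
    intro x hx w hw
    apply hS x hx
    rw [hπT]
    exact hw
  -- (1)
  have h1 : ∀ a ∈ X 1, ∀ w, a • T w = T (a • w) := by
    intro a ha w
    obtain ⟨z, hz, hzw⟩ := hJ 2 (by norm_num) (a • w) (π p)
    have e1 : z • a • xx w • p = p := by
      have := hS (z * a * xx w) (hX3 _ (hxx1 w) a ha z hz) p
        (by rw [mul_smul, mul_smul, hxx2]; exact hzw)
      rwa [mul_smul, mul_smul] at this
    have e2 : z • xx (a • w) • p = p := by
      have := hS (z * xx (a • w)) (hX2 0 2 (by norm_num) (by norm_num) _ (hxx1 _) z hz) p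
        (by rw [mul_smul, hxx2]; exact hzw)
      rwa [mul_smul] at this
    rw [hT, hT, Sec_inv z _ _ e1]
    exact (Sec_inv z _ _ e2).symm
  -- (2)
  have h2 : ∀ z ∈ X 2, ∀ w, z • T w = T (z • w) := by
    intro z hz w
    obtain ⟨a, ha, haw⟩ := hJ 1 (by norm_num) (z • w) w
    have e1 : (z * a) • T (z • w) = T (z • w) := by
      apply hfix (z * a) (hX2 1 2 (by norm_num) (by norm_num) a ha z hz)
      rw [mul_smul, haw]
    rw [mul_smul, h1 a ha, haw] at e1
    exact e1
  -- (3)
  have h3 : ∀ x ∈ X 0, ∀ w, x • T w = T (x • w) := by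
    intro x hx w
    obtain ⟨a, ha, haw⟩ := hJ 1 (by norm_num) (x • w) w
    have e1 : (a * x) • T w = T w := by
      apply hfix (a * x) (hX2 0 1 (by norm_num) (by norm_num) x hx a ha)
      rw [mul_smul, haw]
    rw [mul_smul] at e1
    have e2 : a • T (x • w) = T w := by rw [h1 a ha, haw]
    rw [Sec_inv a _ _ e1]
    exact (Sec_inv a _ _ e2).symm
  have hall : ∀ i, i < 3 → ∀ a ∈ X i, ∀ w, a • T w = T (a • w) := by
    intro i hi
    interval_cases i
    · exact h3
    · exact h1
    · exact h2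
  -- (4)
  have h4 : ∀ y ∈ Y, ∀ w, y • T w = T (y • w) := by
    intro y hy w
    obtain ⟨i, hi, hor⟩ := hY y hy
    obtain ⟨a, ha, haw⟩ := hJ i hi (y • w) w
    have e2 : a • T (y • w) = T w := by rw [hall i hi a ha, haw]
    rcases hor with hor | hor
    · have e1 : (a * y) • T w = T w := by
        apply hfix (a * y) (hor a ha)
        rw [mul_smul, haw]
      rw [mul_smul] at e1
      rw [Sec_inv a _ _ e1]
      exact (Sec_inv a _ _ e2).symm
    · have e1 : (y * a) • T (y • w) = T (y • w) := by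
        apply hfix (y * a) (hor a ha)
        rw [mul_smul, haw]
      rw [mul_smul, e2] at e1
      exact e1
  have h5 : ∀ h : H, ∀ w, h • T w = T (h • w) := by
    intro h
    have hh : h ∈ Subgroup.closure Y := by
      rw [hcl]
      exact Subgroup.mem_top h
    induction hh using Subgroup.closure_induction with
    | mem y hy => exact h4 y hy
    | one =>
      intro w
      rw [one_smul, one_smul]
    | mul a b _ _ iha ihb =>
      intro w
      rw [mul_smul, mul_smul, ihb, iha]
    | inv a _ iha =>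
      intro w
      have e := iha (a⁻¹ • w)
      rw [smul_inv_smul] at e
      exact (Sec_inv a _ _ e).symm
  have h6 : ∀ q : Ω', q = T (π q) := by
    intro q
    obtain ⟨h, hh⟩ := htr (T (π p)) q
    rw [h5] at hh
    rw [← hh, hπT]
  intro q q' hqq
  rw [h6 q, h6 q', hqq]

end Pool.Agent.PWE
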