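import Pool.Agent.PWE.St

/-!
# Campaign PWE, module Shf: the law of a block does not depend on its place

The proof follows the docstring of `St_Shf` (compare `PWY/Swp`).
-/

set_option autoImplicit false

open scoped BigOperators

namespace Pool.Agent.PWE

open Pool.Agent.PW Pool.Agent.PWM Pool.Agent.PWB Pool.Agent.PWX Pool.Agent.PWF Pool.Agent.PWL
  Pool.Agent.PWY
open scoped Classical

variable {G : Type} [Group G]

private theorem shf_cj_one (p : G × G) : cj (1 : G) p = p := by
  simp [cj]

private theorem shf_cj_mul (x y : G) (p : G × G) : cj x (cj y p) = cj (x * y) p := by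
  simp [cj, mul_assoc]

private theorem shf_cj_inj (c : G) : Function.Injective (cj c) := by
  intro p q h
  have h1 : cj c⁻¹ (cj c p) = cj c⁻¹ (cj c q) := by rw [h]
  rwa [shf_cj_mul, shf_cj_mul, inv_mul_cancel, shf_cj_one, shf_cj_one] at h1

private theorem shf_ctx (p : G × G) {S S' : List (G × G)} (h : LG S S') :
    LG (p :: S) (p :: S') := by
  have h1 := PWH.bBas.2.2.2.1 [p] S S' [] h
  simpa only [List.append_nil, List.cons_append, List.nil_append] using h1

private theorem shf_lg (R : List (G × G)) : ∀ U T : List (G × G),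
    LG (T ++ U ++ R) (U ++ T.map (cj (Dp U)⁻¹) ++ R) := by
  intro U
  induction U with
  | nil =>
    intro T
    have h1 : T.map (cj (Dp ([] : List (G × G)))⁻¹) = T := by
      have h2 : (cj (Dp ([] : List (G × G)))⁻¹ : G × G → G × G) = id := by
        funext p
        simp [Dp, shf_cj_one]
      rw [h2, List.map_id]
    rw [h1, List.append_nil, List.nil_append]
    exact PWH.bBas.1 _
  | cons u U ih =>
    intro T
    have h1 := eFrt.1 T (U ++ R) u
    have h2 := shf_ctx u (ih (T.map (cj (dd u)⁻¹)))
    have h3 : (T.map (cj (dd u)⁻¹)).map (cj (Dp U)⁻¹) = T.map (cj (Dp (u :: U))⁻¹) := by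
      rw [List.map_map]
      refine List.map_congr_left fun p _ => ?_
      rw [Function.comp_apply, shf_cj_mul]
      congr 1
      simp [Dp]
    rw [h3] at h2
    simp only [List.append_assoc, List.cons_append] at h1 h2 ⊢
    exact PWH.bBas.2.1 _ _ _ h1 h2

/-- The block of length `b` at the place `a` is moved to the beginning. -/
private def shf_f (a b : ℕ) (L : List (G × G)) : List (G × G) :=
  (L.drop a).take b ++ (L.take a).map (cj (Dp ((L.drop a).take b))⁻¹) ++ L.drop (a + b)

omit [Group G] in
private theorem shf_dec (a b : ℕ) (L : List (G × G)) :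
    L.take a ++ (L.drop a).take b ++ L.drop (a + b) = L := by
  rw [List.append_assoc, ← List.drop_drop, List.take_append_drop, List.take_append_drop]

theorem thm_Shf : St_Shf := by
  intro G _ _ M a b hM φ
  have hlen : ∀ L ∈ cls M, (L.take a).length = a ∧ ((L.drop a).take b).length = b := by
    intro L hL
    have h1 := len_cls hL
    constructor
    · rw [List.length_take]
      omega
    · rw [List.length_take, List.length_drop]
      omega
  have hmaps : ∀ L ∈ cls M, shf_f a b L ∈ cls M := by
    intro L hL
    have h1 := shf_lg (L.drop (a + b)) ((L.drop a).take b) (L.take a)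
    rw [shf_dec] at h1
    exact mem_cls.2 (lg_trans (mem_cls.1 hL) h1)
  have hinj : ∀ L ∈ cls M, ∀ L' ∈ cls M, shf_f a b L = shf_f a b L' → L = L' := by
    intro L hL L' hL' h
    obtain ⟨h1, h2⟩ := hlen L hL
    obtain ⟨h1', h2'⟩ := hlen L' hL'
    unfold shf_f at h
    rw [List.append_assoc, List.append_assoc] at h
    obtain ⟨h3, h4⟩ := List.append_inj h (h2.trans h2'.symm)
    obtain ⟨h5, h6⟩ := List.append_inj h4 (by rw [List.length_map, List.length_map, h1, h1'])
    rw [h3] at h5
    have h7 := (List.map_injective_iff.2 (shf_cj_inj _)) h5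
    rw [← shf_dec a b L, ← shf_dec a b L', h3, h6, h7]
  have himg : (cls M).image (shf_f a b) = cls M := by
    apply Finset.eq_of_subset_of_card_le
    · intro L hL
      obtain ⟨L', hL', rfl⟩ := Finset.mem_image.1 hL
      exact hmaps L' hL'
    · rw [Finset.card_image_of_injOn]
      intro L hL L' hL' h
      exact hinj L (Finset.mem_coe.1 hL) L' (Finset.mem_coe.1 hL') h
  have htake : ∀ L ∈ cls M, (shf_f a b L).take b = (L.drop a).take b := by
    intro L hL
    obtain ⟨-, h2⟩ := hlen L hL
    unfold shf_f
    rw [List.append_assoc, List.take_left' h2]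
  calc ∑ L ∈ cls M, φ ((L.drop a).take b)
      = ∑ L ∈ cls M, φ ((shf_f a b L).take b) :=
        Finset.sum_congr rfl fun L hL => by rw [htake L hL]
    _ = ∑ L ∈ (cls M).image (shf_f a b), φ (L.take b) := by
        rw [Finset.sum_image]
        intro L hL L' hL' h
        exact hinj L (Finset.mem_coe.1 hL) L' (Finset.mem_coe.1 hL') h
    _ = ∑ L ∈ cls M, φ (L.take b) := by rw [himg]

end Pool.Agent.PWE
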