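import Pool.Agent.PWE.St

/-!
# Campaign PWE: blocks of a transitive list (`St_Trb`)
-/

set_option autoImplicit false

open scoped BigOperators

namespace Pool.Agent.PWE

open Pool.Agent.PW Pool.Agent.PWM Pool.Agent.PWB Pool.Agent.PWX Pool.Agent.PWF Pool.Agent.PWL
  Pool.Agent.PWY
open scoped Classical

section

variable {G : Type} [Group G] {Ω : Type} [MulAction G Ω] [Fintype Ω]

/-- A point lies in its orbit. -/
private theorem mem_orb (A : Subgroup G) (w : Ω) : w ∈ orb A w := ⟨1, A.one_mem, one_smul _ _⟩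

/-- A subgroup is transitive if and only if it has at most one orbit. -/
private theorem tr_iff (A : Subgroup G) : Tr Ω A ↔ (ob Ω A).card ≤ 1 := by
  rw [Finset.card_le_one]
  constructor
  · intro h C hC D hD
    unfold ob at hC hD
    obtain ⟨w, -, rfl⟩ := Finset.mem_image.1 hC
    obtain ⟨w', -, rfl⟩ := Finset.mem_image.1 hD
    ext z
    constructor
    · intro _
      exact h w' z
    · intro _
      exact h w z
  · intro h w w'
    have h1 : orb A w = orb A w' := by
      apply h
      · exact Finset.mem_image_of_mem _ (Finset.mem_univ _)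
      · exact Finset.mem_image_of_mem _ (Finset.mem_univ _)
    have h2 : w' ∈ orb A w := by
      rw [h1]
      exact mem_orb A w'
    exact h2

end

theorem thm_Trb : St_Trb := by
  intro hG hD hM hO hS G _ _ Ω _ _ M hT a b hab
  have h1 := hO hG hD hM (Ω := Ω) M b (by omega)
  have h2 := hS M a b hab fun L => if ¬ Tr Ω (Gn L) then (1 : ℝ) else 0
  have h3 : (((cls M).filter fun L => ¬ Tr Ω (Gn ((L.drop a).take b))).card : ℝ) =
      ∑ L ∈ cls M, if ¬ Tr Ω (Gn ((L.drop a).take b)) then (1 : ℝ) else 0 := by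
    rw [Finset.sum_boole]
  have h4 : (((cls M).filter fun L => ¬ Tr Ω (Gn (L.take b))).card : ℝ) =
      ∑ L ∈ cls M, if ¬ Tr Ω (Gn (L.take b)) then (1 : ℝ) else 0 := by
    rw [Finset.sum_boole]
  rw [h3, h2, ← h4]
  refine le_trans ?_ h1
  have h5 : (ob Ω (Gn M)).card ≤ 1 := (tr_iff _).1 hT
  have h6 : ((cls M).filter fun L => ¬ Tr Ω (Gn (L.take b))).card ≤
      ((cls M).filter fun L => ¬ (ob Ω (Gn (L.take b))).card ≤ (ob Ω (Gn M)).card).card := by
    apply Finset.card_le_card
    intro L hL
    rw [Finset.mem_filter] at hL ⊢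
    refine ⟨hL.1, fun h7 => hL.2 ?_⟩
    exact (tr_iff _).2 (le_trans h7 h5)
  exact_mod_cast h6

end Pool.Agent.PWE
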