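import Pool.Agent.PWE.Gnv
import Pool.Agent.PWE.Dch
import Pool.Agent.PWE.Mrg
import Pool.Agent.PWE.Orb
import Pool.Agent.PWE.Shf
import Pool.Agent.PWE.Trb
import Pool.Agent.PWE.Prl
import Pool.Agent.PWE.Ntw
import Pool.Agent.PWE.Dec
import Pool.Agent.PWE.Gpl
import Pool.Agent.PWE.Lta
import Pool.Agent.PWE.Lwr
import Pool.Agent.PWE.Ctr
import Pool.Agent.PWE.Num
import Pool.Agent.PWE.Pos
import Pool.Agent.PWE.Sec
import Pool.Agent.PWE.Dsp
import Pool.Agent.PWE.Sm0
import Pool.Agent.PWE.Smx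
import Pool.Agent.PWE.Clo
import Pool.Agent.PWE.Gen
import Pool.Agent.PWE.Red
import Pool.Agent.PWE.Kil
import Pool.Agent.PWE.Deg

/-!
# Campaign PWE: assembly

A subgroup of index `d`, `g ≥ 340 (log₂ d + 1)`, is generated by the simple closed curves which it
contains, and the classes of its cover have infinite orbits.
-/

set_option autoImplicit false

namespace Pool.Agent.PWE

open Pool.Agent.PW
open scoped Classical

theorem all_Deg : St_Deg :=
  thm_Deg thm_Gnv thm_Dch thm_Mrg thm_Orb thm_Shf thm_Trb thm_Prl thm_Ntw thm_Dec thm_Gpl thm_Lta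
    thm_Lwr thm_Ctr thm_Num thm_Pos thm_Sec thm_Dsp thm_Sm0 thm_Smx thm_Clo thm_Gen thm_Red

/-- A subgroup which is generated by its simple closed curves has no class with a finite orbit. -/
theorem infinite_of_Ks {g n : ℕ} (K : Subgroup (F g n)) [K.FiniteIndex] (hK : Ks K = K)
    (hR : bdry g n ∈ K.normalCore) (f : K → ℚ) (hf : IsClass K f) (h0 : f ≠ 0) :
    (orbit K f).Infinite := by
  intro hfin
  apply h0
  have hz : ∀ x ∈ Subgroup.closure {x : F g n | x ∈ K ∧ Sm x}, ∀ hx : x ∈ K, f ⟨x, hx⟩ = 0 := by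
    have hle : Subgroup.closure {x : F g n | x ∈ K ∧ Sm x} ≤ K := by
      rw [Subgroup.closure_le]
      intro x hx
      exact hx.1
    have h1 : f 1 = 0 := by
      have h := hf.add 1 1
      rw [mul_one] at h
      linarith
    intro x hx
    induction hx using Subgroup.closure_induction with
    | mem x hx => exact fun h => thm_Kil K hR f hf hfin x h hx.2
    | one => exact fun _ => h1
    | mul x y hx hy ihx ihy =>
      intro h
      have h2 := hf.add ⟨x, hle hx⟩ ⟨y, hle hy⟩
      have h3 : (⟨x, hle hx⟩ : K) * ⟨y, hle hy⟩ = ⟨x * y, h⟩ := rfl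
      rw [h3, ihx (hle hx), ihy (hle hy)] at h2
      rw [h2, add_zero]
    | inv x hx ih =>
      intro h
      have h2 := hf.add ⟨x, hle hx⟩ ⟨x⁻¹, h⟩
      have h3 : (⟨x, hle hx⟩ : K) * ⟨x⁻¹, h⟩ = 1 := Subtype.ext (mul_inv_cancel x)
      rw [h3, ih (hle hx), h1] at h2
      linarith
  funext x
  have h4 : (x : F g n) ∈ Ks K := by
    rw [hK]
    exact x.2
  exact hz x h4 x.2

/-- Putman-Wieland for the covers of small degree. -/
theorem infinite_of_degree {g n : ℕ} (K : Subgroup (F g n)) (hi : K.index ≠ 0)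
    (hg : 340 * (Nat.log 2 K.index + 1) ≤ g) (hR : bdry g n ∈ K.normalCore) (f : K → ℚ)
    (hf : IsClass K f) (h0 : f ≠ 0) : (orbit K f).Infinite := by
  have : K.FiniteIndex := ⟨hi⟩
  exact infinite_of_Ks K (all_Deg g n K hi hg) hR f hf h0

end Pool.Agent.PWE
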