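import Pool.Agent.PWE.St

/-!
# Campaign PWE, part Gnv: the group generated by the entries of a list does not change
-/

set_option autoImplicit false

namespace Pool.Agent.PWE

open Pool.Agent.PW Pool.Agent.PWM Pool.Agent.PWB Pool.Agent.PWX Pool.Agent.PWF Pool.Agent.PWL
  Pool.Agent.PWY
open scoped Classical

private theorem gnv_mem {G : Type} [Group G] {L : List (G × G)} {p : G × G} (h : p ∈ L) :
    In (Gn L) p :=
  ⟨Subgroup.subset_closure ⟨p, h, Or.inl rfl⟩, Subgroup.subset_closure ⟨p, h, Or.inr rfl⟩⟩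

private theorem gnv_le {G : Type} [Group G] {L L' : List (G × G)} (h : LG L L') :
    Gn L' ≤ Gn L := by
  obtain ⟨hl, h⟩ := h
  obtain ⟨y, hy, hy2⟩ := h 0 (fun i => (L[i]?).getD (1, 1)) (by
    intro i hi
    simp [hi])
  have h3 := hy.inn (H := Gn L) (by
    intro l _ h4
    have h5 : l < L.length := by omega
    have h6 : (L[l]?).getD (1, 1) = L[l] := by simp [h5]
    rw [h6]
    exact gnv_mem (List.getElem_mem h5))
  have h7 : ∀ p ∈ L', In (Gn L) p := by
    intro p hp
    obtain ⟨i, hi, rfl⟩ := List.getElem_of_mem hp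
    have h8 := hy2 i hi
    have h9 := h3 (0 + i) (by omega) (by omega)
    rw [h8] at h9
    exact h9
  refine (Subgroup.closure_le _).2 ?_
  rintro q ⟨p, hp, h8⟩
  rcases h8 with h8 | h8
  · rw [h8]
    exact (h7 p hp).1
  · rw [h8]
    exact (h7 p hp).2

theorem thm_Gnv : St_Gnv := by
  intro G _ _ L L' h
  have : Fintype G := Fintype.ofFinite G
  exact le_antisymm (gnv_le h) (gnv_le (lg_symm h))

end Pool.Agent.PWE
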