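import Pool.Agent.PWY.Dis
import Pool.Agent.PWY.Let
import Pool.Agent.PWL.Frt
import Pool.Agent.PWL.Cub

/-!
# Campaign PWE: definitions

Aim: a subgroup `K` of index `d ≤ exp (c g)` of `F g n` is generated by the simple closed curves which
it contains; so Putman-Wieland holds for all covers of degree at most `exp (c g)`, Galois or not.

`G` is a finite group which acts on a finite set `Ω` with `d` points.  A list of pairs is a list of handle values.
`open scoped Classical` is in force.
-/

set_option autoImplicit false

open scoped BigOperators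

namespace Pool.Agent.PWE

open Pool.Agent.PW Pool.Agent.PWM Pool.Agent.PWB Pool.Agent.PWX Pool.Agent.PWF Pool.Agent.PWL
  Pool.Agent.PWY
open scoped Classical

theorem eFrt : St_Frt := thm_Frt

theorem eDis : St_Dis := thm_Dis

theorem eLet : St_Let := thm_Let

theorem eCub : St_Cub := thm_Cub

variable {G : Type} [Group G] {Ω : Type} [MulAction G Ω]

/-! ### Functions on the set -/

/-- The action on the functions. -/
def act (g : G) (v : Ω → ℝ) (w : Ω) : ℝ := v (g⁻¹ • w)

/-- The mean of `v` and its image. -/
noncomputable def hf (g : G) (v : Ω → ℝ) (w : Ω) : ℝ := (v w + act g v w) / 2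

/-- The means with the second entries of the pairs of a list, from left to right. -/
noncomputable def av : List (G × G) → (Ω → ℝ) → Ω → ℝ
  | [], v => v
  | p :: L, v => av L (hf p.2 v)

/-- The mean of `φ` over the products of the second entries of the pairs of a list (later entries on the left). -/
noncomputable def sa : List (G × G) → (G → ℝ) → ℝ
  | [], φ => φ 1
  | p :: L, φ => (sa L φ + sa L (fun x => φ (x * p.2))) / 2

variable [Fintype Ω]

/-- The scalar product. -/
def ip (u v : Ω → ℝ) : ℝ := ∑ w, u w * v w

/-- The square of the norm. -/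
def nn (v : Ω → ℝ) : ℝ := ∑ w, v w ^ 2

/-- The square of the displacement of `v` by `g`. -/
def dp (g : G) (v : Ω → ℝ) : ℝ := ∑ w, (act g v w - v w) ^ 2

/-- The first entry of the pair at the place `a`. -/
def la (a : ℕ) (L : List (G × G)) : G := ((L[a]?).getD (1, 1)).1

/-- The image of `v` after the `i` letters at the places `s, s + 1, ...`. -/
noncomputable def vv (s : ℕ) (v : Ω → ℝ) (i : ℕ) (L : List (G × G)) : Ω → ℝ :=
  av ((L.drop s).take i) v

/-- The sum over the class of the squares of the norms. -/
noncomputable def em [Fintype G] (M : List (G × G)) (s : ℕ) (v : Ω → ℝ) (i : ℕ) : ℝ :=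
  ∑ L ∈ cls M, nn (vv s v i L)

/-- The sum over the class of the squares of the displacements by the next letter. -/
noncomputable def dl [Fintype G] (M : List (G × G)) (s : ℕ) (v : Ω → ℝ) (i : ℕ) : ℝ :=
  ∑ L ∈ cls M, dp (lt (s + i) L) (vv s v i L)

/-! ### Orbits -/

/-- The orbit of a point. -/
def orb (A : Subgroup G) (w : Ω) : Set Ω := {w' | ∃ a ∈ A, a • w = w'}

/-- The set of the orbits. -/
noncomputable def ob (Ω : Type) [MulAction G Ω] [Fintype Ω] (A : Subgroup G) : Finset (Set Ω) :=
  Finset.univ.image fun w : Ω => orb A w

omit [Fintype Ω] in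
/-- The subgroup is transitive. -/
def Tr (Ω : Type) [MulAction G Ω] (A : Subgroup G) : Prop := ∀ w w' : Ω, ∃ a ∈ A, a • w = w'

omit [Fintype Ω] in
/-- The products of the letters of a block join all pairs of points. -/
def Jn (Ω : Type) [MulAction G Ω] (B : List (G × G)) : Prop :=
  ∀ w w' : Ω, ∃ x ∈ Ds (⊤ : Subgroup G) (B.map Prod.snd), x • w = w'

/-! ### Surfaces -/

/-- The simple closed curves, as elements of the group of the surface: the images of the `b i`. -/
def Sm {g n : ℕ} (x : F g n) : Prop := ∃ φ ∈ MCG g n, ∃ i : Fin g, x = φ (gb i)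

/-- The letters `b 0, b 1, ...`. -/
def gbl (g n : ℕ) : List (F g n) := (List.finRange g).map gb

end Pool.Agent.PWE
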