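import Pool.Agent.PWE.StB

/-!
# Campaign PWE, module Smx: more simple elements
-/

set_option autoImplicit false

open scoped BigOperators

namespace Pool.Agent.PWE

open Pool.Agent.PW Pool.Agent.PWM Pool.Agent.PWB Pool.Agent.PWX Pool.Agent.PWF Pool.Agent.PWL
  Pool.Agent.PWY
open scoped Classical

private theorem smx_conj {g n : ℕ} (x : F g n) : MulAut.conj x ∈ MCG g n := by
  refine ⟨?_, fun j => ?_⟩
  · exact (isConj_iff.mpr ⟨x, by rw [MulAut.conj_apply]⟩).symm
  · exact (isConj_iff.mpr ⟨x, by rw [MulAut.conj_apply]⟩).symm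

private theorem smx_map {g n : ℕ} (x : F g n) (hx : Sm x) (φ : MulAut (F g n)) (hφ : φ ∈ MCG g n) :
    Sm (φ x) := by
  obtain ⟨ψ, hψ, i, rfl⟩ := hx
  exact ⟨φ * ψ, (MCG g n).mul_mem hφ hψ, i, rfl⟩

private theorem smx_cons {H : Type} [Group H] (a : H) (l : List H) (x : H) :
    x ∈ Ds ⊤ (a :: l) ↔ x ∈ Ds ⊤ l ∨ ∃ d ∈ Ds ⊤ l, d * a = x := by
  rw [Ds, if_pos (Subgroup.mem_top a), Finset.mem_union, Finset.mem_image]

private theorem smx_nil {H : Type} [Group H] (x : H) : x ∈ Ds (⊤ : Subgroup H) [] ↔ x = 1 := by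
  rw [Ds, Finset.mem_singleton]

private theorem smx_fix {g n : ℕ} (θ : MulAut (F g n)) :
    ∀ l : List (F g n), (∀ y ∈ l, θ y = y) → ∀ x ∈ Ds ⊤ l, θ x = x := by
  intro l
  induction l with
  | nil =>
    intro _ x hx
    rw [smx_nil] at hx
    rw [hx, map_one]
  | cons a l ih =>
    intro hl x hx
    rw [smx_cons] at hx
    rcases hx with hx | ⟨d, hd, rfl⟩
    · exact ih (fun y hy => hl y (List.mem_cons_of_mem _ hy)) x hx
    · rw [map_mul, ih (fun y hy => hl y (List.mem_cons_of_mem _ hy)) d hd,
        hl a List.mem_cons_self]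

private theorem smx_split (g : ℕ) (i : Fin g) :
    List.finRange g = (List.finRange g).take i ++ i :: (List.finRange g).drop (i + 1) := by
  have hi : (i : ℕ) < (List.finRange g).length := by
    rw [List.length_finRange]; exact i.2
  have h1 := List.drop_eq_getElem_cons hi
  have h2 : (List.finRange g)[(i : ℕ)] = i := by
    rw [List.getElem_finRange]
    rfl
  rw [h2] at h1
  conv_lhs => rw [← List.take_append_drop (i : ℕ) (List.finRange g), h1]

theorem thm_Smx : St_Smx := by
  intro hD h0 g n
  refine ⟨fun x hx φ hφ => smx_map x hx φ hφ, fun x y hx => ?_, ?_⟩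
  · have := smx_map x hx (MulAut.conj y) (smx_conj y)
    rwa [MulAut.conj_apply] at this
  · intro i θ hθ hfix
    have hs := smx_split g i
    have hnd : ((List.finRange g).take i ++ i :: (List.finRange g).drop (i + 1)).Nodup := by
      rw [← hs]; exact List.nodup_finRange g
    rw [List.nodup_append] at hnd
    obtain ⟨-, hnd2, hnd3⟩ := hnd
    rw [List.nodup_cons] at hnd2
    have hsg : gbl g n = ((gbl g n).take i) ++ gb i :: (gbl g n).drop (i + 1) := by
      unfold gbl
      rw [← List.map_take, ← List.map_drop]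
      conv_lhs => rw [hs]
      rw [List.map_append, List.map_cons]
    have hdone : ∀ y : F g n, y ∈ Ds ⊤ (gbl g n) → θ y = 1 ∨ Sm (θ y) := by
      intro y hy
      rcases h0 y hy with h | h
      · left; rw [h, map_one]
      · right; exact smx_map y h θ hθ
    refine ⟨fun x hx => ?_, fun x hx => ?_⟩
    · have hxf : θ x = x := by
        refine smx_fix θ _ ?_ x hx
        intro y hy
        unfold gbl at hy
        rw [← List.map_drop, List.mem_map] at hy
        obtain ⟨j, hj, rfl⟩ := hy
        refine hfix j ?_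
        rintro rfl
        exact hnd2.1 hj
      have hmem : x * gb i ∈ Ds ⊤ (gbl g n) := by
        have h1 : x * gb i ∈ Ds ⊤ (gb i :: (gbl g n).drop (i + 1)) := by
          rw [smx_cons]
          exact Or.inr ⟨x, hx, rfl⟩
        refine hD.2.1 (gbl g n) (gb i :: (gbl g n).drop (i + 1)) ?_ h1
        conv_rhs => rw [hsg]
        exact List.sublist_append_right _ _
      have := hdone _ hmem
      rwa [map_mul, hxf] at this
    · have hxf : θ x = x := by
        refine smx_fix θ _ ?_ x hx
        intro y hy
        unfold gbl at hy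
        rw [← List.map_take, List.mem_map] at hy
        obtain ⟨j, hj, rfl⟩ := hy
        refine hfix j ?_
        intro hji
        exact hnd3 j hj i List.mem_cons_self hji
      have hmem : gb i * x ∈ Ds ⊤ (gbl g n) := by
        have h1 : gb i ∈ Ds ⊤ (gb i :: (gbl g n).drop (i + 1)) := by
          rw [smx_cons]
          refine Or.inr ⟨1, ?_, one_mul _⟩
          have h3 := hD.2.1 ((gbl g n).drop (i + 1)) [] (List.nil_sublist _)
          exact h3 ((smx_nil _).2 rfl)
        have h2 := hD.1 ((gbl g n).take i) (gb i :: (gbl g n).drop (i + 1)) x (gb i) hx h1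
        rwa [← hsg] at h2
      have := hdone _ hmem
      rwa [map_mul, hxf] at this

end Pool.Agent.PWE
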