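import Pool.Agent.PWE.Defs

/-!
# Campaign PWE: statements (covers of degree at most `exp (c g)`)

Idea.  `Ω = F ⧸ K`, `d` points.  `X₁, X₂, X₃`: the products of the letters of three consecutive blocks of `O(log d)` handles
(`Ds ⊤`, later letters on the left); all these products, also over several blocks, are simple closed curves (`St_Sm0`).
(1) (`St_Exp` part) If the uniform law on the class of a list is used, each product of letters has the law of one letter, and this gives
for the means `vv` of a function `v` with sum `0`: `em i - em (i + m) ≤ dl i` (`St_Ntw`), `em (i + 1) = em i - dl i / 4`.  So `dl` decays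
exponentially along the places (`St_Dec`).  A transitive block does not allow this (`St_Gpl`, `St_Lwr`), unless `dl i ≥ em i / 4`: so `em`
decays exponentially (`St_Ctr`), the means become nearly constant, and the products of the letters of a block join all the pairs of points (`St_Pos`).
(2) If each `X_i` joins all pairs of points then `K` is generated by simple closed curves (`St_Sec`, `St_Gen`).

`open scoped Classical` is in force everywhere.
-/

set_option autoImplicit false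

open scoped BigOperators

namespace Pool.Agent.PWE

open Pool.Agent.PW Pool.Agent.PWM Pool.Agent.PWB Pool.Agent.PWX Pool.Agent.PWF Pool.Agent.PWL
  Pool.Agent.PWY
open scoped Classical

/-! ### Groups of lists, orbits -/

/-- (Gnv) The group generated by the entries does not change.
Proof.  `x i = (L[i]?).getD (1, 1)` has `At 0 L x`; `LG` gives `y` with `Go 0 L.length x y`, `At 0 L' y`; `Go.inn` (PWX/Basic) with `H = Gn L`: all entries of `L'` are in `Gn L`, so `Gn L' ≤ Gn L`.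
The other inclusion from `lg_symm` (PWY/Base; `Fintype.ofFinite`). -/
def St_Gnv : Prop := ∀ {G : Type} [Group G] [Finite G] (L L' : List (G × G)), LG L L' → Gn L' = Gn L

/-- (Dch) A letter lies in a subgroup which does not contain the whole list with probability at most 3/4.
Proof.  `c = |cls N|`, `k = N.length`, `v j` = number of the `L ∈ cls N` with `lt i L ∈ A` for all `i < j`; `v 0 = c`, `v 1 = q` = the number in question (`hd2_eq`).
(a) `3 v (j + 1) ≤ v j + 2 v (j + 2)` for `j + 2 ≤ k`: by `St_Dis` (block `j, ..., k - 1`) it is enough that for every list `U` with `|U| ≥ 2`: `3 #{hd2 ∈ A} ≤ |cls U| + 2 #{lt 0 ∈ A, lt 1 ∈ A}` on `cls U`: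
`St_Let` gives `#{hd2 ∈ A} = #{lt 1 ∈ A} = #{lt 1 * hd2 ∈ A}`, and of the three elements `x, y, y x` none, one or all three are in `A`.
(b) so `2 (v (j + 1) - v (j + 2)) ≤ v j - v (j + 1)`, hence `v 1 - v k ≤ v 0 - v 1`, `v k ≥ 2 q - c`.
(c) The map `L ↦ L.map rt` is an injective map of `cls N` to itself (`bBas` (6) and app, induction), its second entries are `b a b⁻¹`: the number of the `L` with all `b a b⁻¹ ∈ A` is also `≥ 2 q - c`.
If `4 q > 3 c` then `2 (2 q - c) > c`, so some `L` has all `b ∈ A` and all `b a b⁻¹ ∈ A`: `Gn L ≤ A`, and `Gn L = Gn N` (`St_Gnv`): contradiction. -/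
def St_Dch : Prop := St_Gnv → ∀ {G : Type} [Group G] [Fintype G] (N : List (G × G))
  (A : Subgroup G), ¬ Gn N ≤ A →
  4 * ((cls N).filter fun L => hd2 L ∈ A).card ≤ 3 * (cls N).card

/-- (Mrg) One more element and the number of orbits.
Proof.  `A' = A ⊔ zpowers b`.  Every orbit `C` of `A` is contained in exactly one orbit of `A'` (map `F`, onto).  Call `C` moved if `∃ w ∈ C, b • w ∉ C`.  If the fibre of `F` over `C'` has one element `C` then `C = C'` is
invariant under `b`, so not moved.  So for every `C'`: `2 + (number of the moved C in the fibre) ≤ 2 * (number of the C in the fibre)`.  Sum over `C'` (`Finset.card_eq_sum_card_fiberwise`). -/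
def St_Mrg : Prop := ∀ {G : Type} [Group G] {Ω : Type} [Fintype Ω] [MulAction G Ω] (A : Subgroup G)
  (b : G), 2 * (ob Ω (A ⊔ Subgroup.zpowers b)).card +
    ((ob Ω A).filter fun C => ∃ w ∈ C, b • w ∉ C).card ≤ 2 * (ob Ω A).card

/-- (Orb) After `k` handles the orbits are those of the whole list, with large probability.
Proof.  `x_k L = (ob Ω (Gn (L.take k))).card`, `y = (ob Ω (Gn M)).card = (ob Ω (Gn L)).card` (`St_Gnv`); `A ≤ B` implies `|ob B| ≤ |ob A|`.  Claim: `∑_L (x_k L - y) ≤ (7 / 8) ^ k |Ω| |cls M|` for `k ≤ |M|`; then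
count (`x_k L - y ≥ 1` for the bad `L`).  `k = 0`: `Gn [] = ⊥`, `x_0 ≤ |Ω|`.  Step, `k < |M|`: `P = L.take k`, `A = Gn P`, `U = L.drop k`, `b = lt k L = hd2 U`; `A ⊔ zpowers b ≤ Gn (L.take (k + 1))`, so `2 x_(k+1) L ≤ 2 x_k L - m L`, `m L` the number of the
orbits `C` of `A` which `b` moves (`St_Mrg`).  If an orbit `C` of `A` is not an orbit of `Gn L = A ⊔ Gn U` then `Gn U` is not contained in the stabiliser of `C` (the subgroup of the `g` with `w ∈ C ↔ g • w ∈ C`), so by `St_Dis` (block `k, ..., |M| - 1`) and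
`St_Dch` the conditional mean of `m` is `≥ (1 / 4) * (number of the orbits of A which are not orbits of Gn L) ≥ (x_k - y) / 4`.  So `∑ (x_(k+1) - y) ≤ (1 - 1 / 8) ∑ (x_k - y)`. -/
def St_Orb : Prop := St_Gnv → St_Dch → St_Mrg → ∀ {G : Type} [Group G] [Fintype G] {Ω : Type}
  [Fintype Ω] [MulAction G Ω] (M : List (G × G)) (k : ℕ), k ≤ M.length →
  (((cls M).filter fun L => ¬ (ob Ω (Gn (L.take k))).card ≤ (ob Ω (Gn M)).card).card : ℝ) ≤
    (7 / 8) ^ k * Fintype.card Ω * (cls M).card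

/-- (Shf) The law of a block does not depend on its place.
Proof.  `f L = U ++ T.map (cj (Dp U)⁻¹) ++ R` for `T = L.take a`, `U = (L.drop a).take b`, `R = L.drop (a + b)` is an injective map of `cls M` to itself with `(f L).take b = U`; compare PWY/Swp (the same proof; there `a = b`, and the lemmas are private). -/
def St_Shf : Prop := ∀ {G : Type} [Group G] [Fintype G] (M : List (G × G)) (a b : ℕ),
  a + b ≤ M.length → ∀ φ : List (G × G) → ℝ,
  ∑ L ∈ cls M, φ ((L.drop a).take b) = ∑ L ∈ cls M, φ (L.take b)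

/-- (Trb) A block of a transitive list is transitive, with large probability.
Proof.  `St_Orb` for `k = b`, transported to the place `a` by `St_Shf` (indicator function).  `Tr Ω A` iff `(ob Ω A).card ≤ 1`. -/
def St_Trb : Prop := St_Gnv → St_Dch → St_Mrg → St_Orb → St_Shf →
  ∀ {G : Type} [Group G] [Fintype G] {Ω : Type} [Fintype Ω] [MulAction G Ω] (M : List (G × G)),
  Tr Ω (Gn M) → ∀ a b : ℕ, a + b ≤ M.length →
  (((cls M).filter fun L => ¬ Tr Ω (Gn ((L.drop a).take b))).card : ℝ) ≤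
    (7 / 8) ^ b * Fintype.card Ω * (cls M).card

/-! ### Laws of products and displacements -/

/-- (Prl) The mean over the products of the letters of `m` handles: all nonempty products have the law of one letter.
Proof.  (1) Induction on `m`, for all `N`, `φ`.  `m = 0`: `sa [] φ = φ 1`.  `m + 1 ≤ |N|`: `U = p :: U'`, `sa (U.take (m + 1)) φ = (sa (U'.take m) φ + sa (U'.take m) (φ (· * p.2))) / 2`.  `St_Dis` (block `1, ..., |N| - 1`, `p` fixed; `hd2 (U.take 1) = p.2`) and the induction hypothesis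
for the class of `U'`: the sum over `cls N` is `(1 / 2) ∑_U [(1/2)^m φ 1 + (1 - (1/2)^m) φ (lt 1 U) + (1/2)^m φ (hd2 U) + (1 - (1/2)^m) φ (lt 1 U * hd2 U)]`, and `St_Let` (if `m ≥ 1`, then `|N| ≥ 2`; for `m = 0` the coefficient vanishes).
(2) from (1) with `St_Dis` (block `a, ..., |M| - 1`, the first `a` handles fixed). -/
def St_Prl : Prop :=
  (∀ {G : Type} [Group G] [Fintype G] (N : List (G × G)) (m : ℕ), m ≤ N.length → ∀ φ : G → ℝ,
    ∑ U ∈ cls N, sa (U.take m) φ =
      (1 / 2) ^ m * ((cls N).card * φ 1) + (1 - (1 / 2) ^ m) * ∑ U ∈ cls N, φ (hd2 U)) ∧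
  ∀ {G : Type} [Group G] [Fintype G] (M : List (G × G)) (a m : ℕ), a + m ≤ M.length →
    ∀ φ : List (G × G) → G → ℝ,
    ∑ L ∈ cls M, sa ((L.drop a).take m) (φ (L.take a)) =
      (1 / 2) ^ m * ∑ L ∈ cls M, φ (L.take a) 1 +
        (1 - (1 / 2) ^ m) * ∑ L ∈ cls M, φ (L.take a) (lt a L)

/-- (Ntw) The two relations of `em` and `dl`.
Proof.  (1) `vv_succ`, `nn_hf` (PWE/Bas).  (2) For `u = vv s v i L`, which depends only on `L.take (s + i)`, and `u' = vv s v (i + m) L = av ((L.drop (s + i)).take m) u` (`vv_add`): `nn u - nn u' ≤ 2 (nn u - ip u' u)` (as `nn (u' - u) ≥ 0`) and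
`ip u' u = sa (..) (fun x => ip (act x u) u)` (`ip_av`), `nn u - ip (act x u) u = dp x u / 2` (`dp_eq`).  `St_Prl` (2) for `φ P x = ip (act x (vv s v i P)) (vv s v i P)`: `∑ (nn u - ip u' u) = (1 - (1/2)^m) ∑ (nn u - ip (act (lt (s + i) L) u) u) = (1 - (1/2)^m) dl i / 2`. -/
def St_Ntw : Prop := St_Prl → ∀ {G : Type} [Group G] [Fintype G] {Ω : Type} [Fintype Ω]
  [MulAction G Ω] (M : List (G × G)) (s : ℕ) (v : Ω → ℝ),
  (∀ i, s + i + 1 ≤ M.length → em M s v (i + 1) = em M s v i - dl M s v i / 4) ∧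
  ∀ i m, s + i + m ≤ M.length → em M s v i - em M s v (i + m) ≤ dl M s v i

/-- (Dec) Exponential decay (real numbers).
Proof.  Induction on `r`.  Step: `δ k ≤ δ i / 4 ^ r`, `k ≤ i + 16 r`; `∑_(k ≤ j < k + 16) δ j = 4 (e k - e (k + 16)) ≤ 4 δ k`, so some `j` in this range has `δ j ≤ δ k / 4`. -/
def St_Dec : Prop := ∀ (N : ℕ) (e δ : ℕ → ℝ), (∀ i, 0 ≤ δ i) →
  (∀ i, i + 1 ≤ N → e (i + 1) = e i - δ i / 4) → (∀ i m, i + m ≤ N → e i - e (i + m) ≤ δ i) →
  ∀ r i, i + 16 * r ≤ N → ∃ k, i ≤ k ∧ k ≤ i + 16 * r ∧ δ k ≤ δ i / 4 ^ r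

/-- (Gpl) A function with sum zero is moved by some entry of a transitive list.
Proof.  Let `D` be the sum on the right.  If `Ω` is empty or `v` constant (so `0`) the claim is clear (`D ≥ 0`).  Let `m < M'` be the minimum and the maximum of `v`; some `t` in the range of `v`, `t > m`, has no value of `v` in `(t - (M' - m) / d, t)` (otherwise the at most `d` values
cannot reach from `M'` to `m`).  `C = {w | v w ≥ t}` is neither empty nor everything, so some entry `y` of the list does not map `C` to itself (the `y` with `y C = C` form a subgroup; `Tr`), so `w ∈ C`, `y • w ∉ C` for some `w` (finite set), and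
`(act y v (y • w) - v (y • w)) ^ 2 = (v w - v (y • w)) ^ 2 ≥ ((M' - m) / d) ^ 2`.  So `D ≥ ((M' - m) / d) ^ 2`; and `|v w| ≤ M' - m` (sum zero), `nn v ≤ d (M' - m) ^ 2 ≤ d ^ 3 D`. -/
def St_Gpl : Prop := ∀ {G : Type} [Group G] {Ω : Type} [Fintype Ω] [MulAction G Ω]
  (B : List (G × G)) (v : Ω → ℝ), Tr Ω (Gn B) → ∑ w, v w = 0 →
  nn v ≤ (Fintype.card Ω : ℝ) ^ 3 * (B.map fun p => dp p.1 v + dp p.2 v).sum

/-- (Lta) Displacements by the letters at the later places.
Proof.  (1) `St_Dis` (block `s + i, ..., |M| - 1`) and `St_Let` (1) for the class of this block and `φ = fun x => dp x (vv s v i P)`, `P` the first `s + i` handles.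
(2) Let `c = b a b⁻¹` for the pair `(a, b)` at the place `j`.  The map which replaces this pair by `rt (a, b) = (b⁻¹, c)` is an injective map of `cls M` to itself which does not change the first `s + i` handles, so `∑ dp c (vv ..) = ∑ dp b (vv ..) = dl`.  `a = b⁻¹ c b`:
`‖a v - v‖ = ‖c b v - b v‖ ≤ ‖b v - v‖ + ‖c v - v‖ + ‖b v - v‖`, so `dp a v ≤ 6 dp b v + 3 dp c v` (`dp_conj` in PWE/Bas). -/
def St_Lta : Prop := ∀ {G : Type} [Group G] [Fintype G] {Ω : Type} [Fintype Ω]
  [MulAction G Ω] (M : List (G × G)) (s : ℕ) (v : Ω → ℝ) (i j : ℕ), s + i ≤ j → j < M.length →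
  ∑ L ∈ cls M, dp (lt j L) (vv s v i L) = dl M s v i ∧
  ∑ L ∈ cls M, dp (la j L) (vv s v i L) ≤ 9 * dl M s v i

/-- (Lwr) The displacement by one letter is not small.
Proof.  `c = |cls M|`, `d = |Ω|`.  The last three hypotheses are `St_Trb` and `St_Ntw`.  Suppose `dl i < em i / 4`; so `em i > 0` (`dl ≥ 0`).  `St_Dec` (for `e = em`, `δ = dl`, `N = M.length - s`) with `St_Ntw`: `k`, `i ≤ k ≤ i + 16 R`, `dl k ≤ dl i / 4 ^ R`.  `em k ≥ em i - dl i ≥ (3 / 4) em i` (`St_Ntw` (2)).  `B = (L.drop (s + k)).take b`, length `b`.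
For the `L` with `Tr Ω (Gn B)`: `St_Gpl` (the sum of `vv` is the sum of `v`, `sum_vv` in PWE/Bas) gives `nn (vv s v k L) ≤ d ^ 3 ∑_(p ∈ B) ..`, the sum over all `L ∈ cls M` is `≤ d ^ 3 * b * 10 * dl k` (`St_Lta` for the places `j = s + k + l`, `l < b`).  The other `L` are at most `(7 / 8) ^ b d c ≤ em i / 4` in number (`St_Trb`) and
have `nn (vv ..) ≤ nn v ≤ 1`.  So `(3 / 4) em i ≤ em k ≤ em i / 4 + 10 b d ^ 3 (em i / 4) / 4 ^ R`, that is `4 ^ R ≤ 5 b d ^ 3`: contradiction. -/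
def St_Lwr : Prop := St_Dec → St_Gpl → St_Lta →
  ∀ {G : Type} [Group G] [Fintype G] {Ω : Type} [Fintype Ω] [MulAction G Ω] (M : List (G × G))
  (s : ℕ) (v : Ω → ℝ) (i b R : ℕ), ∑ w, v w = 0 → nn v ≤ 1 →
  s + i + 16 * R + b ≤ M.length → 5 * b * (Fintype.card Ω) ^ 3 < 4 ^ R →
  4 * ((7 / 8) ^ b * Fintype.card Ω * (cls M).card) ≤ em M s v i →
  (∀ a, a + b ≤ M.length → (((cls M).filter fun L => ¬ Tr Ω (Gn ((L.drop a).take b))).card : ℝ) ≤
      (7 / 8) ^ b * Fintype.card Ω * (cls M).card) →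
  (∀ i, s + i + 1 ≤ M.length → em M s v (i + 1) = em M s v i - dl M s v i / 4) →
  (∀ i m, s + i + m ≤ M.length → em M s v i - em M s v (i + m) ≤ dl M s v i) →
  em M s v i / 4 ≤ dl M s v i

/-- (Ctr) Exponential decay of the norms.
Proof.  `St_Lwr` for all `i < k`: either `em i < 4 β c` (`β = (7 / 8) ^ b d`, `c = |cls M|`) or `em (i + 1) = em i - dl i / 4 ≤ (15 / 16) em i`; also `em (i + 1) ≤ em i` (`dl ≥ 0`).  Induction on `k`, `em 0 = nn v * c ≤ c`. -/
def St_Ctr : Prop := ∀ {G : Type} [Group G] [Fintype G] {Ω : Type} [Fintype Ω] [MulAction G Ω]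
  (M : List (G × G)) (s : ℕ) (v : Ω → ℝ) (k : ℕ) (β : ℝ), 0 ≤ β → nn v ≤ 1 →
  (∀ i, i < k → em M s v (i + 1) = em M s v i - dl M s v i / 4) →
  (∀ i, i < k → 4 * (β * (cls M).card) ≤ em M s v i → em M s v i / 4 ≤ dl M s v i) →
  em M s v k ≤ 4 * (β * (cls M).card) ∨ em M s v k ≤ (15 / 16) ^ k * (cls M).card

/-- (Num) Numbers.  Proof: `d ≤ 2 ^ l`; `240 * l * 8 ^ l < 4096 ^ l` (`512 ^ l > 240 l`); `(7 / 8) ^ 48 < 1 / 600`, so `12 * 16 ^ l * (7 / 8) ^ (48 * l) ≤ 12 * (16 / 600) ^ l < 1`; `(15 / 16) ^ 64 < 1 / 60`, `3 * 8 ^ l * (15 / 16) ^ (64 * l) ≤ 3 * (8 / 60) ^ l < 1`. -/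
def St_Num : Prop := ∀ d l : ℕ, 1 ≤ l → d < 2 ^ l →
  5 * (48 * l) * d ^ 3 < 4 ^ (6 * l) ∧
  3 * (d : ℝ) ^ 3 * (4 * ((7 / 8) ^ (48 * l) * d)) < 1 ∧
  3 * (d : ℝ) ^ 3 * (15 / 16) ^ (64 * l) < 1

/-- (Pos) Some list of the class has three consecutive blocks of `64 l` handles whose products join all pairs of points.
Proof.  `d = |Ω|`, `c = |cls M|`.  For `t < 3` and `w : Ω` let `v w' = (if w' = w then 1 else 0) - 1 / d`, `s = 1 + t * 64 l`, `k = 64 l`, `b = 48 l`, `R = 6 l`: `nn v ≤ 1`, sum zero; `s + k + 16 R + b ≤ 1 + 336 l ≤ |M|`.  `St_Lwr`, `St_Ctr` with `β = (7 / 8) ^ b d`, and `St_Num`: `3 d ^ 3 em M s v k < c`.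
The number of the `L` with `nn (vv s v k L) ≥ 1 / d ^ 2` is at most `d ^ 2 em M s v k`, and `< c / (3 d)`.  There are `3 d` pairs `(t, w)`, so some `L ∈ cls M` has `nn (vv s v k L) < 1 / d ^ 2` for all of them.  Then `|vv s v k L w'| < 1 / d`, so `av B (indicator of w) w' = 1 / d + vv s v k L w' > 0`
(`av` is linear and keeps constants, PWE/Bas), `B = (L.drop s).take k`, and `av_supp` (PWE/Bas) gives the product.  (If `d = 0` everything is trivial: `L = M`.) -/
def St_Pos : Prop := St_Gnv → St_Dch → St_Mrg → St_Orb → St_Shf → St_Trb → St_Prl → St_Ntw →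
  St_Dec → St_Gpl → St_Lta → St_Lwr → St_Ctr → St_Num →
  ∀ {G : Type} [Group G] [Fintype G] {Ω : Type} [Fintype Ω] [MulAction G Ω] (M : List (G × G))
  (l : ℕ), 1 ≤ l → Fintype.card Ω < 2 ^ l → 340 * l ≤ M.length → Tr Ω (Gn M) →
  ∃ L, LG M L ∧ ∀ t, t < 3 → Jn Ω ((L.drop (1 + t * (64 * l))).take (64 * l))

end Pool.Agent.PWE
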