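import Pool.Agent.PWE.St
import Pool.Agent.PW.Central

/-!
# Campaign PWE: statements, second part (surfaces)
-/

set_option autoImplicit false

open scoped BigOperators

namespace Pool.Agent.PWE

open Pool.Agent.PW Pool.Agent.PWM Pool.Agent.PWB Pool.Agent.PWX Pool.Agent.PWF Pool.Agent.PWL
  Pool.Agent.PWY
open scoped Classical

/-- The action on the cosets of `K`. -/
abbrev pK {g n : ℕ} (K : Subgroup (F g n)) : F g n →* Equiv.Perm (F g n ⧸ K) :=
  MulAction.toPermHom (F g n) (F g n ⧸ K)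

/-- The subgroup generated by the simple closed curves in `K`. -/
def Ks {g n : ℕ} (K : Subgroup (F g n)) : Subgroup (F g n) := Subgroup.closure {x | x ∈ K ∧ Sm x}

/-- (Sec) If the sets `X 0, X 1, X 2` join all pairs of points, then `Ω' → Ω` is injective.
Proof.  Fix `p : Ω'`.  (0) If `x, x' ∈ X 0`, `x • π p = x' • π p = w`, take `a ∈ X 1` with `a • w = π p`: `a * x, a * x' ∈ S` fix `π p`, so they fix `p`, and `x • p = a⁻¹ • p = x' • p`.  Let `T = {x • p | x ∈ X 0}`; for every `w` there is exactly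
one element `T w ∈ T` with `π (T w) = w`.  (1) `a ∈ X 1`: `a • T w = T (a • w)`.  `T w = x • p`; `z ∈ X 2` with `z • a • w = π p`; `z * a * x ∈ S` fixes `p`; `x'' ∈ X 0` with `x'' • π p = a • w`: `z * x'' ∈ S` fixes `p`; so `a • x • p = z⁻¹ • p = x'' • p`.
(2) `z ∈ X 2`: `z • T w = T (z • w)`.  `a ∈ X 1` with `a • (z • w) = w`: `z * a ∈ S` fixes `z • w = π (T (z • w))`, so `z • a • T (z • w) = T (z • w)`, and `a • T (z • w) = T w` by (1).  (3) `x ∈ X 0`: `a ∈ X 1` with `a • (x • w) = w`; `a * x ∈ S` fixes `T w`: `x • T w = a⁻¹ • T w`, and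
`a • T (x • w) = T w` by (1).  (4) `y ∈ Y` with `i`: `y • T w = T (y • w)`: take `a ∈ X i` with `a • (y • w) = w`, so `a • T (y • w) = T w` by (1), (2), (3).  If `a * y ∈ S`: it fixes `T w`, `y • T w = a⁻¹ • T w = T (y • w)`.  If `y * a ∈ S`: it fixes `T (y • w)`, `y • T w = y • a • T (y • w) = T (y • w)`.
So `T` is invariant under `Y` and `Y⁻¹`, hence under `H`; `H` is transitive on `Ω'`, so `T = Ω'` (if `Ω'` is nonempty), and `π` is injective on `T`. -/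
def St_Sec : Prop := ∀ {H Ω Ω' : Type} [Group H] [MulAction H Ω] [MulAction H Ω'] (π : Ω' → Ω)
  (S : Set H) (X : ℕ → Set H) (Y : Set H), (∀ (x : H) (p : Ω'), π (x • p) = x • π p) →
  (∀ x ∈ S, ∀ p : Ω', x • π p = π p → x • p = p) →
  (∀ i j, i < j → j < 3 → ∀ x ∈ X i, ∀ a ∈ X j, a * x ∈ S) →
  (∀ x ∈ X 0, ∀ a ∈ X 1, ∀ z ∈ X 2, z * a * x ∈ S) →
  (∀ i, i < 3 → ∀ w w' : Ω, ∃ x ∈ X i, x • w = w') →
  (∀ y ∈ Y, ∃ i, i < 3 ∧ ((∀ a ∈ X i, a * y ∈ S) ∨ ∀ a ∈ X i, y * a ∈ S)) →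
  Subgroup.closure Y = ⊤ → (∀ p p' : Ω', ∃ x : H, x • p = p') → Function.Injective π

/-- (Dsp) The sets of products.
Proof.  Inductions on the list; `x ∈ ⊤` is always true. -/
def St_Dsp : Prop := ∀ {H : Type} [Group H],
  (∀ (l l' : List H) (d d' : H), d ∈ Ds ⊤ l → d' ∈ Ds ⊤ l' → d' * d ∈ Ds ⊤ (l ++ l')) ∧
  (∀ l l' : List H, List.Sublist l' l → Ds ⊤ l' ⊆ Ds ⊤ l) ∧
  ∀ {H' : Type} [Group H'] (f : H →* H') (l : List H) (d : H'), d ∈ Ds ⊤ (l.map f) ↔
    ∃ x ∈ Ds ⊤ l, f x = d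

/-- (Sm0) The products of the letters are simple.
Proof.  Claim, by induction on `k`: the elements of `Ds ⊤` of the last `k` entries of `gbl g n` are `1` or simple.  Step: the list is `gb m :: ts`, `ts` the letters after `m`; an element of `Ds ⊤ (gb m :: ts)` is in `Ds ⊤ ts`, or it is `d * gb m` with `d ∈ Ds ⊤ ts`.  In the second case `eCub` for the group
`F g n`, `p = (ga m, gb m)`, `P = []`, `T` the pairs `(ga j, gb j)`, `j > m`, gives `LG (p :: T) (p' :: P')` with `p'.2 = d * gb m`; `PWH.bRea` for `ρ = MonoidHom.id _` (`lst ρ m (g - m) = p :: T`): `φ ∈ MCG g n` with `lst φ m (g - m) = p' :: P'`, so `φ (gb m) = p'.2`. -/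
def St_Sm0 : Prop := ∀ {g n : ℕ} (x : F g n), x ∈ Ds ⊤ (gbl g n) → x = 1 ∨ Sm x

/-- (Smx) More simple elements.
Proof.  (1) `φ * ψ ∈ MCG`.  (2) the inner automorphisms are in `MCG g n`.  (3) `x ∈ Ds ⊤ ((gbl g n).drop (i + 1))` is a product of letters `gb j`, `j ≠ i`, so `θ x = x` (the `y` with `θ y = y` form a subgroup), and `x * gb i ∈ Ds ⊤ (gbl g n)` (`St_Dsp`); `x * θ (gb i) = θ (x * gb i)`; `St_Sm0` and (1).
In the same way for `gb i * x`. -/
def St_Smx : Prop := St_Dsp → St_Sm0 → ∀ {g n : ℕ},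
  (∀ (x : F g n), Sm x → ∀ φ ∈ MCG g n, Sm (φ x)) ∧
  (∀ x y : F g n, Sm x → Sm (y * x * y⁻¹)) ∧
  ∀ (i : Fin g) (θ : MulAut (F g n)), θ ∈ MCG g n → (∀ j, j ≠ i → θ (gb j) = gb j) →
    (∀ x ∈ Ds ⊤ ((gbl g n).drop (i + 1)), x * θ (gb i) = 1 ∨ Sm (x * θ (gb i))) ∧
    ∀ x ∈ Ds ⊤ ((gbl g n).take i), θ (gb i) * x = 1 ∨ Sm (θ (gb i) * x)

/-- (Clo) Generators of the form `θ (gb i)`.
Proof.  The first kind: `θ = 1`.  The second one: `PWH.bRea` for `ρ = MonoidHom.id _`, `m = i`, `k = 1`, `LG [p] [rt p]` (`bBas` (6)), `rt (a, b) = (b⁻¹, b * a * b⁻¹)`.  The third one: `qsh z j 1` (PW/Autos; `qsh_mem`, `qh_b'`, `qh_bi : qh i j k (gb i) = qw i j ^ k * gb i`).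
The closure `E` contains all `gb i`, all `ga i`, so all `sc z j` (`qw z j = gb z * (ga z)⁻¹ * (gb z)⁻¹ * sc z j`), and by induction on `j` all `gc j` (`sc z j = midc * gc j * midc⁻¹`, `midc g n z j` is a product of handles and of the `gc l`, `l < j`; compare `gen_moved`); `eq_top_of_gens`. -/
def St_Clo : Prop := ∀ {g n : ℕ} (z : Fin g), (z : ℕ) = 0 →
  Subgroup.closure {y : F g n | ∃ (i : Fin g) (θ : MulAut (F g n)), θ ∈ MCG g n ∧
    (∀ j, j ≠ i → θ (gb j) = gb j) ∧ y = θ (gb i)} = ⊤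

/-- (Gen) If three consecutive blocks join all pairs of points then `K` is generated by simple closed curves.
Proof.  `St_Sec` for `H = F g n`, `Ω = F g n ⧸ K`, `Ω' = F g n ⧸ Ks K`, `π` the map of the cosets (`Ks K ≤ K`), `S = {x | x = 1 ∨ Sm x}`, `X t = {φ x | x ∈ Ds ⊤ (B t)}`, `B t = ((gbl g n).drop (1 + t * k)).take k`, `Y = {φ y | y as in St_Clo}`.
Second condition: `p = y Ks`, `x • (y K) = y K` says `y⁻¹ x y ∈ K`, it is simple (`St_Smx` (2)), so it is in `Ks K`.  Products: `St_Dsp` (append of blocks, sublists of `gbl`), `St_Sm0`, `St_Smx` (1).  Joining: the block of `lst ((pK K).comp φ) 0 g` has the letters `pK K (φ (gb j))`, `St_Dsp` (3) for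
`f = (pK K).comp φ`.  Generators `y = θ (gb i)`: if `i` lies before the block `1` (that is `i < 1 + k`): `B 1` is a sublist of `(gbl g n).drop (i + 1)`: `a * y ∈ S`; otherwise `B 0` is a sublist of `(gbl g n).take i`: `y * a ∈ S` for `a ∈ X 0`.
Closure of the image under `φ` is `⊤`.  Transitive: clear.  `π` injective: for `x ∈ K`, `π (x Ks) = π Ks`, so `x ∈ Ks K`. -/
def St_Gen : Prop := St_Sec → St_Dsp → St_Sm0 → St_Smx → St_Clo → ∀ {g n k : ℕ}
  (K : Subgroup (F g n)) (φ : MulAut (F g n)), φ ∈ MCG g n → 1 + 3 * k ≤ g →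
  (∀ t, t < 3 → Jn (F g n ⧸ K)
    (((lst ((pK K).comp (MulEquiv.toMonoidHom φ)) 0 g).drop (1 + t * k)).take k)) →
  Ks K = K

/-- (Red) After a mapping class the handles alone act transitively.
Proof.  Write `M φ = lst (ρ.comp φ) 0 g`, `x φ = (ob Ω (Gn (M φ))).card`.  Choose `φ ∈ MCG g n` with `x φ` minimal; replace `ρ` by `ρ.comp φ` (so `φ = 1`), `M = lst ρ 0 g`.  Suppose `x ≥ 2`.  `St_Orb` for `k = g - 1` and `St_Shf` with `a = 1`, `b = g - 1` (the law of `L.drop 1` is that of `L.take (g - 1)`): as `(7/8)^(g-1) |Ω| < 1`,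
some `L ∈ cls M` has `(ob Ω (Gn (L.drop 1))).card ≤ (ob Ω (Gn M)).card`; `PWH.bRea`: replace `ρ` again, now `M = L`.  `A = Gn M`, `A₁ = Gn (M.drop 1) ≤ A` have the same orbits.  `E = {x | ρ x maps every orbit of A to itself}` is a subgroup which contains all `ga i`, `gb i`; `ρ` is transitive and `A` is not, so some `gc j ∉ E`;
take `j` minimal.  `z` the first handle: `sc z j = midc * gc j * midc⁻¹ ∉ E` (`midc g n z j ∈ E`), so `y = qsh z j 1 (gb z) = gb z * (ga z)⁻¹ * (gb z)⁻¹ * sc z j * gb z ∉ E`.  For `φ = qsh z j 1 ∈ MCG g n` (`qsh_mem`): `Gn (M φ)` contains `A₁` (`qh_a`, `qh_b'`) and `ρ y`, so its orbits are unions of orbits of `A` and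
some orbit of `A` is moved: there are fewer orbits (`St_Mrg` for `A₁`, or directly).  Contradiction. -/
def St_Red : Prop := St_Gnv → St_Dch → St_Mrg → St_Orb → St_Shf → ∀ {G : Type} [Group G]
  [Fintype G] {Ω : Type} [Fintype Ω] [MulAction G Ω] {g n : ℕ} (ρ : F g n →* G),
  (∀ w w' : Ω, ∃ x, ρ x • w = w') → 0 < g → (7 / 8 : ℝ) ^ (g - 1) * Fintype.card Ω < 1 →
  ∃ φ ∈ MCG g n, Tr Ω (Gn (lst (ρ.comp (MulEquiv.toMonoidHom φ)) 0 g))

/-- (Kil) A class with a finite orbit vanishes on the simple closed curves.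
Proof.  `good_of_finite` (PW/Orbit) gives `Good K.normalCore (ext0 K f)`.  `x = φ (gb i)`.  By `st_Move` (PWM; `St_Move` in PWM/StA) `θ (gb z) = w * gb i * w⁻¹` for some `θ ∈ MCG g n`, `z` the first handle, so `x = (φ w)⁻¹ * (φ * θ) (gb z) * φ w` (compare PWM/IndKill).  For `L` with `x ^ L ∈ K.normalCore` (`exists_exp`):
`Good.kill_b'` (PW/Good) gives `ext0 K f (x ^ L) = 0`; `x ^ L ∈ K`, `f (x ^ L) = L * f x` (end of the proof of `infinite_of_block`, PWB/Main). -/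
def St_Kil : Prop := ∀ {g n : ℕ} (K : Subgroup (F g n)) [K.FiniteIndex],
  bdry g n ∈ K.normalCore → ∀ f : K → ℚ, IsClass K f → (orbit K f).Finite →
  ∀ (x : F g n) (hx : x ∈ K), Sm x → f ⟨x, hx⟩ = 0

/-- (Deg) A subgroup of index `d`, `g ≥ 340 (log₂ d + 1)`, is generated by simple closed curves.
Proof.  `l = Nat.log 2 K.index + 1`, `Ω = F g n ⧸ K`, `G = Equiv.Perm Ω`, `ρ = pK K`.  `St_Red` (`(7/8)^(340 l - 1) 2^l < 1`): `φ`; `St_Pos` for `M = lst (ρ.comp φ) 0 g`: `L`; `PWH.bRea`: `ψ ∈ MCG g n` with `lst ((ρ.comp φ).comp ψ) 0 g = L`; `St_Gen` for `φ * ψ`, `k = 64 l`. -/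
def St_Deg : Prop := ∀ (g n : ℕ) (K : Subgroup (F g n)), K.index ≠ 0 →
  340 * (Nat.log 2 K.index + 1) ≤ g → Ks K = K

end Pool.Agent.PWE
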